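import Pool.Agent.E8helper32.SL.Eb
import Pool.Agent.E8helper32.SA.Cross

/-!
# Isolated singularities of the derivative: the local theorem
-/

set_option autoImplicit false

open Complex Metric Set Filter Topology ComplexConjugate

namespace Pool.Agent.E8helper32.SL

open Pool.Agent.Results.MP_83fd13_an.BranchSingularities
open Pool.Agent.Y245.SC (seg t_SEG Ess)
open Pool.Agent.Y245.UC (Rf VG)
open Pool.Agent.E8helper32.SA (per per_re exp_add_per log_lift log_eq eqOn_convex branch_norm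
  branch_diff branch_congr branch_ball ext_of_slow convex_cont exp_sub_lt Fz_mem JB)

variable {φ : ℂ → ℂ} {r : ℝ} {w1 : ℂ} {L : ℝ} {G : ℂ → ℂ} {Λ : ℝ} {ℓ : ℂ → ℂ} {Δ : ℂ}

theorem per_one : per 1 = 2 * Real.pi * I := by unfold per; simp

theorem per_ne : per 1 ≠ 0 := by
  rw [per_one]
  exact two_pi_I_ne_zero

/-- functions with an additive period -/
theorem rep1 (hG : DifferentiableOn ℂ G (re ⁻¹' Iio L))
    (hΔ : ∀ τ : ℂ, τ.re < L → G (τ + per 1) = G τ + Δ) :
    ∃ X : ℂ → ℂ, DifferentiableOn ℂ X (ball 0 (Real.exp L) \ {0}) ∧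
      ∀ τ : ℂ, τ.re < L → G τ = X (exp τ) + Δ / per 1 * τ := by
  have hp := per_ne
  set G1 : ℂ → ℂ := fun τ => G τ - Δ / per 1 * τ with hG1def
  have hG1 : DifferentiableOn ℂ G1 (re ⁻¹' Iio L) :=
    hG.sub ((differentiableOn_id).const_mul _)
  have hper : ∀ τ : ℂ, τ.re ∈ Iio L → G1 (τ + per 1) = G1 τ := by
    intro τ hτ
    simp only [G1]
    rw [hΔ τ hτ]
    field_simp
    ring
  refine ⟨fun x => G1 ((1 : ℕ) * log x), ?_, ?_⟩
  · rintro x ⟨hx, hx0⟩
    refine (log_lift isOpen_Iio hG1 hper hx0 ?_).differentiableWithinAt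
    rw [mem_ball_zero_iff] at hx
    rw [Nat.cast_one, one_mul, log_re, mem_Iio, Real.log_lt_iff_lt_exp (norm_pos_iff.2 hx0)]
    exact hx
  · intro τ hτ
    have h1 := log_eq (q := 1) hper (a := log (exp τ)) (b := τ) (exp_log (exp_ne_zero τ))
      (by rw [Nat.cast_one, one_mul]; exact hτ)
    simp only
    rw [h1]
    simp only [G1]
    rw [Nat.cast_one, one_mul]
    ring

theorem conj_per : conj (per 1) = -per 1 := by
  rw [per_one, map_mul, map_mul, conj_I, conj_ofReal, Complex.conj_ofNat]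
  ring

theorem Ts_per (hC : Co φ r w1 L Λ ℓ) (hΔ : ∀ τ : ℂ, τ.re < L → G (τ + per 1) = G τ + Δ) {σ : ℂ}
    (hσ : σ.re < Λ) : Ts G ℓ (σ + per 1) = Ts G ℓ σ + -conj Δ := by
  unfold Ts
  rw [exp_add_per]
  have h1 : conj (σ + per 1 + ℓ (exp σ)) = conj (σ + ℓ (exp σ)) - per 1 := by
    rw [map_add, map_add, conj_per, map_add]
    ring
  have h2 := hΔ (conj (σ + ℓ (exp σ)) - per 1) (by
    rw [sub_re, per_re, sub_zero, conj_re]
    exact hC.re_lt hσ)
  rw [sub_add_cancel] at h2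
  have h3 : conj (G (conj (σ + ℓ (exp σ)))) =
      conj (G (conj (σ + ℓ (exp σ)) - per 1)) + conj Δ := by
    rw [h2]
    exact map_add _ _ _
  rw [h1, h3]
  ring

/-- the singularity is at most logarithmic -/
theorem excl {a : ℝ} {T : ℂ → ℂ} {D : ℂ} (ha : 0 < a)
    (hTd : DifferentiableOn ℂ T (re ⁻¹' Iio Λ)) (hJU : JU a Λ T)
    (hT : ∀ σ : ℂ, σ.re < Λ → T (σ + per 1) = T σ + D) (hD : D ≠ 0) :
    ∃ E : ℂ → ℂ, DifferentiableOn ℂ E (ball 0 (Real.exp Λ)) ∧
      ∀ σ : ℂ, σ.re < Λ → T σ = E (exp σ) + D / per 1 * σ := by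
  obtain ⟨X, hX, hTX⟩ := rep1 hTd hT
  have hq : (0 : ℕ) < 1 := one_pos
  have hmem : ∀ σ : ℂ, σ.re < Λ → exp σ ∈ ball (0 : ℂ) (Real.exp Λ) := fun σ hσ => by
    rw [mem_ball_zero_iff, norm_exp]; exact Real.exp_lt_exp.2 hσ
  rcases Pool.Agent.Y953.ES.tri 0 (Real.exp Λ) X (Real.exp_pos _) hX with hess | ⟨m, E, hE, hm, hXE⟩
  · exact (partE ha hJU hTd hess hTX).elim
  · have hTE : ∀ σ : ℂ, σ.re < Λ → T σ = E (exp σ) / exp σ ^ m + D / per 1 * σ := by
      intro σ hσ
      rw [hTX σ hσ, hXE _ (hmem σ hσ) (exp_ne_zero _), sub_zero]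
    rcases hm with rfl | hE0
    · refine ⟨E, hE, fun σ hσ => ?_⟩
      rw [hTE σ hσ, pow_zero, div_one]
    · have hE1 : DifferentiableOn ℂ E (ball 0 (Real.exp (Λ / (1 : ℕ)))) := by
        rw [Nat.cast_one, div_one]; exact hE
      rcases Nat.lt_or_ge 1 m with h2 | h2
      · refine (partCL (q := 1) (μ := (m : ℝ)) (E := E) (cc := D / per 1) ha hq
          (by exact_mod_cast h2) hJU.jb hTd hE1 hE0 fun σ hσ => ?_).elim
        rw [hTE σ hσ, Nat.cast_one, div_one, exp_neg, ofReal_natCast, exp_nat_mul, div_eq_mul_inv]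
      · interval_cases m
        · refine ⟨E, hE, fun σ hσ => ?_⟩
          rw [hTE σ hσ, pow_zero, div_one]
        · exfalso
          have hFd : DifferentiableOn ℂ (dslope E 0) (ball 0 (Real.exp (Λ / (1 : ℕ)))) := by
            rw [Nat.cast_one, div_one]
            exact (differentiableOn_dslope (ball_mem_nhds _ (Real.exp_pos _))).2 hE
          have h3 := no_log (q := 1) (F := dslope E 0) (e0 := E 0) (cc := D / per 1) ha hq
            hJU.jb hTd hFd hE0 fun σ hσ => by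
              rw [hTE σ hσ, Nat.cast_one, div_one, pow_one, exp_neg]
              have h4 := sub_smul_dslope E 0 (exp σ)
              rw [sub_zero, smul_eq_mul] at h4
              have h5 := exp_ne_zero σ
              field_simp
              linear_combination -h4
          rcases div_eq_zero_iff.1 h3 with h4 | h4
          · exact hD h4
          · exact per_ne h4

/-- a point near `w1` in the coordinate `σ` -/
theorem inv_co (hD : D0 φ r) (hw1 : 1 < ‖w1‖) (hC : Co φ r w1 L Λ ℓ) :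
    ∃ (δ B : ℝ), 0 < δ ∧ ∀ τ : ℂ, ‖exp τ‖ < δ → ∃ σ : ℂ, σ.re < Λ ∧ σ + ℓ (exp σ) = τ ∧
      ‖exp σ‖ ≤ Real.exp Λ / 2 ∧ ‖σ‖ ≤ ‖τ‖ + B := by
  have hR : 0 < ‖w1‖ - 1 := by linarith
  have hcw : conj w1 ≠ 0 := by
    rw [ne_eq, _root_.map_eq_zero]
    exact norm_pos_iff.1 (by linarith)
  have hPm : (1 / conj w1 : ℂ) ∈ ball (0 : ℂ) 1 := SA.rho_mem hw1
  obtain ⟨B, hB⟩ := (isCompact_closedBall (0 : ℂ) (Real.exp Λ / 2)).exists_bound_of_continuousOn
    (hC.hℓ.continuousOn.mono (closedBall_subset_ball (half_lt_self (Real.exp_pos Λ))))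
  have hcont : ContinuousAt (fun u : ℂ => φ (1 / (conj w1 + u)) - φ (1 / conj w1)) 0 := by
    refine ContinuousAt.sub ?_ continuousAt_const
    have h1 : ContinuousAt φ (1 / (conj w1 + 0)) := by
      rw [add_zero]
      exact (hD.hφ.differentiableAt (isOpen_ball.mem_nhds
        (ball_subset_ball hD.hr.le hPm))).continuousAt
    have h2 : ContinuousAt (fun u : ℂ => 1 / (conj w1 + u)) 0 := by
      refine continuousAt_const.div (continuousAt_const.add continuousAt_id) ?_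
      simp only [add_zero]
      exact hcw
    exact ContinuousAt.comp (g := φ) (f := fun u : ℂ => 1 / (conj w1 + u)) h1 h2
  have hev : ∀ᶠ u in 𝓝 (0 : ℂ), φ (1 / (conj w1 + u)) - φ (1 / conj w1) ∈
      closedBall (0 : ℂ) (Real.exp Λ / 2) ∧ u ∈ ball (0 : ℂ) (‖w1‖ - 1) := by
    refine Filter.Eventually.and ?_ (isOpen_ball.eventually_mem (mem_ball_self hR))
    refine hcont.eventually (closedBall_mem_nhds_of_mem ?_)
    simp only [add_zero, sub_self]
    exact mem_ball_self (by positivity)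
  obtain ⟨δ, hδ, h1⟩ := Metric.eventually_nhds_iff_ball.1 hev
  refine ⟨δ, B, hδ, fun τ hτ => ?_⟩
  obtain ⟨h2, h3⟩ := h1 (exp τ) (by rwa [mem_ball_zero_iff])
  set x : ℂ := φ (1 / (conj w1 + exp τ)) - φ (1 / conj w1) with hx
  have hxb : x ∈ ball (0 : ℂ) (Real.exp Λ) :=
    closedBall_subset_ball (half_lt_self (Real.exp_pos Λ)) h2
  obtain ⟨h4, h5⟩ := Fz_mem h3
  have h6 : φ (1 / conj w1) + x = φ (1 / (conj w1 + exp τ)) := by rw [hx]; ring
  have h7 := hC.h3 x hxb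
  rw [h6, psi_apply hD (ball_subset_ball hD.hr.le h5), one_div_one_div, add_right_inj] at h7
  have h8 : exp (τ - ℓ x) = x := by
    rw [exp_sub, h7, mul_div_cancel_right₀ _ (exp_ne_zero _)]
  have h9 : ‖ℓ x‖ ≤ B := hB x h2
  refine ⟨τ - ℓ x, ?_, ?_, ?_, ?_⟩
  · have h10 : ‖exp (τ - ℓ x)‖ < Real.exp Λ := by
      rw [h8]; exact mem_ball_zero_iff.1 hxb
    rw [norm_exp] at h10
    exact Real.exp_lt_exp.1 h10
  · rw [h8]; ring
  · rw [h8]; exact mem_closedBall_zero_iff.1 h2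
  · exact (norm_sub_le _ _).trans (by linarith)

theorem slit_of_ball {s : ℝ} {w : ℂ} (hw : w ∈ ball (w1 + (s : ℂ)) s) : 0 < (w - w1).re := by
  rw [mem_ball, dist_eq_norm] at hw
  have h1 := abs_re_le_norm (w - (w1 + (s : ℂ)))
  have h2 : (w - (w1 + (s : ℂ))).re = (w - w1).re - s := by
    rw [sub_re, add_re, ofReal_re, sub_re]; ring
  rw [h2] at h1
  have h3 := (abs_le.1 h1).1
  linarith

/-- slow growth -/
theorem slow_ext (hG : P0 φ r w1 L G) {lam : ℝ} (hlam : 0 < lam) (hBU : BranchesBlowUp φ r lam)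
    (hslow : ∀ η : ℝ, 0 < η → ∃ δ : ℝ, 0 < δ ∧ ∀ τ : ℂ, ‖exp τ‖ < δ → |τ.im| ≤ Real.pi →
      τ.re < L → ‖exp τ‖ * ‖G τ‖ ≤ η) :
    ∃ (ε : ℝ) (E : ℂ → ℂ), 0 < ε ∧ DifferentiableOn ℂ E (ball w1 ε) ∧
      ∀ τ : ℂ, τ.re < L → τ.re < Real.log ε → G τ = E (w1 + exp τ) := by
  have hw1 := hG.hw1
  set s : ℝ := min (Real.exp L / 4) ((‖w1‖ - 1) / 4) with hs
  have hs0 : 0 < s := lt_min (by positivity) (by linarith)
  have hs1 : s ≤ Real.exp L / 4 := min_le_left _ _
  have hs2 : s ≤ (‖w1‖ - 1) / 4 := min_le_right _ _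
  have hUo : IsOpen (re ⁻¹' Iio L : Set ℂ) := isOpen_Iio.preimage continuous_re
  have hB : ∀ w ∈ closedBall (w1 + (s : ℂ)) s, 1 < ‖w‖ := by
    intro w hw
    rw [mem_closedBall, dist_eq_norm] at hw
    have h1 : ‖w - w1‖ ≤ 2 * s := by
      have e : w - w1 = (w - (w1 + s)) + s := by ring
      rw [e]
      refine (norm_add_le _ _).trans ?_
      rw [norm_real, Real.norm_of_nonneg hs0.le]
      linarith
    have h2 : ‖w1‖ ≤ ‖w‖ + ‖w - w1‖ := by
      have := norm_sub_le w (w - w1)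
      rwa [sub_sub_cancel] at this
    linarith
  have hnorm : ∀ w ∈ ball (w1 + (s : ℂ)) s, ‖w - w1‖ < Real.exp L := by
    intro w hw
    rw [mem_ball, dist_eq_norm] at hw
    have e : w - w1 = (w - (w1 + s)) + s := by ring
    rw [e]
    refine (norm_add_le _ _).trans_lt ?_
    rw [norm_real, Real.norm_of_nonneg hs0.le]
    linarith [Real.exp_pos L]
  have hne : ∀ w ∈ ball (w1 + (s : ℂ)) s, w - w1 ≠ 0 := by
    intro w hw h0
    have := slit_of_ball hw
    rw [h0, zero_re] at this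
    exact lt_irrefl _ this
  have hlre : ∀ w ∈ ball (w1 + (s : ℂ)) s, (log (w - w1)).re < L := by
    intro w hw
    rw [log_re, Real.log_lt_iff_lt_exp (norm_pos_iff.2 (hne w hw))]
    exact hnorm w hw
  have hld : ∀ w ∈ ball (w1 + (s : ℂ)) s, DifferentiableAt ℂ (fun w => log (w - w1)) w := by
    intro w hw
    exact (differentiableAt_fun_id.sub_const w1).clog (Or.inl (slit_of_ball hw))
  set g : ℂ → ℂ := fun w => G (log (w - w1)) with hg
  have hgd : DifferentiableOn ℂ g (ball (w1 + (s : ℂ)) s) := by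
    intro w hw
    have h1 : DifferentiableAt ℂ G (log (w - w1)) :=
      hG.hG.differentiableAt (hUo.mem_nhds (hlre w hw))
    exact (DifferentiableAt.comp (g := G) (f := fun w => log (w - w1)) w h1
      (hld w hw)).differentiableWithinAt
  have hcm : w1 + (s : ℂ) ∈ ball (w1 + (s : ℂ)) s := mem_ball_self hs0
  have hbr : Branch φ r (w1 + (s : ℂ)) g := by
    obtain ⟨g', hg', hGg'⟩ := hG.hbr (log (w1 + (s : ℂ) - w1)) (hlre _ hcm)
    rw [exp_log (hne _ hcm), add_sub_cancel_left] at hg'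
    refine branch_congr hG.hD.hφ hg' ?_
    have h2 := (hld _ hcm).continuousAt.eventually hGg'
    filter_upwards [h2, isOpen_ball.mem_nhds hcm] with w h3 h4
    show g' w = G (log (w - w1))
    rw [h3, exp_log (hne w h4), add_sub_cancel]
  have hw1s : w1 ∈ sphere (w1 + (s : ℂ)) s := by
    rw [mem_sphere, dist_eq_norm, sub_add_cancel_left, norm_neg, norm_real,
      Real.norm_of_nonneg hs0.le]
  obtain ⟨ε, E, hε, hE, hEg⟩ := ext_of_slow hlam hBU hs0 hB hgd ⟨_, hcm, hbr⟩ hw1s (by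
    intro η hη
    obtain ⟨δ, hδ, h1⟩ := hslow η hη
    refine ⟨δ, hδ, fun w hw hwδ => ?_⟩
    have h2 := h1 (log (w - w1)) (by rw [exp_log (hne w hw)]; exact hwδ) (by
      rw [log_im]; exact abs_arg_le_pi _) (hlre w hw)
    rwa [exp_log (hne w hw)] at h2)
  refine ⟨ε, E, hε, hE, ?_⟩
  -- the identity theorem
  have hVo : IsOpen (re ⁻¹' Iio L ∩ re ⁻¹' Iio (Real.log ε) : Set ℂ) :=
    hUo.inter (isOpen_Iio.preimage continuous_re)
  have hVc : Convex ℝ (re ⁻¹' Iio L ∩ re ⁻¹' Iio (Real.log ε) : Set ℂ) :=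
    (convex_halfSpace_re_lt L).inter (convex_halfSpace_re_lt _)
  have hEd : DifferentiableOn ℂ (fun τ => E (w1 + exp τ))
      (re ⁻¹' Iio L ∩ re ⁻¹' Iio (Real.log ε)) := by
    rintro τ ⟨-, hτ⟩
    have h1 : DifferentiableAt ℂ E (w1 + exp τ) := by
      refine hE.differentiableAt (isOpen_ball.mem_nhds ?_)
      rw [mem_ball, dist_eq_norm, add_sub_cancel_left, norm_exp, ← Real.lt_log_iff_exp_lt hε]
      exact hτ
    exact (DifferentiableAt.comp (g := E) (f := fun τ => w1 + exp τ) τ h1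
      ((differentiableAt_const _).add differentiableAt_exp)).differentiableWithinAt
  set t : ℝ := min s ε / 2 with ht
  have ht0 : 0 < t := by
    have : 0 < min s ε := lt_min hs0 hε
    positivity
  have hts : t < s := by
    have := min_le_left s ε
    rw [ht]; linarith
  have htε : t < ε := by
    have := min_le_right s ε
    rw [ht]; linarith
  have htb : w1 + (t : ℂ) ∈ ball w1 ε ∩ ball (w1 + (s : ℂ)) s := by
    constructor
    · rw [mem_ball, dist_eq_norm, add_sub_cancel_left, norm_real, Real.norm_of_nonneg ht0.le]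
      exact htε
    · rw [mem_ball, dist_eq_norm, add_sub_add_left_eq_sub, ← ofReal_sub, norm_real,
        Real.norm_eq_abs, abs_of_nonpos (by linarith)]
      linarith
  have hexpt : exp ((Real.log t : ℝ) : ℂ) = (t : ℂ) := by
    rw [← ofReal_exp, Real.exp_log ht0]
  have hτm : ((Real.log t : ℝ) : ℂ) ∈ (re ⁻¹' Iio L ∩ re ⁻¹' Iio (Real.log ε) : Set ℂ) := by
    constructor
    · rw [mem_preimage, ofReal_re, mem_Iio, Real.log_lt_iff_lt_exp ht0]
      linarith [Real.exp_pos L]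
    · rw [mem_preimage, ofReal_re, mem_Iio]
      exact Real.log_lt_log ht0 htε
  have hev : G =ᶠ[𝓝 ((Real.log t : ℝ) : ℂ)] fun τ => E (w1 + exp τ) := by
    have h1 : Tendsto (fun τ : ℂ => w1 + exp τ) (𝓝 ((Real.log t : ℝ) : ℂ)) (𝓝 (w1 + (t : ℂ))) := by
      have : Tendsto (fun τ : ℂ => w1 + exp τ) (𝓝 ((Real.log t : ℝ) : ℂ))
          (𝓝 (w1 + exp ((Real.log t : ℝ) : ℂ))) :=
        (continuous_const.add continuous_exp).tendsto _
      rwa [hexpt] at this
    have h2 := h1.eventually ((isOpen_ball.inter isOpen_ball).mem_nhds htb)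
    have h3 : ∀ᶠ τ in 𝓝 ((Real.log t : ℝ) : ℂ), |τ.im| < Real.pi := by
      have h4 : ContinuousAt (fun τ : ℂ => |τ.im|) ((Real.log t : ℝ) : ℂ) :=
        (continuous_abs.comp continuous_im).continuousAt
      refine h4.eventually (gt_mem_nhds ?_)
      show |((Real.log t : ℝ) : ℂ).im| < Real.pi
      rw [ofReal_im, abs_zero]
      exact Real.pi_pos
    filter_upwards [h2, h3] with τ h4 h5
    rw [hEg _ h4]
    simp only [g]
    rw [add_sub_cancel_left, log_exp (by linarith [(abs_lt.1 h5).1]) (abs_lt.1 h5).2.le]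
  have hEq := eqOn_convex hVc hVo (hG.hG.mono inter_subset_left) hEd hτm hev
  exact fun τ h1 h2 => hEq ⟨h1, h2⟩

/-- **No logarithms.** -/
theorem per_zero (hG : P0 φ r w1 L G) {lam : ℝ} (hlam : 0 < lam) (hBU : BranchesBlowUp φ r lam)
    (hVG : ∀ (z : ℂ) (f : ℂ → ℂ), Branch φ r z f → ∀ b,
      VG (lam / 4) φ b (1 / conj z) (Rf f))
    (hΔ : ∀ τ : ℂ, τ.re < L → G (τ + per 1) = G τ + Δ) : Δ = 0 := by
  by_contra hΔ0
  have ha : 0 < lam / 4 := by positivity
  have hw1 := hG.hw1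
  obtain ⟨Λ, ℓ, hC⟩ := exists_co hG.hD hw1 L
  have hJU := jboundU hG hC ha hVG
  have hTd := Ts_diff hC hG.hG
  have hD0 : -conj Δ ≠ 0 := by
    rw [neg_ne_zero, ne_eq, _root_.map_eq_zero]
    exact hΔ0
  obtain ⟨E, hE, hTE⟩ := excl ha hTd hJU (fun σ hσ => Ts_per hC hΔ hσ) hD0
  set cc : ℂ := -conj Δ / per 1 with hcc
  obtain ⟨δ0, B, hδ0, hinv⟩ := inv_co hG.hD hw1 hC
  obtain ⟨M, hM⟩ := (isCompact_closedBall (0 : ℂ) (Real.exp Λ / 2)).exists_bound_of_continuousOn
    (hE.continuousOn.mono (closedBall_subset_ball (half_lt_self (Real.exp_pos Λ))))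
  have hM0 : 0 ≤ M := (norm_nonneg _).trans (hM 0 (mem_closedBall_self (by positivity)))
  -- the growth of `G`
  have hgr : ∀ τ : ℂ, ‖exp τ‖ < δ0 → |τ.im| ≤ Real.pi → ‖G τ‖ ≤ M + ‖cc‖ * (|τ.re| + 4 + B) := by
    intro τ hτ him
    obtain ⟨σ, h1, h2, h3, h4⟩ := hinv (conj τ) (by
      rw [exp_conj, norm_conj]; exact hτ)
    have h5 : Ts G ℓ σ = conj (G τ) := by
      unfold Ts
      rw [h2, conj_conj]
    have h6 : ‖G τ‖ = ‖Ts G ℓ σ‖ := by rw [h5, norm_conj]
    rw [h6, hTE σ h1]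
    refine (norm_add_le _ _).trans ?_
    rw [norm_mul]
    have h7 := hM (exp σ) (mem_closedBall_zero_iff.2 h3)
    have h8 : ‖σ‖ ≤ |τ.re| + 4 + B := by
      rw [norm_conj] at h4
      have h9 := norm_le_abs_re_add_abs_im τ
      linarith [Real.pi_lt_four]
    gcongr
  have hlim : Tendsto (fun x : ℝ => Real.exp x * (M + ‖cc‖ * (|x| + 4 + B))) atBot (𝓝 0) := by
    have h1 : Tendsto (fun x : ℝ => Real.exp x) atBot (𝓝 0) := Real.tendsto_exp_atBot
    have h2 : Tendsto (fun x : ℝ => x * Real.exp x) atBot (𝓝 0) := by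
      have h3 := (Real.tendsto_pow_mul_exp_neg_atTop_nhds_zero 1).comp tendsto_neg_atBot_atTop
      have h4 := h3.neg
      rw [neg_zero] at h4
      refine h4.congr fun x => ?_
      simp only [Function.comp_apply, neg_neg, pow_one]
      ring
    have h3 := (h1.const_mul (M + ‖cc‖ * (4 + B))).add (h2.const_mul (-‖cc‖))
    rw [mul_zero, mul_zero, add_zero] at h3
    refine h3.congr' ?_
    filter_upwards [eventually_le_atBot 0] with x hx
    rw [abs_of_nonpos hx]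
    ring
  obtain ⟨ε, E', hε, -, hGE⟩ := slow_ext hG hlam hBU (by
    intro η hη
    have h1 := hlim.eventually (ge_mem_nhds hη)
    obtain ⟨x0, hx0⟩ := Filter.eventually_atBot.1 h1
    refine ⟨min δ0 (Real.exp x0), lt_min hδ0 (Real.exp_pos _), fun τ hτ him _ => ?_⟩
    have h2 := hgr τ (hτ.trans_le (min_le_left _ _)) him
    have h3 : τ.re ≤ x0 := by
      have h4 := hτ.trans_le (min_le_right _ _)
      rw [norm_exp] at h4
      exact (Real.exp_lt_exp.1 h4).le
    rw [norm_exp]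
    calc Real.exp τ.re * ‖G τ‖ ≤ Real.exp τ.re * (M + ‖cc‖ * (|τ.re| + 4 + B)) := by gcongr
      _ ≤ η := hx0 _ h3)
  -- the period vanishes
  set x : ℝ := min L (Real.log ε) - 1 with hx
  have h1 : ((x : ℝ) : ℂ).re < L := by
    rw [ofReal_re, hx]; linarith [min_le_left L (Real.log ε)]
  have h2 : ((x : ℝ) : ℂ).re < Real.log ε := by
    rw [ofReal_re, hx]; linarith [min_le_right L (Real.log ε)]
  have h3 := hΔ _ h1
  rw [hGE _ h1 h2, hGE _ (by rw [add_re, per_re, add_zero]; exact h1)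
    (by rw [add_re, per_re, add_zero]; exact h2), exp_add_per] at h3
  exact hΔ0 (by linear_combination -h3)

/-- **The local theorem.** -/
theorem loc_main (hG : P0 φ r w1 L G) {lam : ℝ} (hlam : 0 < lam) (hBU : BranchesBlowUp φ r lam)
    (hNF : NoFiniteIsolatedSingularity φ r)
    (hVG : ∀ (z : ℂ) (f : ℂ → ℂ), Branch φ r z f → ∀ b,
      VG (lam / 4) φ b (1 / conj z) (Rf f))
    (hB : ∀ w ∈ ball w1 (Real.exp L), 1 < ‖w‖)
    (hΔ : ∀ τ : ℂ, τ.re < L → G (τ + per 1) = G τ + Δ) :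
    ∃ E : ℂ → ℂ, DifferentiableOn ℂ E (ball w1 (Real.exp L)) ∧
      ∀ τ : ℂ, τ.re < L → G τ = E (w1 + exp τ) := by
  have h0 := per_zero hG hlam hBU hVG hΔ
  obtain ⟨X, hX, hGX⟩ := rep1 hG.hG hΔ
  have hGX' : ∀ τ : ℂ, τ.re < L → G τ = X (exp τ) := by
    intro τ hτ
    rw [hGX τ hτ, h0]
    ring
  have hψd : DifferentiableOn ℂ (fun w => X (w - w1)) (ball w1 (Real.exp L) \ {w1}) := by
    refine hX.comp (differentiableOn_id.sub_const w1) ?_
    rintro w ⟨hw, hw'⟩
    rw [mem_ball, dist_eq_norm] at hw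
    exact ⟨by simpa using hw, by
      rw [mem_singleton_iff]
      exact sub_ne_zero.2 hw'⟩
  set x : ℝ := L - 1 with hx
  have hxL : ((x : ℝ) : ℂ).re < L := by rw [ofReal_re, hx]; linarith
  obtain ⟨g', hg', hGg'⟩ := hG.hbr _ hxL
  have hwm : w1 + exp ((x : ℝ) : ℂ) ∈ ball w1 (Real.exp L) \ {w1} := by
    constructor
    · rw [mem_ball, dist_eq_norm, add_sub_cancel_left, norm_exp]
      exact Real.exp_lt_exp.2 hxL
    · intro h
      exact exp_ne_zero ((x : ℝ) : ℂ) (by simp at h)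
  have hlogx : log (w1 + exp ((x : ℝ) : ℂ) - w1) = ((x : ℝ) : ℂ) := by
    rw [add_sub_cancel_left, log_exp]
    · rw [ofReal_im]; linarith [Real.pi_pos]
    · rw [ofReal_im]; exact Real.pi_pos.le
  have hsl : w1 + exp ((x : ℝ) : ℂ) - w1 ∈ slitPlane := by
    rw [add_sub_cancel_left, ← ofReal_exp]
    exact ofReal_mem_slitPlane.2 (Real.exp_pos _)
  have hlc : ContinuousAt (fun w => log (w - w1)) (w1 + exp ((x : ℝ) : ℂ)) :=
    (continuousAt_id.sub_const w1).clog hsl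
  have hlt : Tendsto (fun w => log (w - w1)) (𝓝 (w1 + exp ((x : ℝ) : ℂ))) (𝓝 ((x : ℝ) : ℂ)) := by
    have := hlc.tendsto
    rwa [hlogx] at this
  have hev : g' =ᶠ[𝓝 (w1 + exp ((x : ℝ) : ℂ))] fun w => X (w - w1) := by
    have h1 := hlt.eventually hGg'
    have hUo : IsOpen (re ⁻¹' Iio L : Set ℂ) := isOpen_Iio.preimage continuous_re
    have h2 := hlt.eventually (hUo.mem_nhds hxL)
    have h3 : ∀ᶠ w in 𝓝 (w1 + exp ((x : ℝ) : ℂ)), w - w1 ≠ 0 := by
      have h4 : ContinuousAt (fun w => w - w1) (w1 + exp ((x : ℝ) : ℂ)) :=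
        continuousAt_id.sub_const w1
      refine h4.eventually_ne ?_
      rw [add_sub_cancel_left]
      exact exp_ne_zero _
    filter_upwards [h1, h2, h3] with w h4 h5 h6
    rw [hGX' _ h5, exp_log h6, add_sub_cancel] at h4
    exact h4.symm
  obtain ⟨E, hE1, hE2⟩ := hNF w1 (Real.exp L) (fun w => X (w - w1)) (Real.exp_pos _) hB hψd
    ⟨_, hwm, branch_congr hG.hD.hφ hg' hev⟩
  refine ⟨E, hE1, fun τ hτ => ?_⟩
  have hm : w1 + exp τ ∈ ball w1 (Real.exp L) := by
    rw [mem_ball, dist_eq_norm, add_sub_cancel_left, norm_exp]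
    exact Real.exp_lt_exp.2 hτ
  rw [hE2 _ hm (by
    intro h
    exact exp_ne_zero τ (by simp at h)), add_sub_cancel_left]
  exact hGX' τ hτ

end Pool.Agent.E8helper32.SL
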