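import Pool.Agent.E8helper32.SA.Fin

/-!
# The setting for general branches
-/

set_option autoImplicit false

open Complex Metric Set Filter Topology ComplexConjugate

namespace Pool.Agent.E8helper32.SL

open Pool.Agent.Results.MP_83fd13_an.BranchSingularities

/-- the conformal map -/
structure D0 (φ : ℂ → ℂ) (r : ℝ) : Prop where
  hr : 1 < r
  hφ : DifferentiableOn ℂ φ (ball 0 r)
  hinj : InjOn φ (ball 0 r)

/-- a branch in the coordinate `τ`, `w = w1 + exp τ` -/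
structure P0 (φ : ℂ → ℂ) (r : ℝ) (w1 : ℂ) (L : ℝ) (G : ℂ → ℂ) : Prop where
  hD : D0 φ r
  hw1 : 1 < ‖w1‖
  hG : DifferentiableOn ℂ G (re ⁻¹' Iio L)
  hbr : ∀ τ : ℂ, τ.re < L →
    ∃ g : ℂ → ℂ, Branch φ r (w1 + exp τ) g ∧ G =ᶠ[𝓝 τ] fun t => g (w1 + exp t)

end Pool.Agent.E8helper32.SL
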