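import Pool.Agent.E8helper32.SL.HkD

/-!
# The derivative in the order at a zero
-/

set_option autoImplicit false

open Complex MeasureTheory Metric Set Filter Topology ComplexConjugate

namespace Pool.Agent.E8helper32.SL

open Pool.Agent.Y245.SG (Bn)
open Pool.Agent.Y971.SG (hasDerivAt_Bn rec_Bn)
open Pool.Agent.E8helper32.SA (hF hF_cont gs gs_pos gs_cont gs_int gs_le hF_ray exp_pi exp_pi'
  pi_re pi_re' Hk)

/-- the Hankel integral for `s = 1` -/
theorem Hk_one (κ : ℂ) : Hk 1 κ = -(2 * Real.pi * I * κ) * Bn 1 κ := by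
  have hexp : ∀ ρ : ℝ, hF 1 κ (ρ + Real.pi * I) = hF 1 κ (ρ + -(Real.pi * I)) := by
    intro ρ
    unfold hF
    have h1 : ∀ c : ℂ, exp (exp (ρ + c) - κ * exp (-(ρ + c)) + ((1 : ℝ) : ℂ) * (ρ + c)) =
        exp (exp (ρ + c) - κ * (exp (ρ + c))⁻¹) * exp (ρ + c) := by
      intro c
      rw [← exp_neg, ← exp_add]
      congr 1
      push_cast
      ring
    rw [h1, h1, exp_pi, exp_pi']
  unfold Hk
  simp only [hexp]
  rw [add_sub_cancel_right]
  have hper : Function.Periodic (fun θ : ℝ => hF 1 κ (θ * I) * I) (2 * Real.pi) := by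
    intro θ
    have h3 : hF 1 κ (((θ + 2 * Real.pi : ℝ) : ℂ) * I) = hF 1 κ (θ * I) := by
      unfold hF
      have h4 : ∀ y : ℂ, exp (exp y - κ * exp (-y) + ((1 : ℝ) : ℂ) * y) =
          exp (exp y - κ * (exp y)⁻¹) * exp y := by
        intro y
        rw [← exp_neg, ← exp_add]
        congr 1
        push_cast
        ring
      rw [h4, h4]
      have h5 : exp (((θ + 2 * Real.pi : ℝ) : ℂ) * I) = exp (θ * I) := by
        push_cast
        rw [add_mul]
        exact exp_periodic _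
      rw [h5]
    simp only [h3]
  have h4 := hper.intervalIntegral_add_eq (-Real.pi) 0
  rw [zero_add, show -Real.pi + 2 * Real.pi = Real.pi by ring] at h4
  rw [h4]
  have h2 : (∫ θ in (0 : ℝ)..2 * Real.pi, hF 1 κ (θ * I) * I) =
      ∮ ω in C(0, 1), exp (1 * ω + (-κ) / ω) * ω ^ 0 * deriv (fun ω => ω) ω := by
    unfold circleIntegral
    refine intervalIntegral.integral_congr fun θ _ => ?_
    have h6 : ∀ y : ℂ, exp (exp y - κ * exp (-y) + ((1 : ℝ) : ℂ) * y) =
        exp (exp y + -κ / exp y) * exp y := by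
      intro y
      rw [← exp_add]
      congr 1
      rw [neg_div, div_eq_mul_inv, ← exp_neg]
      push_cast
      ring
    have h7 : circleMap 0 1 θ = exp (θ * I) := by
      unfold circleMap
      simp
    have h8 : deriv (circleMap 0 1) θ = exp (θ * I) * I := by
      rw [deriv_circleMap, h7]
    have h9 : deriv (fun ω : ℂ => ω) (circleMap 0 1 θ) = 1 := by simp
    show hF 1 κ (θ * I) * I =
      deriv (circleMap 0 1) θ • (exp (1 * circleMap 0 1 θ + (-κ) / circleMap 0 1 θ) *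
      circleMap 0 1 θ ^ 0 * deriv (fun ω : ℂ => ω) (circleMap 0 1 θ))
    rw [h9, h8, h7, smul_eq_mul, pow_zero, one_mul, mul_one, mul_one]
    unfold hF
    rw [h6]
    ring
  have h3 := Pool.Agent.Y427.SC.sima 1 2 0 (fun ω => ω) 1 (-κ) 0 one_pos one_lt_two
    differentiableOn_id rfl (by simp) (fun ω _ h => h)
  rw [h2, h3, one_mul, neg_neg]
  ring_nf

theorem Hk_dk (s : ℝ) (κ : ℂ) : HasDerivAt (fun κ => Hk s κ) (-Hk (s - 1) κ) κ := by
  have h := HW_dk wt_one s κ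
  simp only [HW_one] at h
  exact h

theorem Hk_rec' (s : ℝ) (κ : ℂ) : Hk (s + 1) κ + κ * Hk (s - 1) κ + s * Hk s κ = 0 := by
  have h := HW_rec wt_one s κ
  simp only [HW_one] at h
  have h0 : HW (fun _ => 0) s κ = 0 := by
    unfold HW
    simp
  rw [h0, zero_add] at h
  exact h

/-- the derivative in the order -/
noncomputable def HD (s : ℝ) (κ : ℂ) : ℂ := HW (fun y => y) s κ

theorem HD_dk (s : ℝ) (κ : ℂ) : HasDerivAt (fun κ => HD s κ) (-HD (s - 1) κ) κ :=
  HW_dk wt_id s κ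

theorem HD_rec (s : ℝ) (κ : ℂ) :
    Hk s κ + (HD (s + 1) κ + κ * HD (s - 1) κ + s * HD s κ) = 0 := by
  have h := HW_rec wt_id s κ
  rw [HW_one] at h
  exact h

/-- the Hankel integral for `s = 0` -/
theorem Hk_zero (κ : ℂ) : Hk 0 κ = 2 * Real.pi * I * Bn 0 κ := by
  have h1 := Hk_dk 1 κ
  have h2 : HasDerivAt (fun κ => Hk 1 κ) (-(2 * Real.pi * I * 1) * Bn 1 κ +
      -(2 * Real.pi * I * κ) * -Bn 2 κ) κ := by
    have h3 : HasDerivAt (fun κ : ℂ => -(2 * Real.pi * I * κ) * Bn 1 κ)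
        (-(2 * Real.pi * I * 1) * Bn 1 κ + -(2 * Real.pi * I * κ) * -Bn 2 κ) κ :=
      (((hasDerivAt_id κ).const_mul _).neg).mul (hasDerivAt_Bn 1 κ)
    refine h3.congr_of_eventuallyEq (Eventually.of_forall fun z => ?_)
    exact Hk_one z
  have h3 := h1.unique h2
  have h4 := rec_Bn 0 κ
  norm_num at h3 h4
  linear_combination -h3 - 2 * Real.pi * I * h4

/-- **The Wronskian.** -/
theorem wronsk (κ : ℂ) : Hk 1 κ * HD 0 κ - Hk 0 κ * HD 1 κ =
    (Hk 0 κ ^ 2 + Hk 0 0 ^ 2) / 2 := by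
  have hder : ∀ z : ℂ, HasDerivAt (fun κ => Hk 1 κ * HD 0 κ - Hk 0 κ * HD 1 κ - Hk 0 κ ^ 2 / 2)
      0 z := by
    intro z
    have h1 := Hk_dk 1 z
    have h0 := Hk_dk 0 z
    have d1 := HD_dk 1 z
    have d0 := HD_dk 0 z
    have h2 := ((h1.mul d0).sub (h0.mul d1)).sub ((h0.pow 2).div_const 2)
    have r1 := Hk_rec' 0 z
    have r2 := HD_rec 0 z
    norm_num at r1 r2 h2
    refine h2.congr_deriv ?_
    linear_combination (-HD (-1) z) * r1 + Hk (-1) z * r2
  have hdiff : Differentiable ℂ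
      (fun κ => Hk 1 κ * HD 0 κ - Hk 0 κ * HD 1 κ - Hk 0 κ ^ 2 / 2) := fun z =>
    (hder z).differentiableAt
  have h := is_const_of_deriv_eq_zero hdiff (fun z => (hder z).deriv) κ 0
  have r1 := Hk_rec' 0 0
  have r2 := HD_rec 0 0
  norm_num at r1 r2
  rw [r1] at h
  linear_combination h - Hk 0 0 * r2

/-! ### the zeros of `J_1` are real -/

theorem conj_Bn (ν : ℕ) (z : ℂ) : conj (Bn ν z) = Bn ν (conj z) := by
  unfold Bn
  rw [conj_tsum]
  refine tsum_congr fun k => ?_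
  simp

theorem zero_real {κ : ℂ} (h : Bn 1 κ = 0) : conj κ = κ := by
  by_contra hne
  -- the functions on the segment
  have hB : ∀ (ν : ℕ) (x : ℝ), HasDerivAt (fun x : ℝ => Bn ν (κ * x)) (-(κ * Bn (ν + 1) (κ * x))) x := by
    intro ν x
    have h1 : HasDerivAt (fun x : ℝ => κ * (x : ℂ)) (κ * 1) x :=
      (hasDerivAt_id (x : ℂ)).comp_ofReal.const_mul κ
    have h2 := (hasDerivAt_Bn ν (κ * x)).comp_of_eq x h1 rfl
    refine h2.congr_deriv ?_
    ring
  have hB' : ∀ (ν : ℕ) (x : ℝ), HasDerivAt (fun x : ℝ => Bn ν (conj κ * x))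
      (-(conj κ * Bn (ν + 1) (conj κ * x))) x := by
    intro ν x
    have h1 : HasDerivAt (fun x : ℝ => conj κ * (x : ℂ)) (conj κ * 1) x :=
      (hasDerivAt_id (x : ℂ)).comp_ofReal.const_mul (conj κ)
    have h2 := (hasDerivAt_Bn ν (conj κ * x)).comp_of_eq x h1 rfl
    refine h2.congr_deriv ?_
    ring
  have hx2 : ∀ x : ℝ, HasDerivAt (fun x : ℝ => (x : ℂ) ^ 2) (2 * (x : ℂ)) x := by
    intro x
    have := (hasDerivAt_id (x : ℂ)).comp_ofReal.pow 2
    refine this.congr_deriv ?_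
    simp
  have hder : ∀ x ∈ uIcc (0 : ℝ) 1, HasDerivAt (fun x : ℝ => (x : ℂ) ^ 2 *
      (-(κ * Bn 2 (κ * x)) * Bn 1 (conj κ * x) + Bn 1 (κ * x) * (conj κ * Bn 2 (conj κ * x))))
      ((conj κ - κ) * (x * (Bn 1 (κ * x) * Bn 1 (conj κ * x)))) x := by
    intro x _
    have h1 := (hx2 x).mul (((((hB 2 x).const_mul κ).neg).mul (hB' 1 x)).add
      ((hB 1 x).mul ((hB' 2 x).const_mul (conj κ))))
    refine h1.congr_deriv ?_
    have r1 := rec_Bn 1 (κ * x)
    have r2 := rec_Bn 1 (conj κ * x)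
    norm_num at r1 r2 ⊢
    linear_combination (κ * x * Bn 1 (conj κ * x)) * r1 - (conj κ * x * Bn 1 (κ * x)) * r2
  have hcB : ∀ ν : ℕ, Continuous (Bn ν) := fun ν =>
    continuous_iff_continuousAt.2 fun z => (hasDerivAt_Bn ν z).continuousAt
  have hcont : Continuous fun x : ℝ => (conj κ - κ) * (x * (Bn 1 (κ * x) * Bn 1 (conj κ * x))) :=
    continuous_const.mul (continuous_ofReal.mul
      (((hcB 1).comp (continuous_const.mul continuous_ofReal)).mul
        ((hcB 1).comp (continuous_const.mul continuous_ofReal))))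
  have h1 := intervalIntegral.integral_eq_sub_of_hasDerivAt hder (hcont.intervalIntegrable _ _)
  have h0 : Bn 1 (conj κ) = 0 := by rw [← conj_Bn, h, map_zero]
  rw [intervalIntegral.integral_const_mul] at h1
  simp only [ofReal_one, ofReal_zero, mul_one, h, h0, mul_zero, zero_mul, add_zero, sub_self, ne_eq,
    OfNat.ofNat_ne_zero, not_false_eq_true, zero_pow] at h1
  have h2 := (mul_eq_zero.1 h1).resolve_left (sub_ne_zero.2 hne)
  have h3 : (∫ x in (0 : ℝ)..1, (x : ℂ) * (Bn 1 (κ * x) * Bn 1 (conj κ * x))) =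
      ((∫ x in (0 : ℝ)..1, x * ‖Bn 1 (κ * x)‖ ^ 2 : ℝ) : ℂ) := by
    rw [← intervalIntegral.integral_ofReal]
    refine intervalIntegral.integral_congr fun x _ => ?_
    have : Bn 1 (conj κ * x) = conj (Bn 1 (κ * x)) := by
      rw [conj_Bn, map_mul, conj_ofReal]
    rw [this, mul_conj, normSq_eq_norm_sq]
    push_cast
    ring
  rw [h3] at h2
  have h4 : 0 < ∫ x in (0 : ℝ)..1, x * ‖Bn 1 (κ * x)‖ ^ 2 := by
    refine intervalIntegral.integral_pos one_pos ?_ ?_ ?_
    · exact (continuous_id.mul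
        (((hcB 1).comp (continuous_const.mul continuous_ofReal)).norm.pow 2)).continuousOn
    · intro x hx
      exact mul_nonneg hx.1.le (by positivity)
    · have h5 : ContinuousAt (fun x : ℝ => Bn 1 (κ * x)) 0 :=
        ((hcB 1).comp (continuous_const.mul continuous_ofReal)).continuousAt
      have h6 : ∀ᶠ x : ℝ in 𝓝 0, Bn 1 (κ * x) ≠ 0 := by
        refine h5.eventually_ne ?_
        simp only [ofReal_zero, mul_zero]
        rw [Pool.Agent.Y987.SG.Bn_zero]
        simp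
      obtain ⟨ε, hε, hb⟩ := Metric.eventually_nhds_iff_ball.1 h6
      refine ⟨min (ε / 2) 1, ⟨by positivity, min_le_right _ _⟩, ?_⟩
      have h7 : 0 < min (ε / 2) 1 := by positivity
      have h8 : Bn 1 (κ * ((min (ε / 2) 1 : ℝ) : ℂ)) ≠ 0 := by
        refine hb _ ?_
        rw [mem_ball_zero_iff, Real.norm_of_nonneg h7.le]
        exact lt_of_le_of_lt (min_le_left _ _) (by linarith)
      exact mul_pos h7 (by positivity)
  have h5 : (∫ x in (0 : ℝ)..1, x * ‖Bn 1 (κ * x)‖ ^ 2) = 0 := by exact_mod_cast h2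
  rw [h5] at h4
  exact lt_irrefl _ h4

/-- **The derivative in the order does not vanish.** -/
theorem HD_ne {κ : ℂ} (hκ : κ ≠ 0) (h : Hk 1 κ = 0) : HD 1 κ ≠ 0 := by
  intro hD
  have h1 : Bn 1 κ = 0 := by
    rw [Hk_one] at h
    refine (mul_eq_zero.1 h).resolve_left ?_
    exact neg_ne_zero.2 (mul_ne_zero two_pi_I_ne_zero hκ)
  have h2 := wronsk κ
  rw [h, hD, zero_mul, mul_zero, sub_self, Hk_zero, Hk_zero, Pool.Agent.Y987.SG.Bn_zero] at h2
  have h3 : (2 * Real.pi * I : ℂ) ≠ 0 := two_pi_I_ne_zero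
  have h4 : Bn 0 κ ^ 2 + 1 = 0 := by
    have h5 : (2 * Real.pi * I : ℂ) ^ 2 * (Bn 0 κ ^ 2 + 1) = 0 := by
      norm_num at h2
      linear_combination (-2 : ℂ) * h2
    exact (mul_eq_zero.1 h5).resolve_left (pow_ne_zero _ h3)
  have h5 : conj (Bn 0 κ) = Bn 0 κ := by rw [conj_Bn, zero_real h1]
  obtain ⟨x, hx⟩ := conj_eq_iff_real.1 h5
  rw [hx] at h4
  have h6 : x ^ 2 + 1 = 0 := by exact_mod_cast h4
  nlinarith [sq_nonneg x]

end Pool.Agent.E8helper32.SL
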