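import Pool.Agent.E8helper32.SL.Lg

/-!
# Larger pole orders with a logarithm: the arc
-/

set_option autoImplicit false

open Complex MeasureTheory Metric Set Filter Topology ComplexConjugate

namespace Pool.Agent.E8helper32.SL

open Pool.Agent.Y245.SC (seg t_SEG)
open Pool.Agent.E8helper32.SA (Ji JB Ji_diff Nf Nf_diff Nf_zero hp hp_eq qp gm gm_re gm_norm gm_lim Sm exists_sm
  arg_bd t_mem bet chi s0 t0 omg nu nu0 alf bet_pos s0_re t0_norm t0_lim nu0_pos nu_lim nu_sq Ji_eq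
  Hr t0_small theta_ball Kr Wr s0y_re Ev ev_all t_ball_of Wr_norm Kr_eq Wr_far gauss_ne
  ray_re theta_re pi_re pi_re' exp_pi exp_pi' seg_arc seg_ray seg_symm)

variable {a Λ μ K : ℝ} {q : ℕ} {T E : ℂ → ℂ} {δ : ℝ} {cc : ℂ}

/-- the facts on the arc -/
theorem arc_facts (ha : 0 < a) (hq : 0 < q) (hμ : 1 < μ) (S : Sm E q μ δ K) :
    (∀ᶠ r in atTop, ContinuousOn (Hr a E q μ r) (Icc (-Real.pi) Real.pi)) ∧
    (∀ᶠ r in atTop, ∀ θ ∈ Icc (-Real.pi) Real.pi,
      (Hr a E q μ r θ).re ≤ -(nu0 a E μ / Real.pi ^ 2 * r * θ ^ 2)) ∧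
    ∀ u : ℝ, Tendsto (fun r => Hr a E q μ r (u / √r)) atTop
      (𝓝 ((-(nu0 a E μ * ((1 + μ) / 2) * u ^ 2) : ℝ) : ℂ)) := by
  have hμ0 : 0 < μ := by linarith
  have hn0 : 0 < nu0 a E μ := nu0_pos ha hμ S.hE0
  have hnl := nu_lim (q := q) ha hq hμ S
  have htl := t0_lim (E := E) hq hμ
  have hts := t0_small (E := E) hq hμ S.hδ
  obtain ⟨C1, hC1⟩ := gm_norm hμ0
  obtain ⟨C2, hC2⟩ := S.qp_quad hq
  have hc : 0 < nu0 a E μ / Real.pi ^ 2 := by positivity
  refine ⟨?_, ?_, ?_⟩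
  · -- continuity
    filter_upwards [hts] with r ht
    unfold Hr
    have h1 : ContinuousOn (fun θ : ℝ => gm μ θ + (qp E q μ (t0 E q μ r) (θ * I) -
        qp E q μ (t0 E q μ r) 0)) (Icc (-Real.pi) Real.pi) := by
      refine ContinuousOn.add ?_ (ContinuousOn.sub ?_ continuousOn_const)
      · unfold gm
        fun_prop
      · intro θ hθ
        have h2 := (S.qp_diffAt (arg_bd hq ht (theta_ball hθ)).2).continuousAt
        have h3 : ContinuousAt (fun θ : ℝ => (θ * I : ℂ)) θ := by fun_prop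
        exact (ContinuousAt.comp (g := qp E q μ (t0 E q μ r)) (f := fun θ : ℝ => (θ * I : ℂ)) h2
          h3).continuousWithinAt
    have h4 : ContinuousOn (fun θ : ℝ => r * nu a E q μ r * (gm μ θ +
        (qp E q μ (t0 E q μ r) (θ * I) - qp E q μ (t0 E q μ r) 0))) (Icc (-Real.pi) Real.pi) :=
      continuousOn_const.mul h1
    refine h4.congr fun θ _ => ?_
    simp only
    rw [hp_eq]
  · -- domination
    have h1 : Tendsto (fun r => ‖nu a E q μ r - nu0 a E μ‖ * C1 +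
        ‖nu a E q μ r‖ * (C2 * ‖t0 E q μ r‖)) atTop (𝓝 0) := by
      have h2 : Tendsto (fun r => ‖nu a E q μ r - nu0 a E μ‖ * C1 +
          ‖nu a E q μ r‖ * (C2 * ‖t0 E q μ r‖)) atTop
          (𝓝 (‖(nu0 a E μ - nu0 a E μ : ℂ)‖ * C1 + ‖(nu0 a E μ : ℂ)‖ * (C2 * ‖(0 : ℂ)‖))) :=
        ((hnl.sub_const _).norm.mul_const _).add (hnl.norm.mul (htl.norm.const_mul _))
      rw [sub_self, norm_zero, zero_mul, mul_zero, mul_zero, add_zero] at h2
      exact h2
    filter_upwards [h1.eventually (gt_mem_nhds hc), hts, eventually_gt_atTop 0] with r h2 ht hr θ hθ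
    unfold Hr
    rw [hp_eq, mul_assoc, re_ofReal_mul]
    have e1 : nu a E q μ r * (gm μ θ + (qp E q μ (t0 E q μ r) (θ * I) -
        qp E q μ (t0 E q μ r) 0)) = (nu0 a E μ : ℂ) * gm μ θ +
        ((nu a E q μ r - nu0 a E μ) * gm μ θ + nu a E q μ r *
          (qp E q μ (t0 E q μ r) (θ * I) - qp E q μ (t0 E q μ r) 0)) := by ring
    rw [e1, add_re, re_ofReal_mul]
    have h3 := gm_re hμ0 hθ
    have h4 := hC1 θ hθ
    have h5 := hC2 _ ht θ hθ
    have h6 : ((nu a E q μ r - nu0 a E μ) * gm μ θ + nu a E q μ r *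
          (qp E q μ (t0 E q μ r) (θ * I) - qp E q μ (t0 E q μ r) 0)).re ≤
        nu0 a E μ / Real.pi ^ 2 * θ ^ 2 := by
      refine (re_le_norm _).trans ((norm_add_le _ _).trans ?_)
      rw [norm_mul, norm_mul]
      calc ‖nu a E q μ r - nu0 a E μ‖ * ‖gm μ θ‖ + ‖nu a E q μ r‖ *
            ‖qp E q μ (t0 E q μ r) (θ * I) - qp E q μ (t0 E q μ r) 0‖
          ≤ ‖nu a E q μ r - nu0 a E μ‖ * (C1 * θ ^ 2) + ‖nu a E q μ r‖ *
            (C2 * ‖t0 E q μ r‖ * θ ^ 2) := by gcongr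
        _ = (‖nu a E q μ r - nu0 a E μ‖ * C1 +
            ‖nu a E q μ r‖ * (C2 * ‖t0 E q μ r‖)) * θ ^ 2 := by ring
        _ ≤ _ := by gcongr
    have h7 : nu0 a E μ * (gm μ θ).re ≤ -(2 * (nu0 a E μ / Real.pi ^ 2 * θ ^ 2)) := by
      calc nu0 a E μ * (gm μ θ).re ≤ nu0 a E μ * -(2 / Real.pi ^ 2 * θ ^ 2) := by gcongr
        _ = _ := by ring
    calc r * (nu0 a E μ * (gm μ θ).re + ((nu a E q μ r - nu0 a E μ) * gm μ θ + nu a E q μ r *
          (qp E q μ (t0 E q μ r) (θ * I) - qp E q μ (t0 E q μ r) 0)).re)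
        ≤ r * (-(2 * (nu0 a E μ / Real.pi ^ 2 * θ ^ 2)) + nu0 a E μ / Real.pi ^ 2 * θ ^ 2) := by
          gcongr
      _ = _ := by ring
  · -- the limit
    intro u
    have h1 : Tendsto (fun r : ℝ => nu a E q μ r * ((r : ℂ) * gm μ (u / √r))) atTop
        (𝓝 ((nu0 a E μ : ℂ) * ((-((1 + μ) / 2 * u ^ 2) : ℝ) : ℂ))) := hnl.mul (gm_lim hμ0 u)
    have e : (nu0 a E μ : ℂ) * ((-((1 + μ) / 2 * u ^ 2) : ℝ) : ℂ) =
        ((-(nu0 a E μ * ((1 + μ) / 2) * u ^ 2) : ℝ) : ℂ) := by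
      push_cast; ring
    rw [e] at h1
    have hinv : Tendsto (fun r : ℝ => |u / √r|) atTop (𝓝 0) := by
      have := ((tendsto_inv_atTop_zero.comp Real.tendsto_sqrt_atTop).const_mul u).abs
      rw [mul_zero, abs_zero] at this
      exact this
    have h2 : Tendsto (fun r : ℝ => nu a E q μ r * ((r : ℂ) *
        (qp E q μ (t0 E q μ r) ((u / √r : ℝ) * I) - qp E q μ (t0 E q μ r) 0))) atTop (𝓝 0) := by
      have h3 : Tendsto (fun r => ‖nu a E q μ r‖ * (C2 * ‖t0 E q μ r‖ * u ^ 2)) atTop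
          (𝓝 (‖(nu0 a E μ : ℂ)‖ * (C2 * ‖(0 : ℂ)‖ * u ^ 2))) :=
        hnl.norm.mul ((htl.norm.const_mul _).mul_const _)
      rw [norm_zero, mul_zero, zero_mul, mul_zero] at h3
      refine squeeze_zero_norm' ?_ h3
      filter_upwards [hts, eventually_gt_atTop 0, hinv.eventually (gt_mem_nhds Real.pi_pos)]
        with r ht hr hu
      have h4 := hC2 _ ht (u / √r) (abs_le.1 hu.le)
      rw [norm_mul, norm_mul, norm_real, Real.norm_of_nonneg hr.le]
      have h5 : r * (u / √r) ^ 2 = u ^ 2 := by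
        rw [div_pow, Real.sq_sqrt hr.le]; field_simp
      calc ‖nu a E q μ r‖ * (r * ‖qp E q μ (t0 E q μ r) ((u / √r : ℝ) * I) -
            qp E q μ (t0 E q μ r) 0‖)
          ≤ ‖nu a E q μ r‖ * (r * (C2 * ‖t0 E q μ r‖ * (u / √r) ^ 2)) := by gcongr
        _ = ‖nu a E q μ r‖ * (C2 * ‖t0 E q μ r‖ * (r * (u / √r) ^ 2)) := by ring
        _ = _ := by rw [h5]
    have h3 := h1.add h2
    rw [add_zero] at h3
    refine h3.congr fun r => ?_
    unfold Hr
    rw [hp_eq]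
    ring


/-- the factor of the logarithm -/
noncomputable def er (a : ℝ) (cc : ℂ) (E : ℂ → ℂ) (q : ℕ) (μ r : ℝ) (y : ℂ) : ℂ :=
  exp (-(a / alf a E q μ r * (cc * (s0 E μ r + y))))

/-- the size of its exponent -/
noncomputable def ee (a : ℝ) (cc : ℂ) (Λ : ℝ) (E : ℂ → ℂ) (q : ℕ) (μ r : ℝ) : ℝ :=
  a * ‖cc‖ * (2 * (bet μ * Real.log r) + (|chi E μ| + |Λ| + 4)) / ‖alf a E q μ r‖

theorem s0_norm (hμ : 1 < μ) {r : ℝ} (hr : 1 ≤ r) :
    ‖s0 E μ r‖ ≤ bet μ * Real.log r + |chi E μ| := by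
  unfold s0
  refine (norm_add_le _ _).trans ?_
  rw [norm_neg, norm_real, norm_mul (chi E μ : ℂ) I, norm_I, mul_one, norm_real,
    Real.norm_eq_abs, Real.norm_eq_abs,
    abs_of_nonneg (mul_nonneg (bet_pos hμ).le (Real.log_nonneg hr))]

theorem er_bd (ha : 0 < a) (hμ : 1 < μ) {r : ℝ} (hr : 1 ≤ r) {y : ℂ}
    (hy : ‖y‖ ≤ |Λ| + bet μ * Real.log r + 4) :
    ‖a / alf a E q μ r * (cc * (s0 E μ r + y))‖ ≤ ee a cc Λ E q μ r := by
  unfold ee
  rw [norm_mul, norm_mul, norm_div, norm_real, Real.norm_of_nonneg ha.le]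
  have h1 : ‖s0 E μ r + y‖ ≤ 2 * (bet μ * Real.log r) + (|chi E μ| + |Λ| + 4) := by
    refine (norm_add_le _ _).trans ?_
    have := s0_norm (E := E) hμ hr
    linarith
  calc a / ‖alf a E q μ r‖ * (‖cc‖ * ‖s0 E μ r + y‖)
      ≤ a / ‖alf a E q μ r‖ * (‖cc‖ * (2 * (bet μ * Real.log r) + (|chi E μ| + |Λ| + 4))) := by
        gcongr
    _ = _ := by ring

theorem ee_lim (ha : 0 < a) (hq : 0 < q) (hμ : 1 < μ) (S : Sm E q μ δ K) :
    Tendsto (ee a cc Λ E q μ) atTop (𝓝 0) := by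
  have hn0 : 0 < nu0 a E μ := nu0_pos ha hμ S.hE0
  have hnl := nu_lim (q := q) ha hq hμ S
  have hno : Tendsto (fun r => ‖nu a E q μ r‖) atTop (𝓝 (nu0 a E μ)) := by
    have := hnl.norm
    rwa [norm_real, Real.norm_of_nonneg hn0.le] at this
  have h1 : Tendsto (fun r : ℝ => a * ‖cc‖ * (2 / nu0 a E μ) * (2 * bet μ * (Real.log r / r) +
      (|chi E μ| + |Λ| + 4) * r⁻¹)) atTop (𝓝 0) := by
    have h2 := ((log_div_lim.const_mul (2 * bet μ)).add
      (tendsto_inv_atTop_zero.const_mul (|chi E μ| + |Λ| + 4))).const_mul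
        (a * ‖cc‖ * (2 / nu0 a E μ))
    rwa [mul_zero, mul_zero, add_zero, mul_zero] at h2
  refine squeeze_zero' ?_ ?_ h1
  · filter_upwards [eventually_ge_atTop 1] with r hr
    unfold ee
    have h3 := mul_nonneg (bet_pos hμ).le (Real.log_nonneg hr)
    positivity
  · filter_upwards [eventually_ge_atTop 1, hno.eventually (lt_mem_nhds (half_lt_self hn0))]
      with r hr h2
    have hr0 : 0 < r := by linarith
    have h3 := mul_nonneg (bet_pos hμ).le (Real.log_nonneg hr)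
    have h4 : r * (nu0 a E μ / 2) ≤ ‖alf a E q μ r‖ := by
      unfold alf
      rw [norm_mul, norm_mul, norm_real, Real.norm_of_nonneg hr0.le, norm_exp, neg_re, s0_re,
        neg_neg]
      have h5 : 1 ≤ Real.exp (bet μ * Real.log r) := Real.one_le_exp h3
      calc r * (nu0 a E μ / 2) = r * (nu0 a E μ / 2) * 1 := (mul_one _).symm
        _ ≤ r * ‖nu a E q μ r‖ * Real.exp (bet μ * Real.log r) := by gcongr
    unfold ee
    calc a * ‖cc‖ * (2 * (bet μ * Real.log r) + (|chi E μ| + |Λ| + 4)) / ‖alf a E q μ r‖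
        ≤ a * ‖cc‖ * (2 * (bet μ * Real.log r) + (|chi E μ| + |Λ| + 4)) /
          (r * (nu0 a E μ / 2)) := by gcongr
      _ = _ := by field_simp

theorem er_one {z : ℂ} (hz : ‖z‖ ≤ 1) : ‖exp (-z)‖ ≤ Real.exp 1 := by
  rw [norm_exp]
  refine Real.exp_le_exp.2 ((re_le_norm _).trans ?_)
  rwa [norm_neg]

theorem arcL (ha : 0 < a) (hq : 0 < q) (hμ : 1 < μ) (S : Sm E q μ δ K) :
    Tendsto (fun r => (√r : ℂ) * ∫ θ in (-Real.pi)..Real.pi, exp (Hr a E q μ r θ) *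
      (exp (θ * I) * er a cc E q μ r (θ * I)))
      atTop (𝓝 (∫ u : ℝ, exp ((-(nu0 a E μ * ((1 + μ) / 2) * u ^ 2) : ℝ) : ℂ) * 1)) := by
  have hn0 : 0 < nu0 a E μ := nu0_pos ha hμ S.hE0
  obtain ⟨h1, h2, h3⟩ := arc_facts ha hq hμ S
  have hel := ee_lim (Λ := 0) (cc := cc) ha hq hμ S
  have hc : 0 < nu0 a E μ / Real.pi ^ 2 := by positivity
  have hlog : ∀ r : ℝ, 1 ≤ r → 0 ≤ bet μ * Real.log r := fun r hr =>
    mul_nonneg (bet_pos hμ).le (Real.log_nonneg hr)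
  have hth : ∀ θ : ℝ, |θ| ≤ 4 → ∀ r : ℝ, 1 ≤ r →
      ‖(θ * I : ℂ)‖ ≤ |(0 : ℝ)| + bet μ * Real.log r + 4 := by
    intro θ hθ r hr
    rw [norm_mul, norm_I, mul_one, norm_real, Real.norm_eq_abs, abs_zero]
    linarith [hlog r hr]
  refine lapG (R := fun r : ℝ => r) (g := fun u => Real.exp (-(nu0 a E μ / Real.pi ^ 2) * u ^ 2))
    (C := Real.exp 1) tendsto_id (integrable_exp_neg_mul_sq hc) (fun u => (Real.exp_pos _).le)
    h1 ?_ ?_ ?_ h3 ?_
  · refine Eventually.of_forall fun r => ?_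
    unfold er
    exact Continuous.continuousOn (by fun_prop)
  · filter_upwards [h2, eventually_gt_atTop 0] with r h hr θ hθ
    refine Real.exp_le_exp.2 ((h θ hθ).trans (le_of_eq ?_))
    rw [mul_pow, Real.sq_sqrt hr.le]
    ring
  · filter_upwards [hel.eventually (ge_mem_nhds one_pos), eventually_ge_atTop 1] with r h hr θ hθ
    have h4 : |θ| ≤ 4 := (abs_le.2 ⟨hθ.1, hθ.2⟩).trans Real.pi_lt_four.le
    rw [norm_mul, norm_exp_ofReal_mul_I, one_mul]
    exact er_one ((er_bd ha hμ hr (hth θ h4 r hr)).trans h)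
  · intro u
    have hinv : Tendsto (fun r : ℝ => |u / √r|) atTop (𝓝 0) := by
      have := ((tendsto_inv_atTop_zero.comp Real.tendsto_sqrt_atTop).const_mul u).abs
      rw [mul_zero, abs_zero] at this
      exact this
    have hinv' : Tendsto (fun r : ℝ => u / √r) atTop (𝓝 0) := by
      have := (tendsto_inv_atTop_zero.comp Real.tendsto_sqrt_atTop).const_mul u
      rw [mul_zero] at this
      exact this
    have h4 : Tendsto (fun r : ℝ => exp ((u / √r : ℝ) * I)) atTop (𝓝 1) := by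
      have h5 : Tendsto (fun r : ℝ => exp ((u / √r : ℝ) * I)) atTop
          (𝓝 (exp (((0 : ℝ) : ℂ) * I))) :=
        (continuous_exp.tendsto _).comp
          (((continuous_ofReal.tendsto _).comp hinv').mul_const _)
      rwa [ofReal_zero, zero_mul, exp_zero] at h5
    have h5 : Tendsto (fun r : ℝ => er a cc E q μ r ((u / √r : ℝ) * I)) atTop (𝓝 1) := by
      have h6 : Tendsto (fun r : ℝ => -(a / alf a E q μ r *
          (cc * (s0 E μ r + (u / √r : ℝ) * I)))) atTop (𝓝 0) := by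
        refine squeeze_zero_norm' ?_ hel
        filter_upwards [hinv.eventually (ge_mem_nhds (show (0 : ℝ) < 4 by norm_num)),
          eventually_ge_atTop 1] with r h hr
        rw [norm_neg]
        exact er_bd ha hμ hr (hth _ h r hr)
      have h7 := (continuous_exp.tendsto _).comp h6
      rw [exp_zero] at h7
      exact h7
    have h6 := h4.mul h5
    rw [mul_one] at h6
    exact h6

end Pool.Agent.E8helper32.SL
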