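import Pool.Agent.E8helper32.SL.Ca

/-!
# Larger pole orders with a logarithm are impossible
-/

set_option autoImplicit false

open Complex MeasureTheory Metric Set Filter Topology ComplexConjugate

namespace Pool.Agent.E8helper32.SL

open Pool.Agent.Y245.SC (seg t_SEG)
open Pool.Agent.E8helper32.SA (Ji JB Ji_diff Nf Nf_diff Nf_zero hp hp_eq qp gm gm_re gm_norm gm_lim Sm exists_sm
  arg_bd t_mem bet chi s0 t0 omg nu nu0 alf bet_pos s0_re t0_norm t0_lim nu0_pos nu_lim nu_sq Ji_eq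
  Hr t0_small theta_ball Kr Wr s0y_re Ev ev_all t_ball_of Wr_norm Kr_eq Wr_far gauss_ne
  ray_re theta_re pi_re pi_re' exp_pi exp_pi' seg_arc seg_ray seg_symm)

variable {a Λ μ K : ℝ} {q : ℕ} {T E : ℂ → ℂ} {δ : ℝ} {cc : ℂ}

/-- the eventual facts -/
structure EvL (a Λ μ : ℝ) (cc : ℂ) (E : ℂ → ℂ) (q : ℕ) (r : ℝ) : Prop where
  ev : Ev a Λ μ E q r
  he : ee a cc Λ E q μ r ≤ 1

theorem evl_all (ha : 0 < a) (hq : 0 < q) (hμ : 1 < μ) (S : Sm E q μ (Real.exp (Λ / q)) K) :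
    ∀ᶠ r in atTop, EvL a Λ μ cc E q r := by
  filter_upwards [ev_all ha hq hμ S, (ee_lim (Λ := Λ) (cc := cc) ha hq hμ S).eventually
    (ge_mem_nhds one_pos)] with r h1 h2
  exact ⟨h1, h2⟩

theorem KrL_eq (hq : 0 < q) (hμ : 1 < μ) (S : Sm E q μ (Real.exp (Λ / q)) K)
    (hT : ∀ σ : ℂ, σ.re < Λ → T σ = E (exp (σ / q)) * exp (-(μ * σ)) + cc * σ) {r : ℝ}
    (h : Ev a Λ μ E q r) {y : ℂ} (hy : (s0 E μ r + y).re < Λ) :
    Kr a T E q μ r y = exp (r * nu a E q μ r * hp E q μ (t0 E q μ r) y) *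
      (exp (s0 E μ r) * exp y) * er a cc E q μ r y := by
  rw [← Kr_eq (T := fun σ => E (exp (σ / q)) * exp (-(μ * σ))) hq hμ S (fun _ _ => rfl) h hy]
  unfold Kr Ji er
  rw [hT _ hy]
  have e : exp (alf a E q μ r * exp (s0 E μ r + y) - a / alf a E q μ r *
      (E (exp ((s0 E μ r + y) / q)) * exp (-(μ * (s0 E μ r + y))) + cc * (s0 E μ r + y))) =
      exp (alf a E q μ r * exp (s0 E μ r + y) - a / alf a E q μ r *
        (E (exp ((s0 E μ r + y) / q)) * exp (-(μ * (s0 E μ r + y))))) *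
      exp (-(a / alf a E q μ r * (cc * (s0 E μ r + y)))) := by
    rw [← exp_add]
    congr 1
    ring
  rw [e]
  ring

theorem Wr_arcL (hq : 0 < q) (hμ : 1 < μ) (S : Sm E q μ (Real.exp (Λ / q)) K)
    (hT : ∀ σ : ℂ, σ.re < Λ → T σ = E (exp (σ / q)) * exp (-(μ * σ)) + cc * σ) {r : ℝ}
    (h : Ev a Λ μ E q r) :
    Wr a E q μ r * ∫ θ in (-Real.pi)..Real.pi, Kr a T E q μ r (θ * I) * I =
      I * (√r * ∫ θ in (-Real.pi)..Real.pi, exp (Hr a E q μ r θ) *
        (exp (θ * I) * er a cc E q μ r (θ * I))) := by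
  rw [← intervalIntegral.integral_const_mul, ← mul_assoc, ← intervalIntegral.integral_const_mul]
  refine intervalIntegral.integral_congr fun θ _ => ?_
  have hy : (s0 E μ r + θ * I).re < Λ := by
    rw [s0y_re, theta_re]; linarith [h.hM]
  rw [KrL_eq hq hμ S hT h hy]
  unfold Wr Hr
  have e1 : exp (r * nu a E q μ r * (hp E q μ (t0 E q μ r) (θ * I) - hp E q μ (t0 E q μ r) 0)) =
      exp (-(r * nu a E q μ r * hp E q μ (t0 E q μ r) 0)) *
        exp (r * nu a E q μ r * hp E q μ (t0 E q μ r) (θ * I)) := by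
    rw [← exp_add]; congr 1; ring
  have e2 : exp (-s0 E μ r) * exp (s0 E μ r) = 1 := by
    rw [← exp_add, neg_add_cancel, exp_zero]
  rw [e1]
  linear_combination (√r * exp (-(r * nu a E q μ r * hp E q μ (t0 E q μ r) 0)) *
    exp (r * nu a E q μ r * hp E q μ (t0 E q μ r) (θ * I)) * exp (θ * I) * I *
    er a cc E q μ r (θ * I)) * e2

theorem Wr_rayL (ha : 0 < a) (hq : 0 < q) (hμ : 1 < μ) (S : Sm E q μ (Real.exp (Λ / q)) K)
    (hT : ∀ σ : ℂ, σ.re < Λ → T σ = E (exp (σ / q)) * exp (-(μ * σ)) + cc * σ) {r : ℝ}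
    (h : EvL a Λ μ cc E q r) {c : ℂ} (hc : c = Real.pi * I ∨ c = -(Real.pi * I)) :
    ‖Wr a E q μ r * ∫ ρ in (0 : ℝ)..(Λ - 1 + bet μ * Real.log r), Kr a T E q μ r (ρ + c)‖ ≤
      Real.exp 1 * (Real.exp (2 * (Λ - 1)) *
        (r ^ (1 / 2 + 2 * bet μ) * Real.exp (-(nu0 a E μ / 2) * r))) := by
  obtain ⟨hc0, hce⟩ := ce_of hc
  have hcn := pi_norm hc
  obtain ⟨h, he⟩ := h
  set M := Λ - 1 + bet μ * Real.log r with hMdef
  have hM : 0 < M := h.hM
  have hr0 : 0 < r := by linarith [h.hr]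
  have hμ0 : 0 < μ := by linarith
  have h1 : ‖∫ ρ in (0 : ℝ)..M, Kr a T E q μ r (ρ + c)‖ ≤
      ((Real.exp (r * (nu0 a E μ / 2)) * (Real.exp (-(bet μ * Real.log r)) * Real.exp M)) *
        Real.exp 1) * |M - 0| := by
    refine intervalIntegral.norm_integral_le_of_norm_le_const fun ρ hρ => ?_
    rw [uIoc_of_le hM.le] at hρ
    have hy : (s0 E μ r + (ρ + c)).re < Λ := by
      rw [s0y_re, ray_re hc0]; linarith [hρ.2]
    have her : ‖er a cc E q μ r (ρ + c)‖ ≤ Real.exp 1 := by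
      refine er_one ((er_bd (Λ := Λ) ha hμ h.hr ?_).trans he)
      refine (norm_add_le _ _).trans ?_
      rw [norm_real, Real.norm_of_nonneg hρ.1.le, hcn]
      have := le_abs_self Λ
      have := Real.pi_lt_four
      linarith [hρ.2]
    rw [KrL_eq hq hμ S hT h hy, norm_mul, norm_mul, norm_mul, norm_exp, norm_exp, norm_exp, s0_re,
      ray_re hc0, mul_assoc (r : ℂ), re_ofReal_mul]
    have h2 : (nu a E q μ r * hp E q μ (t0 E q μ r) (ρ + c)).re ≤ nu0 a E μ / 2 := by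
      unfold hp
      rw [hce, mul_add, add_re, mul_comm (nu a E q μ r) ((-Real.exp ρ : ℝ) : ℂ), re_ofReal_mul]
      have h3 : (nu a E q μ r * (E (t0 E q μ r * exp ((ρ + c) / q)) * exp (-(μ * (ρ + c))) /
          Nf E q μ (t0 E q μ r))).re ≤ ‖nu a E q μ r‖ * (1 + 1 / 8) := by
        refine (re_le_norm _).trans ?_
        rw [norm_mul]
        refine mul_le_mul_of_nonneg_left ?_ (norm_nonneg _)
        rw [mul_div_right_comm, norm_mul]
        have h4 := S.hEN _ (t_ball_of hq hy) _ (t_mem h.ht)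
        have h5 : ‖exp (-(μ * (ρ + c)) : ℂ)‖ ≤ 1 := by
          rw [norm_exp, neg_re, re_ofReal_mul, ray_re hc0]
          refine Real.exp_le_one_iff.2 ?_
          have := mul_pos hμ0 hρ.1
          linarith
        have h6 : 1 / μ ≤ 1 := by rw [div_le_one hμ0]; exact hμ.le
        calc ‖E (t0 E q μ r * exp ((ρ + c) / q)) / Nf E q μ (t0 E q μ r)‖ *
              ‖exp (-(μ * (ρ + c)) : ℂ)‖ ≤ (1 / μ + 1 / 8) * 1 := by gcongr
          _ ≤ _ := by linarith
      have h7 : -Real.exp ρ * (nu a E q μ r).re ≤ -(nu a E q μ r).re := by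
        have h8 : 1 ≤ Real.exp ρ := Real.one_le_exp hρ.1.le
        nlinarith [h.hn]
      linarith [h.hb]
    have h3 : ρ ≤ M := hρ.2
    gcongr
  have h2 := Wr_norm h
  have h3 : M ≤ Real.exp M := by linarith [Real.add_one_le_exp M]
  rw [sub_zero, abs_of_pos hM] at h1
  rw [norm_mul]
  have h4 : Real.exp M = Real.exp (Λ - 1) * r ^ bet μ := by
    rw [hMdef, Real.exp_add, Real.rpow_def_of_pos hr0, mul_comm (Real.log r)]
  calc ‖Wr a E q μ r‖ * ‖∫ ρ in (0 : ℝ)..M, Kr a T E q μ r (ρ + c)‖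
      ≤ (√r * Real.exp (bet μ * Real.log r) * Real.exp (-(nu0 a E μ * r))) *
        (((Real.exp (r * (nu0 a E μ / 2)) * (Real.exp (-(bet μ * Real.log r)) * Real.exp M)) *
          Real.exp 1) * Real.exp M) := by
        gcongr
        exact h1.trans (by gcongr)
    _ = Real.exp 1 * (√r * (Real.exp (bet μ * Real.log r) * Real.exp (-(bet μ * Real.log r))) *
        (Real.exp (-(nu0 a E μ * r)) * Real.exp (r * (nu0 a E μ / 2))) *
          (Real.exp M * Real.exp M)) := by ring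
    _ = Real.exp 1 * (√r * Real.exp (-(nu0 a E μ / 2) * r) * (Real.exp M * Real.exp M)) := by
        rw [← Real.exp_add, ← Real.exp_add, add_neg_cancel, Real.exp_zero, mul_one]
        congr 4
        ring
    _ = _ := by
        rw [h4, Real.rpow_add hr0, Real.sqrt_eq_rpow, two_mul (Λ - 1), Real.exp_add,
          two_mul (bet μ), Real.rpow_add hr0]
        ring

/-- **Larger pole orders are impossible.** -/
theorem partCL0 (ha : 0 < a) (hq : 0 < q) (hμ : 1 < μ) (S : Sm E q μ (Real.exp (Λ / q)) K)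
    (hJB : JB a Λ T) (hTd : DifferentiableOn ℂ T (re ⁻¹' Iio Λ))
    (hT : ∀ σ : ℂ, σ.re < Λ → T σ = E (exp (σ / q)) * exp (-(μ * σ)) + cc * σ) : False := by
  have hn0 : 0 < nu0 a E μ := nu0_pos ha hμ S.hE0
  have hev := evl_all (cc := cc) ha hq hμ S
  have l1 := arcL (cc := cc) ha hq hμ S
  have hdec : ∀ r : ℝ, Ev a Λ μ E q r →
      I * (√r * ∫ θ in (-Real.pi)..Real.pi, exp (Hr a E q μ r θ) *
        (exp (θ * I) * er a cc E q μ r (θ * I))) =
      Wr a E q μ r * seg (Kr a T E q μ r)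
        (((Λ - 1 + bet μ * Real.log r : ℝ) : ℂ) + -(Real.pi * I))
        (((Λ - 1 + bet μ * Real.log r : ℝ) : ℂ) + Real.pi * I) -
      Wr a E q μ r * (∫ ρ in (0 : ℝ)..(Λ - 1 + bet μ * Real.log r),
        Kr a T E q μ r (ρ + Real.pi * I)) +
      Wr a E q μ r * ∫ ρ in (0 : ℝ)..(Λ - 1 + bet μ * Real.log r),
        Kr a T E q μ r (ρ + -(Real.pi * I)) := by
    intro r h
    set M := Λ - 1 + bet μ * Real.log r with hMdef
    have hM : 0 < M := h.hM
    have hKd : DifferentiableOn ℂ (Kr a T E q μ r) (re ⁻¹' Iio (M + 1)) := by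
      unfold Kr
      refine (Ji_diff (a := a) hTd (alf a E q μ r)).comp
        (fun y _ => (differentiableAt_id.const_add _).differentiableWithinAt) fun y hy => ?_
      rw [mem_preimage, mem_Iio] at hy
      rw [mem_preimage, mem_Iio]
      have := s0y_re (E := E) (μ := μ) r y
      rw [hMdef] at hy
      show (s0 E μ r + y).re < Λ
      linarith
    obtain ⟨hadd, -⟩ := t_SEG (re ⁻¹' Iio (M + 1)) (Kr a T E q μ r)
      (isOpen_Iio.preimage continuous_re) (convex_halfSpace_re_lt _) hKd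
    have m1 : (M + -(Real.pi * I) : ℂ) ∈ (re ⁻¹' Iio (M + 1) : Set ℂ) := by
      rw [mem_preimage, ray_re pi_re', mem_Iio]; linarith
    have m2 : (-(Real.pi * I) : ℂ) ∈ (re ⁻¹' Iio (M + 1) : Set ℂ) := by
      rw [mem_preimage, pi_re', mem_Iio]; linarith
    have m3 : (Real.pi * I : ℂ) ∈ (re ⁻¹' Iio (M + 1) : Set ℂ) := by
      rw [mem_preimage, pi_re, mem_Iio]; linarith
    have m4 : (M + Real.pi * I : ℂ) ∈ (re ⁻¹' Iio (M + 1) : Set ℂ) := by
      rw [mem_preimage, ray_re pi_re, mem_Iio]; linarith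
    have a1 := hadd _ m1 _ m2 _ m3
    have a2 := hadd _ m1 _ m3 _ m4
    rw [← Wr_arcL hq hμ S hT h, ← a2, ← a1, seg_arc, seg_ray _ _ hM, seg_symm, seg_ray _ _ hM]
    ring
  -- the right hand side tends to zero
  obtain ⟨C, hC⟩ := Wr_far (E := E) (q := q) hμ hJB
  have z1 : Tendsto (fun r => C * (r ^ (1 / 2 + bet μ) * Real.exp (-(nu0 a E μ) * r))) atTop
      (𝓝 0) := by
    have := (tendsto_rpow_mul_exp_neg_mul_atTop_nhds_zero (1 / 2 + bet μ) (nu0 a E μ)
      hn0).const_mul C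
    rwa [mul_zero] at this
  have z2 : Tendsto (fun r => Real.exp 1 * (Real.exp (2 * (Λ - 1)) *
      (r ^ (1 / 2 + 2 * bet μ) * Real.exp (-(nu0 a E μ / 2) * r)))) atTop (𝓝 0) := by
    have := ((tendsto_rpow_mul_exp_neg_mul_atTop_nhds_zero (1 / 2 + 2 * bet μ) (nu0 a E μ / 2)
      (half_pos hn0)).const_mul (Real.exp (2 * (Λ - 1)))).const_mul (Real.exp 1)
    rwa [mul_zero, mul_zero] at this
  have w1 := squeeze_zero_norm' (hev.mono fun r h => hC r h.ev) z1
  have w2 := squeeze_zero_norm' (hev.mono fun r h => Wr_rayL ha hq hμ S hT h (Or.inl rfl)) z2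
  have w3 := squeeze_zero_norm' (hev.mono fun r h => Wr_rayL ha hq hμ S hT h (Or.inr rfl)) z2
  have w4 := (w1.sub w2).add w3
  rw [sub_zero, add_zero] at w4
  have w5 := (l1.const_mul I).congr' (hev.mono fun r h => hdec r h.ev)
  have w6 := tendsto_nhds_unique w5 w4
  have hm : 0 < nu0 a E μ * ((1 + μ) / 2) := by
    have : 0 < 1 + μ := by linarith
    positivity
  simp only [mul_one] at w6
  rcases mul_eq_zero.1 w6 with h | h
  · exact I_ne_zero h
  · exact gauss_ne hm h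

theorem partCL (ha : 0 < a) (hq : 0 < q) (hμ : 1 < μ) (hJB : JB a Λ T)
    (hTd : DifferentiableOn ℂ T (re ⁻¹' Iio Λ))
    (hE : DifferentiableOn ℂ E (ball 0 (Real.exp (Λ / q)))) (hE0 : E 0 ≠ 0)
    (hT : ∀ σ : ℂ, σ.re < Λ → T σ = E (exp (σ / q)) * exp (-(μ * σ)) + cc * σ) : False := by
  have hq' : (0 : ℝ) < q := Nat.cast_pos.2 hq
  obtain ⟨δ, K, hδ, S⟩ := exists_sm (q := q) (μ := μ) (by linarith) (Real.exp_pos _) hE hE0
  set Λ' := q * Real.log δ with hΛ'
  have h1 : Real.exp (Λ' / q) = δ := by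
    rw [hΛ', mul_div_cancel_left₀ _ hq'.ne', Real.exp_log S.hδ]
  have h2 : Λ' ≤ Λ := by
    have h3 : Real.exp (Λ' / q) ≤ Real.exp (Λ / q) := by rw [h1]; exact hδ
    have h4 := Real.exp_le_exp.1 h3
    rwa [div_le_div_iff_of_pos_right hq'] at h4
  rw [← h1] at S
  exact partCL0 (Λ := Λ') ha hq hμ S (fun σ1 h => hJB σ1 (h.trans_le h2))
    (hTd.mono fun s hs => lt_of_lt_of_le hs h2) fun σ hσ => hT σ (hσ.trans_le h2)

end Pool.Agent.E8helper32.SL
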