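import Pool.Agent.E8helper32.SL.Base

/-!
# The coordinate `x = z - z0`
-/

set_option autoImplicit false

open Complex Metric Set Filter Topology ComplexConjugate

namespace Pool.Agent.E8helper32.SL

open Pool.Agent.Results.MP_83fd13_an.BranchSingularities
open Pool.Agent.Y245.SC (seg kap)
open Pool.Agent.Y245.UC (Rf kerU VG VGH)
open Pool.Agent.E8helper32.SA (rho_mem)

variable {φ : ℂ → ℂ} {r : ℝ} {w1 : ℂ} {L : ℝ} {G : ℂ → ℂ} {q : ℕ}

/-- the inverse of `φ` -/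
noncomputable def psi (φ : ℂ → ℂ) (r : ℝ) : ℂ → ℂ := Function.invFunOn φ (ball 0 r)

theorem psi_apply (hD : D0 φ r) {w : ℂ} (hw : w ∈ ball (0 : ℂ) r) : psi φ r (φ w) = w :=
  hD.hinj.leftInvOn_invFunOn hw

theorem strict (hD : D0 φ r) {w : ℂ} (hw : w ∈ ball (0 : ℂ) r) :
    HasStrictDerivAt φ (deriv φ w) w :=
  ((hD.hφ.analyticAt (isOpen_ball.mem_nhds hw)).contDiffAt (n := 1)).hasStrictDerivAt
    one_ne_zero

theorem dne (hD : D0 φ r) {w : ℂ} (hw : w ∈ ball (0 : ℂ) r) : deriv φ w ≠ 0 :=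
  Pool.Agent.Helper523.LL.deriv_ne_zero_of_injOn isOpen_ball hD.hφ hD.hinj hw

theorem psi_deriv (hD : D0 φ r) {w : ℂ} (hw : w ∈ ball (0 : ℂ) r) :
    HasDerivAt (psi φ r) (deriv φ w)⁻¹ (φ w) := by
  refine ((strict hD hw).to_local_left_inverse (dne hD hw) ?_).hasDerivAt
  filter_upwards [isOpen_ball.mem_nhds hw] with x hx
  exact psi_apply hD hx

theorem image_open (hD : D0 φ r) {ρ : ℝ} (hρ : ρ ≤ r) : IsOpen (φ '' ball 0 ρ) := by
  rw [isOpen_iff_mem_nhds]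
  rintro _ ⟨w, hw, rfl⟩
  rw [← (strict hD (ball_subset_ball hρ hw)).map_nhds_eq (dne hD (ball_subset_ball hρ hw))]
  exact image_mem_map (isOpen_ball.mem_nhds hw)

theorem psi_mem (hD : D0 φ r) {z : ℂ} (hz : z ∈ φ '' ball 0 1) :
    psi φ r z ∈ ball (0 : ℂ) 1 ∧ φ (psi φ r z) = z := by
  obtain ⟨w, hw, rfl⟩ := hz
  rw [psi_apply hD (ball_subset_ball hD.hr.le hw)]
  exact ⟨hw, rfl⟩

theorem psi_diffAt (hD : D0 φ r) {z : ℂ} (hz : z ∈ φ '' ball 0 1) :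
    HasDerivAt (psi φ r) (deriv φ (psi φ r z))⁻¹ z := by
  obtain ⟨w, hw, rfl⟩ := hz
  have := psi_deriv hD (ball_subset_ball hD.hr.le hw)
  rwa [psi_apply hD (ball_subset_ball hD.hr.le hw)]

/-- **The coordinate.** -/
theorem coord (hD : D0 φ r) (hw1 : 1 < ‖w1‖) (L : ℝ) :
    ∃ (δ : ℝ) (ℓ : ℂ → ℂ), 0 < δ ∧ DifferentiableOn ℂ ℓ (ball 0 δ) ∧ ∀ x ∈ ball (0 : ℂ) δ,
      φ (1 / conj w1) + x ∈ φ '' ball 0 1 ∧ psi φ r (φ (1 / conj w1) + x) ≠ 0 ∧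
      1 / psi φ r (φ (1 / conj w1) + x) = conj w1 + x * exp (ℓ x) ∧
      ‖x * exp (ℓ x)‖ < Real.exp L := by
  set P : ℂ := 1 / conj w1 with hP
  have hPm : P ∈ ball (0 : ℂ) 1 := rho_mem hw1
  have hw0 : w1 ≠ 0 := norm_pos_iff.1 (by linarith)
  have hcw : conj w1 ≠ 0 := by rwa [ne_eq, _root_.map_eq_zero]
  have hP0 : P ≠ 0 := div_ne_zero one_ne_zero hcw
  set zs : ℂ := φ P with hzs
  have hzsm : zs ∈ φ '' ball 0 1 := ⟨P, hPm, rfl⟩
  have hpsi0 : psi φ r zs = P := psi_apply hD (ball_subset_ball hD.hr.le hPm)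
  have hΩo : IsOpen (φ '' ball 0 1) := image_open hD hD.hr.le
  -- the good neighbourhood
  have hadd : Tendsto (fun x : ℂ => zs + x) (𝓝 0) (𝓝 zs) := by
    have : Tendsto (fun x : ℂ => zs + x) (𝓝 0) (𝓝 (zs + 0)) :=
      (continuous_const.add continuous_id).tendsto 0
    rwa [add_zero] at this
  have hpc : ContinuousAt (psi φ r) zs := (psi_diffAt hD hzsm).continuousAt
  have hev1 : ∀ᶠ x in 𝓝 (0 : ℂ), zs + x ∈ φ '' ball 0 1 ∧ psi φ r (zs + x) ≠ 0 := by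
    have h2 : ∀ᶠ z in 𝓝 zs, z ∈ φ '' ball 0 1 ∧ psi φ r z ≠ 0 :=
      (hΩo.eventually_mem hzsm).and (hpc.eventually_ne (by rw [hpsi0]; exact hP0))
    exact hadd.eventually h2
  obtain ⟨δ1, hδ1, h1⟩ := Metric.eventually_nhds_iff_ball.1 hev1
  set κ : ℂ → ℂ := fun x => 1 / psi φ r (zs + x) - conj w1 with hκ
  have hκ0 : κ 0 = 0 := by
    simp only [hκ]
    rw [add_zero, hpsi0, hP, one_div_one_div, sub_self]
  have hκd : ∀ x ∈ ball (0 : ℂ) δ1, HasDerivAt κ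
      (-(deriv φ (psi φ r (zs + x)))⁻¹ / (psi φ r (zs + x)) ^ 2) x := by
    intro x hx
    have h2 : HasDerivAt (fun x => psi φ r (zs + x)) (deriv φ (psi φ r (zs + x)))⁻¹ x := by
      have h3 := (psi_diffAt hD (h1 x hx).1).comp x ((hasDerivAt_id x).const_add zs)
      rw [mul_one] at h3
      exact h3
    have h3 := (h2.fun_inv (h1 x hx).2).sub_const (conj w1)
    refine h3.congr_of_eventuallyEq (Eventually.of_forall fun y => ?_)
    simp only [hκ, one_div]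
  have hκD : DifferentiableOn ℂ κ (ball 0 δ1) := fun x hx =>
    (hκd x hx).differentiableAt.differentiableWithinAt
  set k : ℂ → ℂ := dslope κ 0 with hk
  have hkD : DifferentiableOn ℂ k (ball 0 δ1) :=
    (differentiableOn_dslope (ball_mem_nhds _ hδ1)).2 hκD
  have hk0 : k 0 ≠ 0 := by
    rw [hk, dslope_same, (hκd 0 (mem_ball_self hδ1)).deriv, add_zero, hpsi0]
    exact div_ne_zero (neg_ne_zero.2 (inv_ne_zero (dne hD (ball_subset_ball hD.hr.le hPm))))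
      (pow_ne_zero _ hP0)
  have hκk : ∀ x, κ x = x * k x := by
    intro x
    have := sub_smul_dslope κ 0 x
    rw [sub_zero, smul_eq_mul, hκ0, sub_zero] at this
    exact this.symm
  have hkc : ContinuousAt k 0 :=
    (hkD.differentiableAt (isOpen_ball.mem_nhds (mem_ball_self hδ1))).continuousAt
  have hev2 : ∀ᶠ x in 𝓝 (0 : ℂ), k x / k 0 ∈ slitPlane := by
    have h2 : ContinuousAt (fun x => k x / k 0) 0 := hkc.div_const _
    refine h2.eventually (isOpen_slitPlane.eventually_mem ?_)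
    simp only
    rw [div_self hk0]
    exact one_mem_slitPlane
  have hev3 : ∀ᶠ x in 𝓝 (0 : ℂ), ‖κ x‖ < Real.exp L := by
    have h2 : ContinuousAt (fun x => ‖κ x‖) 0 := (hκd 0 (mem_ball_self hδ1)).continuousAt.norm
    refine h2.eventually (gt_mem_nhds ?_)
    simp only
    rw [hκ0, norm_zero]
    exact Real.exp_pos L
  obtain ⟨δ2, hδ2, h2⟩ := Metric.eventually_nhds_iff_ball.1 (hev2.and hev3)
  have hsub1 : ball (0 : ℂ) (min δ1 δ2) ⊆ ball 0 δ1 := ball_subset_ball (min_le_left _ _)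
  have hsub2 : ball (0 : ℂ) (min δ1 δ2) ⊆ ball 0 δ2 := ball_subset_ball (min_le_right _ _)
  have hexp : ∀ x ∈ ball (0 : ℂ) (min δ1 δ2), exp (log (k x / k 0) + log (k 0)) = k x := by
    intro x hx
    rw [exp_add, exp_log hk0, exp_log (slitPlane_ne_zero (h2 x (hsub2 hx)).1),
      div_mul_cancel₀ _ hk0]
  refine ⟨min δ1 δ2, fun x => log (k x / k 0) + log (k 0), lt_min hδ1 hδ2, ?_, ?_⟩
  · intro x hx
    have h3 : DifferentiableAt ℂ k x := hkD.differentiableAt (isOpen_ball.mem_nhds (hsub1 hx))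
    exact (((h3.div_const _).clog (h2 x (hsub2 hx)).1).add_const _).differentiableWithinAt
  · intro x hx
    have h3 := hκk x
    refine ⟨(h1 x (hsub1 hx)).1, (h1 x (hsub1 hx)).2, ?_, ?_⟩
    · simp only
      rw [hexp x hx, ← h3, hκ]
      ring
    · simp only
      rw [hexp x hx, ← h3]
      exact (h2 x (hsub2 hx)).2

/-- the Schwarz function in the coordinate `σ`, `z = z0 + exp σ` -/
noncomputable def Ts (G ℓ : ℂ → ℂ) (σ : ℂ) : ℂ := conj (G (conj (σ + ℓ (exp σ))))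

/-- the data of the coordinate -/
structure Co (φ : ℂ → ℂ) (r : ℝ) (w1 : ℂ) (L Λ : ℝ) (ℓ : ℂ → ℂ) : Prop where
  hℓ : DifferentiableOn ℂ ℓ (ball 0 (Real.exp Λ))
  h1 : ∀ x ∈ ball (0 : ℂ) (Real.exp Λ), φ (1 / conj w1) + x ∈ φ '' ball 0 1
  h2 : ∀ x ∈ ball (0 : ℂ) (Real.exp Λ), psi φ r (φ (1 / conj w1) + x) ≠ 0
  h3 : ∀ x ∈ ball (0 : ℂ) (Real.exp Λ),
    1 / psi φ r (φ (1 / conj w1) + x) = conj w1 + x * exp (ℓ x)
  h4 : ∀ x ∈ ball (0 : ℂ) (Real.exp Λ), ‖x * exp (ℓ x)‖ < Real.exp L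

theorem exists_co (hD : D0 φ r) (hw1 : 1 < ‖w1‖) (L : ℝ) :
    ∃ (Λ : ℝ) (ℓ : ℂ → ℂ), Co φ r w1 L Λ ℓ := by
  obtain ⟨δ, ℓ, hδ, hℓ, h⟩ := coord hD hw1 L
  refine ⟨Real.log δ, ℓ, ?_, ?_, ?_, ?_, ?_⟩
  · rwa [Real.exp_log hδ]
  · rw [Real.exp_log hδ]; exact fun x hx => (h x hx).1
  · rw [Real.exp_log hδ]; exact fun x hx => (h x hx).2.1
  · rw [Real.exp_log hδ]; exact fun x hx => (h x hx).2.2.1
  · rw [Real.exp_log hδ]; exact fun x hx => (h x hx).2.2.2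

variable {Λ : ℝ} {ℓ : ℂ → ℂ}

theorem exp_mem {σ : ℂ} (hσ : σ.re < Λ) : exp σ ∈ ball (0 : ℂ) (Real.exp Λ) := by
  rw [mem_ball_zero_iff, norm_exp]
  exact Real.exp_lt_exp.2 hσ

theorem Co.re_lt (hC : Co φ r w1 L Λ ℓ) {σ : ℂ} (hσ : σ.re < Λ) : (σ + ℓ (exp σ)).re < L := by
  have h1 := hC.h4 _ (exp_mem hσ)
  rw [← exp_add, norm_exp] at h1
  exact Real.exp_lt_exp.1 h1

theorem Co.inner (hC : Co φ r w1 L Λ ℓ) {σ : ℂ} (hσ : σ.re < Λ) :
    DifferentiableAt ℂ (fun σ => σ + ℓ (exp σ)) σ := by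
  have h1 : DifferentiableAt ℂ ℓ (exp σ) :=
    hC.hℓ.differentiableAt (isOpen_ball.mem_nhds (exp_mem hσ))
  exact differentiableAt_id.add (DifferentiableAt.comp (g := ℓ) (f := exp) σ h1
    differentiableAt_exp)

theorem Ts_diffAt (hC : Co φ r w1 L Λ ℓ) (hG : DifferentiableOn ℂ G (re ⁻¹' Iio L)) {σ : ℂ}
    (hσ : σ.re < Λ) : DifferentiableAt ℂ (Ts G ℓ) σ := by
  have hUo : IsOpen (re ⁻¹' Iio L : Set ℂ) := isOpen_Iio.preimage continuous_re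
  have h2 : DifferentiableAt ℂ G (conj (σ + ℓ (exp σ))) := by
    refine hG.differentiableAt (hUo.mem_nhds ?_)
    rw [mem_preimage, conj_re]
    exact hC.re_lt hσ
  have h3 := DifferentiableAt.conj_conj h2
  rw [conj_conj] at h3
  exact DifferentiableAt.comp (g := conj ∘ G ∘ conj) (f := fun σ => σ + ℓ (exp σ)) σ h3
    (hC.inner hσ)

theorem Ts_diff (hC : Co φ r w1 L Λ ℓ) (hG : DifferentiableOn ℂ G (re ⁻¹' Iio L)) :
    DifferentiableOn ℂ (Ts G ℓ) (re ⁻¹' Iio Λ) := fun _ hσ =>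
  (Ts_diffAt hC hG hσ).differentiableWithinAt

/-- the points `w` -/
theorem Co.w_eq (hC : Co φ r w1 L Λ ℓ) {σ : ℂ} (hσ : σ.re < Λ) :
    1 / conj (psi φ r (φ (1 / conj w1) + exp σ)) = w1 + exp (conj (σ + ℓ (exp σ))) := by
  have h1 := hC.h3 _ (exp_mem hσ)
  rw [← exp_add] at h1
  have h2 := congrArg conj h1
  rw [map_div₀, map_one, map_add, conj_conj, ← exp_conj] at h2
  exact h2

/-- the germ of `Ts` -/
theorem Ts_germ (hG : P0 φ r w1 L G) (hC : Co φ r w1 L Λ ℓ) {σ : ℂ} (hσ : σ.re < Λ) :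
    ∃ g : ℂ → ℂ, Branch φ r (1 / conj (psi φ r (φ (1 / conj w1) + exp σ))) g ∧
      Ts G ℓ =ᶠ[𝓝 σ] fun s => Rf g (psi φ r (φ (1 / conj w1) + exp s)) := by
  have hre : (conj (σ + ℓ (exp σ))).re < L := by rw [conj_re]; exact hC.re_lt hσ
  obtain ⟨g, hg, hGg⟩ := hG.hbr _ hre
  refine ⟨g, ?_, ?_⟩
  · rw [hC.w_eq hσ]
    exact hg
  · have h1 : ContinuousAt (fun s => conj (s + ℓ (exp s))) σ :=
      continuous_conj.continuousAt.comp (hC.inner hσ).continuousAt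
    have h2 := h1.eventually hGg
    have hUo : IsOpen (re ⁻¹' Iio Λ : Set ℂ) := isOpen_Iio.preimage continuous_re
    filter_upwards [h2, hUo.mem_nhds (x := σ) hσ] with s hs1 hs2
    unfold Ts Rf
    rw [hs1, hC.w_eq hs2]

end Pool.Agent.E8helper32.SL
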