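import Pool.Agent.E8helper32.SL.Bz

/-!
# Simple poles and logarithms
-/

set_option autoImplicit false

open Complex MeasureTheory Metric Set Filter Topology ComplexConjugate

namespace Pool.Agent.E8helper32.SL

open Pool.Agent.Y245.SC (seg t_SEG)
open Pool.Agent.Y245.SG (Bn)
open Pool.Agent.E8helper32.SA (hF hF_cont gs gs_pos gs_cont gs_int gs_le hF_ray exp_pi exp_pi'
  pi_re pi_re' Hk JB Ji Kj Kj_diff Kj_far tj tj_tendsto tj_mem tj_norm cb_sub exists_bd sh_re sh_exp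
  hankel seg_arc seg_ray seg_symm theta_re ray_re exp_one_bd exp_two_bd seg_lin hF_deriv)

variable {a Λ : ℝ} {q : ℕ} {T F : ℂ → ℂ} {e0 cc : ℂ}

/-- the exponent of the correction -/
noncomputable def zc (a : ℝ) (F : ℂ → ℂ) (q : ℕ) (cc : ℂ) (τ : ℝ) (y : ℂ) : ℂ :=
  -(a / τ * (F (tj q 0 τ y) + cc * (y - Real.log τ)))

theorem Kj_zc (hT : ∀ σ : ℂ, σ.re < Λ → T σ = e0 * exp (-σ) + F (exp (σ / q)) + cc * σ) {τ : ℝ}
    (hτ : 0 < τ) {y : ℂ} (hy : y.re < Λ + Real.log τ) :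
    Kj a T 0 τ y = hF 1 (a * e0) y * exp (zc a F q cc τ y) := by
  have h1 := sh_re 0 τ y
  have hτc : (τ : ℂ) ≠ 0 := ofReal_ne_zero.2 hτ.ne'
  unfold Kj Ji
  rw [hT _ (by rw [h1]; linarith), exp_neg, sh_exp 0 hτ]
  unfold hF zc tj
  rw [mul_left_comm, ← exp_add]
  have e1 : (τ : ℂ) * (exp y / τ) = exp y := by field_simp
  rw [e1, ← exp_add]
  congr 1
  have e2 : (exp y / (τ : ℂ))⁻¹ = τ * exp (-y) := by
    rw [exp_neg]; field_simp
  rw [e2]
  push_cast
  field_simp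
  ring

/-- the size of the correction -/
noncomputable def eta (a : ℝ) (B : ℝ) (cc : ℂ) (τ : ℝ) : ℝ :=
  a * (B + ‖cc‖ * 3) * (Real.log τ / τ)

theorem log_div_lim : Tendsto (fun τ : ℝ => Real.log τ / τ) atTop (𝓝 0) := by
  have := Real.isLittleO_log_id_atTop.tendsto_div_nhds_zero
  exact this

theorem eta_lim (B : ℝ) : Tendsto (eta a B cc) atTop (𝓝 0) := by
  have := log_div_lim.const_mul (a * (B + ‖cc‖ * 3))
  rwa [mul_zero] at this

theorem eta_sq_lim (B : ℝ) : Tendsto (fun τ => τ * eta a B cc τ ^ 2) atTop (𝓝 0) := by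
  have h1 : Tendsto (fun τ : ℝ => Real.log τ ^ 2 / τ) atTop (𝓝 0) := by
    have h2 := (isLittleO_log_rpow_atTop (r := 1 / 2) (by norm_num)).tendsto_div_nhds_zero
    have h3 := h2.pow 2
    norm_num at h3
    refine h3.congr' ?_
    filter_upwards [eventually_gt_atTop 0] with τ hτ
    rw [div_pow, ← Real.rpow_natCast (τ ^ (1 / 2 : ℝ)) 2, ← Real.rpow_mul hτ.le]
    norm_num
  have h2 := h1.const_mul ((a * (B + ‖cc‖ * 3)) ^ 2)
  rw [mul_zero] at h2
  refine h2.congr' ?_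
  filter_upwards [eventually_gt_atTop 0] with τ hτ
  unfold eta
  field_simp

theorem zc_bd (ha : 0 < a) {B : ℝ} (hB0 : 0 ≤ B) {τ : ℝ} (hτ : 0 < τ) (hlog : 1 ≤ Real.log τ)
    {y : ℂ} (hy : ‖y‖ ≤ 2 * Real.log τ) (hF : ‖F (tj q 0 τ y)‖ ≤ B) :
    ‖zc a F q cc τ y‖ ≤ eta a B cc τ := by
  unfold zc eta
  rw [norm_neg, norm_mul, norm_div, norm_real, norm_real, Real.norm_of_nonneg ha.le,
    Real.norm_of_nonneg hτ.le]
  have h1 : ‖F (tj q 0 τ y) + cc * (y - Real.log τ)‖ ≤ (B + ‖cc‖ * 3) * Real.log τ := by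
    refine (norm_add_le _ _).trans ?_
    rw [norm_mul, add_mul]
    have h2 : ‖y - (Real.log τ : ℂ)‖ ≤ 3 * Real.log τ := by
      refine (norm_sub_le _ _).trans ?_
      rw [norm_real, Real.norm_of_nonneg (by linarith)]
      linarith
    have h3 : B ≤ B * Real.log τ := le_mul_of_one_le_right hB0 hlog
    have h4 : ‖cc‖ * ‖y - (Real.log τ : ℂ)‖ ≤ ‖cc‖ * (3 * Real.log τ) := by gcongr
    linarith
  calc a / τ * ‖F (tj q 0 τ y) + cc * (y - Real.log τ)‖
      ≤ a / τ * ((B + ‖cc‖ * 3) * Real.log τ) := by gcongr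
    _ = _ := by ring

/-- the integral of `hF 1` over a period -/
theorem hF_period (κ : ℂ) {M : ℝ} (hM : 0 < M) :
    seg (hF 1 κ) (M + -(Real.pi * I)) (M + Real.pi * I) = Hk 1 κ := by
  have hexp : ∀ ρ : ℝ, hF 1 κ (ρ + Real.pi * I) = hF 1 κ (ρ + -(Real.pi * I)) := by
    intro ρ
    unfold hF
    have h1 : ∀ c : ℂ, exp (exp (ρ + c) - κ * exp (-(ρ + c)) + ((1 : ℝ) : ℂ) * (ρ + c)) =
        exp (exp (ρ + c) - κ * (exp (ρ + c))⁻¹) * exp (ρ + c) := by
      intro c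
      rw [← exp_neg, ← exp_add]
      congr 1
      push_cast
      ring
    rw [h1, h1, exp_pi, exp_pi']
  have hd : DifferentiableOn ℂ (hF 1 κ) univ := fun y _ =>
    (hF_dy 1 κ y).differentiableAt.differentiableWithinAt
  obtain ⟨hadd, -⟩ := t_SEG univ (hF 1 κ) isOpen_univ convex_univ hd
  have a1 := hadd (M + -(Real.pi * I)) trivial (-(Real.pi * I)) trivial (Real.pi * I) trivial
  have a2 := hadd (M + -(Real.pi * I)) trivial (Real.pi * I) trivial (M + Real.pi * I) trivial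
  rw [← a2, ← a1, seg_arc, seg_ray _ _ hM, seg_symm, seg_ray _ _ hM]
  unfold Hk
  simp only [hexp]
  ring

/-- the uniform facts for large `τ` -/
structure Lt (a Λ B : ℝ) (cc : ℂ) (τ : ℝ) : Prop where
  h0 : 0 < τ
  hl : 1 ≤ Real.log τ
  hM : 0 < Λ - 1 + Real.log τ
  hy : Λ - 1 + Real.log τ + Real.pi ≤ 2 * Real.log τ
  hp : Real.pi ≤ 2 * Real.log τ
  he : eta a B cc τ ≤ 1
  hs : τ * eta a B cc τ ^ 2 ≤ 1

theorem lt_all (B : ℝ) : ∀ᶠ τ in atTop, Lt a Λ B cc τ := by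
  have hlog := Real.tendsto_log_atTop
  filter_upwards [eventually_gt_atTop 0, hlog.eventually_ge_atTop 1,
    hlog.eventually_gt_atTop (1 - Λ), hlog.eventually_ge_atTop (Λ - 1 + Real.pi),
    hlog.eventually_ge_atTop (Real.pi / 2), (eta_lim (a := a) (cc := cc) B).eventually
      (ge_mem_nhds one_pos), (eta_sq_lim (a := a) (cc := cc) B).eventually (ge_mem_nhds one_pos)]
    with τ h1 h2 h3 h4 h5 h6 h7
  exact ⟨h1, h2, by linarith, by linarith, by linarith, h6, h7⟩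

theorem pi_norm {c : ℂ} (hc : c = Real.pi * I ∨ c = -(Real.pi * I)) : ‖c‖ = Real.pi := by
  rcases hc with h | h <;> rw [h] <;> simp [abs_of_pos Real.pi_pos]

/-- points of the rays -/
theorem ray_pt {B : ℝ} {τ : ℝ} (h : Lt a Λ B cc τ) {c : ℂ}
    (hc : c = Real.pi * I ∨ c = -(Real.pi * I)) {ρ : ℝ} (hρ : ρ ∈ Ioc 0 (Λ - 1 + Real.log τ)) :
    ‖(ρ + c : ℂ)‖ ≤ 2 * Real.log τ ∧ (ρ + c : ℂ).re ≤ Λ - 1 + Real.log τ := by
  constructor
  · refine (norm_add_le _ _).trans ?_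
    rw [norm_real, Real.norm_of_nonneg hρ.1.le, pi_norm hc]
    linarith [hρ.2, h.hy]
  · rw [ray_re (ce_of hc).1]
    exact hρ.2

theorem arc_pt {B : ℝ} {τ : ℝ} (h : Lt a Λ B cc τ) {θ : ℝ} (hθ : θ ∈ Icc (-Real.pi) Real.pi) :
    ‖(θ * I : ℂ)‖ ≤ 2 * Real.log τ ∧ (θ * I : ℂ).re ≤ Λ - 1 + Real.log τ := by
  constructor
  · rw [norm_mul, norm_I, mul_one, norm_real, Real.norm_eq_abs]
    exact (abs_le.2 ⟨hθ.1, hθ.2⟩).trans h.hp
  · rw [theta_re]
    exact h.hM.le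

theorem zc_lim (hq : 0 < q) (hFc : ContinuousAt F 0) (y : ℂ) :
    Tendsto (fun τ : ℝ => zc a F q cc τ y) atTop (𝓝 0) ∧
    Tendsto (fun τ : ℝ => (τ : ℂ) * (zc a F q cc τ y - a * cc * (Real.log τ / τ : ℝ))) atTop
      (𝓝 (-(a * (F 0 + cc * y)))) := by
  have hF : Tendsto (fun τ => F (tj q 0 τ y)) atTop (𝓝 (F 0)) :=
    hFc.tendsto.comp (tj_tendsto hq 0 y)
  have hinv : Tendsto (fun τ : ℝ => ((τ⁻¹ : ℝ) : ℂ)) atTop (𝓝 0) := by
    have := (continuous_ofReal.tendsto _).comp (tendsto_inv_atTop_zero (𝕜 := ℝ))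
    rwa [ofReal_zero] at this
  have hlog : Tendsto (fun τ : ℝ => ((Real.log τ / τ : ℝ) : ℂ)) atTop (𝓝 0) := by
    have := (continuous_ofReal.tendsto _).comp log_div_lim
    rwa [ofReal_zero] at this
  constructor
  · have h1 := ((hF.add_const (cc * y)).const_mul (-(a : ℂ))).mul hinv
    have h2 := h1.add (hlog.const_mul (a * cc))
    rw [mul_zero, mul_zero, add_zero] at h2
    refine h2.congr' ?_
    filter_upwards [eventually_gt_atTop 0] with τ hτ
    have hτc : (τ : ℂ) ≠ 0 := ofReal_ne_zero.2 hτ.ne'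
    unfold zc
    push_cast
    field_simp
    ring
  · have h1 := ((hF.add_const (cc * y)).const_mul (a : ℂ)).neg
    refine h1.congr' ?_
    filter_upwards [eventually_gt_atTop 0] with τ hτ
    have hτc : (τ : ℂ) ≠ 0 := ofReal_ne_zero.2 hτ.ne'
    unfold zc
    push_cast
    field_simp
    ring

/-- **The first level.** -/
theorem lev_one (ha : 0 < a) (hq : 0 < q) (hJB : JB a Λ T)
    (hTd : DifferentiableOn ℂ T (re ⁻¹' Iio Λ))
    (hF : DifferentiableOn ℂ F (ball 0 (Real.exp (Λ / q))))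
    (hT : ∀ σ : ℂ, σ.re < Λ → T σ = e0 * exp (-σ) + F (exp (σ / q)) + cc * σ) :
    Hk 1 (a * e0) = 0 := by
  have hΛ1 : Λ - 1 < Λ := by linarith
  obtain ⟨B, hB0, hB⟩ := exists_bd hq hΛ1 hF
  have hM : Tendsto (fun τ : ℝ => Λ - 1 + Real.log τ) atTop atTop :=
    tendsto_atTop_add_const_left _ _ Real.tendsto_log_atTop
  have hFc : ContinuousAt F 0 :=
    (hF.differentiableAt (isOpen_ball.mem_nhds (mem_ball_self (Real.exp_pos _)))).continuousAt
  have hez : ∀ τ, Lt a Λ B cc τ → ∀ y : ℂ, ‖y‖ ≤ 2 * Real.log τ → y.re ≤ Λ - 1 + Real.log τ →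
      ‖exp (zc a F q cc τ y)‖ ≤ Real.exp 1 := by
    intro τ h y hy hre
    rw [norm_exp]
    refine Real.exp_le_exp.2 ((re_le_norm _).trans ?_)
    exact (zc_bd ha hB0 h.h0 h.hl hy (hB _ (tj_mem hq 0 hre))).trans h.he
  refine hankel (K := fun τ => Kj a T 0 τ) (K0 := SA.hF 1 (a * e0)) (M := fun τ => Λ - 1 + Real.log τ)
    (g := fun ρ => Real.exp ‖(a * e0 : ℂ)‖ * Real.exp 1 * gs 1 ρ)
    (C := Real.exp (1 + ‖(a * e0 : ℂ)‖) * Real.exp 1) hM
    ((gs_int 1).const_mul _) ?_ ?_ ?_ ?_ ?_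
  · refine Eventually.of_forall fun τ => ?_
    have e : Λ - 1 + Real.log τ + 1 = Λ + Real.log τ := by ring
    rw [e]
    exact Kj_diff (a := a) hTd 0 τ
  · intro y
    have h1 := ((continuous_exp.tendsto _).comp (zc_lim (a := a) (cc := cc) hq hFc y).1).const_mul
      (SA.hF 1 (a * e0) y)
    rw [exp_zero, mul_one] at h1
    refine h1.congr' ?_
    filter_upwards [Real.tendsto_log_atTop.eventually_gt_atTop (y.re - Λ),
      eventually_gt_atTop 0] with τ h3 h4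
    exact (Kj_zc hT h4 (by linarith)).symm
  · filter_upwards [lt_all (a := a) (Λ := Λ) (cc := cc) B] with τ h θ hθ
    obtain ⟨h1, h2⟩ := arc_pt h hθ
    rw [Kj_zc hT h.h0 (by linarith), norm_mul]
    have h3 := arc_bd 1 (a * e0) θ
    have h4 := hez τ h _ h1 h2
    gcongr
  · have key : ∀ c : ℂ, (c = Real.pi * I ∨ c = -(Real.pi * I)) → ∀ τ, Lt a Λ B cc τ →
        ∀ ρ ∈ Ioc 0 (Λ - 1 + Real.log τ),
        ‖Kj a T 0 τ (ρ + c)‖ ≤ Real.exp ‖(a * e0 : ℂ)‖ * Real.exp 1 * gs 1 ρ := by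
      intro c hc τ h ρ hρ
      obtain ⟨h1, h2⟩ := ray_pt h hc hρ
      rw [Kj_zc hT h.h0 (by linarith), norm_mul]
      have h3 := hF_ray (ce_of hc).1 (ce_of hc).2 1 (a * e0) hρ.1.le
      have h4 := hez τ h _ h1 h2
      calc ‖SA.hF 1 (a * e0) (ρ + c)‖ * ‖exp (zc a F q cc τ (ρ + c))‖
          ≤ (Real.exp ‖(a * e0 : ℂ)‖ * gs 1 ρ) * Real.exp 1 := by
            have := (gs_pos 1 ρ).le
            gcongr
        _ = _ := by ring
    filter_upwards [lt_all (a := a) (Λ := Λ) (cc := cc) B] with τ h ρ hρ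
    exact ⟨key _ (Or.inl rfl) τ h ρ hρ, key _ (Or.inr rfl) τ h ρ hρ⟩
  · have h1 := Kj_far hJB hΛ1 0 0
    simp only [Real.rpow_zero, ofReal_one, one_mul] at h1
    exact h1

/-- **The logarithm.** -/
theorem lev_log (ha : 0 < a) (hq : 0 < q) (hJB : JB a Λ T)
    (hTd : DifferentiableOn ℂ T (re ⁻¹' Iio Λ))
    (hF : DifferentiableOn ℂ F (ball 0 (Real.exp (Λ / q))))
    (hT : ∀ σ : ℂ, σ.re < Λ → T σ = e0 * exp (-σ) + F (exp (σ / q)) + cc * σ) :
    cc * HD 1 (a * e0) = 0 := by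
  have hΛ1 : Λ - 1 < Λ := by linarith
  have hH := lev_one ha hq hJB hTd hF hT
  obtain ⟨B, hB0, hB⟩ := exists_bd hq hΛ1 hF
  set κ : ℂ := a * e0 with hκ
  have hM : Tendsto (fun τ : ℝ => Λ - 1 + Real.log τ) atTop atTop :=
    tendsto_atTop_add_const_left _ _ Real.tendsto_log_atTop
  have hFc : ContinuousAt F 0 :=
    (hF.differentiableAt (isOpen_ball.mem_nhds (mem_ball_self (Real.exp_pos _)))).continuousAt
  -- the function
  let R : ℝ → ℂ → ℂ := fun τ y => (τ : ℂ) * (Kj a T 0 τ y -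
    (1 + a * cc * (Real.log τ / τ : ℝ)) * SA.hF 1 κ y)
  have hR : ∀ τ : ℝ, 0 < τ → ∀ y : ℂ, y.re < Λ + Real.log τ → R τ y = SA.hF 1 κ y *
      ((τ : ℂ) * (exp (zc a F q cc τ y) - 1 - zc a F q cc τ y) +
        (τ : ℂ) * (zc a F q cc τ y - a * cc * (Real.log τ / τ : ℝ))) := by
    intro τ hτ y hy
    simp only [R]
    rw [Kj_zc hT hτ hy]
    ring
  have hmid : ∀ τ : ℝ, 0 < τ → ∀ y : ℂ,
      (τ : ℂ) * (zc a F q cc τ y - a * cc * (Real.log τ / τ : ℝ)) =
        -(a * (F (tj q 0 τ y) + cc * y)) := by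
    intro τ hτ y
    have hτc : (τ : ℂ) ≠ 0 := ofReal_ne_zero.2 hτ.ne'
    unfold zc
    push_cast
    field_simp
    ring
  have hRb : ∀ τ, Lt a Λ B cc τ → ∀ y : ℂ, ‖y‖ ≤ 2 * Real.log τ → y.re ≤ Λ - 1 + Real.log τ →
      ‖R τ y‖ ≤ ‖SA.hF 1 κ y‖ * (Real.exp 1 + a * (B + ‖cc‖ * ‖y‖)) := by
    intro τ h y hy hre
    have hz := zc_bd (cc := cc) ha hB0 h.h0 h.hl hy (hB _ (tj_mem hq 0 hre))
    rw [hR τ h.h0 y (by linarith), hmid τ h.h0, norm_mul]
    refine mul_le_mul_of_nonneg_left ((norm_add_le _ _).trans (add_le_add ?_ ?_)) (norm_nonneg _)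
    · rw [norm_mul, norm_real, Real.norm_of_nonneg h.h0.le]
      have h1 := exp_two_bd (zc a F q cc τ y)
      have h0 := h.h0
      calc τ * ‖exp (zc a F q cc τ y) - 1 - zc a F q cc τ y‖
          ≤ τ * (‖zc a F q cc τ y‖ ^ 2 * Real.exp ‖zc a F q cc τ y‖) := by gcongr
        _ ≤ τ * (eta a B cc τ ^ 2 * Real.exp 1) := by
            have := h.he
            gcongr
            linarith
        _ = (τ * eta a B cc τ ^ 2) * Real.exp 1 := by ring
        _ ≤ 1 * Real.exp 1 := by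
            have := h.hs
            gcongr
        _ = _ := one_mul _
    · rw [norm_neg, norm_mul, norm_real, Real.norm_of_nonneg ha.le]
      have h1 := hB _ (tj_mem hq 0 hre)
      refine mul_le_mul_of_nonneg_left ((norm_add_le _ _).trans ?_) ha.le
      rw [norm_mul]
      linarith
  have hmain := hankel (K := R) (K0 := fun y => -(a * (F 0 + cc * y)) * SA.hF 1 κ y)
    (M := fun τ => Λ - 1 + Real.log τ)
    (g := fun ρ => Real.exp ‖κ‖ * (Real.exp 1 + a * (B + ‖cc‖ * (1 + Real.pi))) * gs 2 ρ)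
    (C := Real.exp (1 + ‖κ‖) * (Real.exp 1 + a * (B + ‖cc‖ * Real.pi))) hM
    ((gs_int 2).const_mul _) ?_ ?_ ?_ ?_ ?_
  · -- the conclusion
    have w1 := w_int wt_id (Or.inl rfl) 1 κ
    have w2 := w_int wt_id (Or.inr rfl) 1 κ
    have c0 : ∀ {v : ℂ → ℂ}, Continuous v →
        Continuous fun θ : ℝ => v (θ * I) * SA.hF 1 κ (θ * I) * I := fun hv =>
      ((hv.mul (hF_cont 1 κ)).comp (continuous_ofReal.mul continuous_const)).mul continuous_const
    have cA : Continuous fun θ : ℝ => (1 : ℂ) * SA.hF 1 κ (θ * I) * I :=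
      c0 (v := fun _ => 1) continuous_const
    have cB : Continuous fun θ : ℝ => (θ * I : ℂ) * SA.hF 1 κ (θ * I) * I :=
      c0 (v := fun y => y) continuous_id
    have e1 : (∫ θ in (-Real.pi)..Real.pi, -(a * (F 0 + cc * (θ * I))) * SA.hF 1 κ (θ * I) * I) =
        -(a * F 0) * (∫ θ in (-Real.pi)..Real.pi, (1 : ℂ) * SA.hF 1 κ (θ * I) * I) +
        -(a * cc) * ∫ θ in (-Real.pi)..Real.pi, (θ * I : ℂ) * SA.hF 1 κ (θ * I) * I := by
      have cA' : Continuous fun θ : ℝ => -(a * F 0) * ((1 : ℂ) * SA.hF 1 κ (θ * I) * I) :=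
        continuous_const.mul cA
      have cB' : Continuous fun θ : ℝ => -(a * cc) * ((θ * I : ℂ) * SA.hF 1 κ (θ * I) * I) :=
        continuous_const.mul cB
      rw [← intervalIntegral.integral_const_mul, ← intervalIntegral.integral_const_mul,
        ← intervalIntegral.integral_add (cA'.intervalIntegrable _ _)
          (cB'.intervalIntegrable _ _)]
      refine intervalIntegral.integral_congr fun θ _ => ?_
      ring
    have e2 : ∀ c : ℂ, (c = Real.pi * I ∨ c = -(Real.pi * I)) →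
        (∫ ρ in Ioi (0 : ℝ), -(a * (F 0 + cc * (ρ + c))) * SA.hF 1 κ (ρ + c)) =
        -(a * F 0) * (∫ ρ in Ioi (0 : ℝ), (1 : ℂ) * SA.hF 1 κ (ρ + c)) +
        -(a * cc) * ∫ ρ in Ioi (0 : ℝ), (ρ + c : ℂ) * SA.hF 1 κ (ρ + c) := by
      intro c hc
      have w := w_int wt_id hc 1 κ
      rw [← integral_const_mul, ← integral_const_mul,
        ← integral_add (w.2.const_mul _) (w.1.const_mul _)]
      refine integral_congr_ae (Eventually.of_forall fun ρ => ?_)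
      show _ = _ + _
      ring
    rw [e1, e2 _ (Or.inl rfl), e2 _ (Or.inr rfl)] at hmain
    have h1 : HW (fun _ => 1) 1 κ = 0 := by rw [HW_one]; exact hH
    unfold HW at h1
    have ha0 : (a : ℂ) ≠ 0 := ofReal_ne_zero.2 ha.ne'
    have h2 : (a : ℂ) * (cc * HD 1 κ) = 0 := by
      unfold HD HW
      linear_combination (-1 : ℂ) * hmain - a * F 0 * h1
    exact (mul_eq_zero.1 h2).resolve_left ha0
  · refine Eventually.of_forall fun τ => ?_
    have e : Λ - 1 + Real.log τ + 1 = Λ + Real.log τ := by ring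
    rw [e]
    have h1 : DifferentiableOn ℂ (SA.hF 1 κ) (re ⁻¹' Iio (Λ + Real.log τ)) := fun y _ =>
      (hF_dy 1 κ y).differentiableAt.differentiableWithinAt
    exact ((Kj_diff (a := a) hTd 0 τ).sub (h1.const_mul _)).const_mul _
  · intro y
    obtain ⟨hz1, hz2⟩ := zc_lim (a := a) (cc := cc) hq hFc y
    have h3 : Tendsto (fun τ : ℝ => (τ : ℂ) * (exp (zc a F q cc τ y) - 1 - zc a F q cc τ y)) atTop
        (𝓝 0) := by
      have h4 : Tendsto (fun τ => τ * eta a B cc τ ^ 2 * Real.exp 1) atTop (𝓝 0) := by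
        have := (eta_sq_lim (a := a) (cc := cc) B).mul_const (Real.exp 1)
        rwa [zero_mul] at this
      refine squeeze_zero_norm' ?_ h4
      filter_upwards [lt_all (a := a) (Λ := Λ) (cc := cc) B,
        Real.tendsto_log_atTop.eventually_ge_atTop (‖y‖),
        Real.tendsto_log_atTop.eventually_ge_atTop (y.re - (Λ - 1))] with τ h h5 h6
      have hz := zc_bd (cc := cc) ha hB0 h.h0 h.hl (y := y) (by linarith [h.hl])
        (hB _ (tj_mem hq 0 (by linarith)))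
      rw [norm_mul, norm_real, Real.norm_of_nonneg h.h0.le]
      have h1 := exp_two_bd (zc a F q cc τ y)
      have h0 := h.h0
      calc τ * ‖exp (zc a F q cc τ y) - 1 - zc a F q cc τ y‖
          ≤ τ * (‖zc a F q cc τ y‖ ^ 2 * Real.exp ‖zc a F q cc τ y‖) := by gcongr
        _ ≤ τ * (eta a B cc τ ^ 2 * Real.exp 1) := by
            have := h.he
            gcongr
            linarith
        _ = _ := by ring
    have h4 := (h3.add hz2).const_mul (SA.hF 1 κ y)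
    rw [zero_add, mul_comm (SA.hF 1 κ y) (-(a * (F 0 + cc * y)))] at h4
    refine h4.congr' ?_
    filter_upwards [Real.tendsto_log_atTop.eventually_gt_atTop (y.re - Λ),
      eventually_gt_atTop 0] with τ h3 h4
    exact (hR τ h4 y (by linarith)).symm
  · filter_upwards [lt_all (a := a) (Λ := Λ) (cc := cc) B] with τ h θ hθ
    obtain ⟨h1, h2⟩ := arc_pt h hθ
    refine (hRb τ h _ h1 h2).trans ?_
    have h3 := arc_bd 1 κ θ
    have h4 : ‖(θ * I : ℂ)‖ ≤ Real.pi := by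
      rw [norm_mul, norm_I, mul_one, norm_real, Real.norm_eq_abs]
      exact abs_le.2 ⟨hθ.1, hθ.2⟩
    gcongr
  · have key : ∀ c : ℂ, (c = Real.pi * I ∨ c = -(Real.pi * I)) → ∀ τ, Lt a Λ B cc τ →
        ∀ ρ ∈ Ioc 0 (Λ - 1 + Real.log τ), ‖R τ (ρ + c)‖ ≤
          Real.exp ‖κ‖ * (Real.exp 1 + a * (B + ‖cc‖ * (1 + Real.pi))) * gs 2 ρ := by
      intro c hc τ h ρ hρ
      obtain ⟨h1, h2⟩ := ray_pt h hc hρ
      refine (hRb τ h _ h1 h2).trans ?_
      have h3 := hF_ray (ce_of hc).1 (ce_of hc).2 1 κ hρ.1.le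
      have h4 : ‖(ρ + c : ℂ)‖ ≤ (1 + Real.pi) * Real.exp ρ := by
        refine (norm_add_le _ _).trans ?_
        rw [norm_real, Real.norm_of_nonneg hρ.1.le, pi_norm hc]
        have h5 := Real.add_one_le_exp ρ
        have h6 := Real.one_le_exp hρ.1.le
        nlinarith [Real.pi_pos]
      have h5 : Real.exp 1 + a * (B + ‖cc‖ * ‖(ρ + c : ℂ)‖) ≤
          (Real.exp 1 + a * (B + ‖cc‖ * (1 + Real.pi))) * Real.exp ρ := by
        have h6 := Real.one_le_exp hρ.1.le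
        have h7 : Real.exp 1 ≤ Real.exp 1 * Real.exp ρ :=
          le_mul_of_one_le_right (Real.exp_pos _).le h6
        have h8 : B ≤ B * Real.exp ρ := le_mul_of_one_le_right hB0 h6
        have h9 : ‖cc‖ * ‖(ρ + c : ℂ)‖ ≤ ‖cc‖ * ((1 + Real.pi) * Real.exp ρ) := by gcongr
        have h10 : a * (B + ‖cc‖ * ‖(ρ + c : ℂ)‖) ≤
            a * (B * Real.exp ρ + ‖cc‖ * ((1 + Real.pi) * Real.exp ρ)) := by gcongr
        linarith
      have h6 : Real.exp ρ * gs 1 ρ = gs 2 ρ := by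
        rw [gs_mul]; norm_num
      have h7 := (gs_pos 1 ρ).le
      calc ‖SA.hF 1 κ (ρ + c)‖ * (Real.exp 1 + a * (B + ‖cc‖ * ‖(ρ + c : ℂ)‖))
          ≤ (Real.exp ‖κ‖ * gs 1 ρ) *
            ((Real.exp 1 + a * (B + ‖cc‖ * (1 + Real.pi))) * Real.exp ρ) := by gcongr
        _ = Real.exp ‖κ‖ * (Real.exp 1 + a * (B + ‖cc‖ * (1 + Real.pi))) *
            (Real.exp ρ * gs 1 ρ) := by ring
        _ = _ := by rw [h6]
    filter_upwards [lt_all (a := a) (Λ := Λ) (cc := cc) B] with τ h ρ hρ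
    exact ⟨key _ (Or.inl rfl) τ h ρ hρ, key _ (Or.inr rfl) τ h ρ hρ⟩
  · have h1 := Kj_far hJB hΛ1 0 1
    refine h1.congr' ?_
    filter_upwards [lt_all (a := a) (Λ := Λ) (cc := cc) B] with τ h
    have hV : Convex ℝ (re ⁻¹' Iio (Λ + Real.log τ) : Set ℂ) := convex_halfSpace_re_lt _
    have hd1 : DifferentiableOn ℂ (SA.hF 1 κ) (re ⁻¹' Iio (Λ + Real.log τ)) := fun y _ =>
      (hF_dy 1 κ y).differentiableAt.differentiableWithinAt
    have h2 := seg_lin hV (Kj_diff (a := a) hTd 0 τ)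
      (hd1.const_mul (1 + a * cc * ((Real.log τ / τ : ℝ) : ℂ))) (τ : ℂ)
      (p := ((Λ - 1 + Real.log τ : ℝ) : ℂ) + -(Real.pi * I))
      (x := ((Λ - 1 + Real.log τ : ℝ) : ℂ) + Real.pi * I)
      (by rw [mem_preimage, ray_re pi_re', mem_Iio]; linarith)
      (by rw [mem_preimage, ray_re pi_re, mem_Iio]; linarith)
    have h3 : seg (fun y => (1 + a * cc * ((Real.log τ / τ : ℝ) : ℂ)) * SA.hF 1 κ y)
        (((Λ - 1 + Real.log τ : ℝ) : ℂ) + -(Real.pi * I))
        (((Λ - 1 + Real.log τ : ℝ) : ℂ) + Real.pi * I) = 0 := by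
      have h4 := hF_period κ h.hM
      rw [hH] at h4
      have h5 : seg (fun y => (1 + a * cc * ((Real.log τ / τ : ℝ) : ℂ)) * SA.hF 1 κ y)
          (((Λ - 1 + Real.log τ : ℝ) : ℂ) + -(Real.pi * I))
          (((Λ - 1 + Real.log τ : ℝ) : ℂ) + Real.pi * I) =
          (1 + a * cc * ((Real.log τ / τ : ℝ) : ℂ)) * seg (SA.hF 1 κ)
          (((Λ - 1 + Real.log τ : ℝ) : ℂ) + -(Real.pi * I))
          (((Λ - 1 + Real.log τ : ℝ) : ℂ) + Real.pi * I) := by
        unfold seg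
        rw [← intervalIntegral.integral_const_mul]
        refine intervalIntegral.integral_congr fun t _ => ?_
        ring
      rw [h5, h4, mul_zero]
    show _ = seg (R τ) _ _
    rw [h2, h3, sub_zero, Real.rpow_one]

/-- **No logarithms.** -/
theorem no_log (ha : 0 < a) (hq : 0 < q) (hJB : JB a Λ T)
    (hTd : DifferentiableOn ℂ T (re ⁻¹' Iio Λ))
    (hF : DifferentiableOn ℂ F (ball 0 (Real.exp (Λ / q)))) (he0 : e0 ≠ 0)
    (hT : ∀ σ : ℂ, σ.re < Λ → T σ = e0 * exp (-σ) + F (exp (σ / q)) + cc * σ) : cc = 0 := by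
  have h1 := lev_log ha hq hJB hTd hF hT
  refine (mul_eq_zero.1 h1).resolve_right ?_
  exact HD_ne (mul_ne_zero (ofReal_ne_zero.2 ha.ne') he0) (lev_one ha hq hJB hTd hF hT)

end Pool.Agent.E8helper32.SL
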