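import Pool.Agent.E8helper32.SL.Ju

/-!
# Essential singularities with a logarithm: the data at one radius
-/

set_option autoImplicit false

open Complex MeasureTheory Metric Set Filter Topology ComplexConjugate

namespace Pool.Agent.E8helper32.SL

open Pool.Agent.Y245.SC
open Pool.Agent.Y441.ES (radius_ge eta_lt eta_mem deriv_le)
open Pool.Agent.E8helper32.SA (Ji JB Ji_diff gauss_ne ray_re theta_re pi_re pi_re' exp_pi exp_pi'
  seg_arc seg_ray seg_symm)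

variable {a Λ : ℝ} {T X : ℂ → ℂ} {cc : ℂ} {N : ℕ} {r : ℝ} {ζm : ℂ} {H : ℂ → ℂ} {η A : ℝ}

/-- the maximum principle in an annulus -/
theorem max_ann (hX : DifferentiableOn ℂ X (ball 0 (Real.exp Λ) \ {0})) :
    ∃ B0 : ℝ, ∀ (r m : ℝ), 0 < r → 0 < Λ - 1 + Real.log r → B0 ≤ m →
      (∀ ζ : ℂ, ‖ζ‖ = r → ‖X (1 / ζ)‖ ≤ m) →
      ∀ x : ℂ, 1 / r ≤ ‖x‖ → ‖x‖ ≤ Real.exp (Λ - 1) → ‖X x‖ ≤ m := by
  have hΛ : Real.exp (Λ - 1) < Real.exp Λ := Real.exp_lt_exp.2 (by linarith)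
  obtain ⟨B0, hB0⟩ := (isCompact_sphere (0 : ℂ) (Real.exp (Λ - 1))).exists_bound_of_continuousOn
    (f := X) (hX.continuousOn.mono (by
      intro x hx
      rw [mem_sphere_zero_iff_norm] at hx
      refine ⟨by rw [mem_ball_zero_iff, hx]; exact hΛ, ?_⟩
      rintro rfl
      rw [norm_zero] at hx
      exact (Real.exp_pos _).ne hx))
  refine ⟨B0, fun r m hr hM hBm hm x hx1 hx2 => ?_⟩
  have hr' : 0 < 1 / r := by positivity
  have hlt : 1 / r < Real.exp (Λ - 1) := by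
    rw [← Real.log_lt_iff_lt_exp hr', one_div, Real.log_inv]
    linarith
  have hs1 : ∀ z : ℂ, ‖z‖ = 1 / r → ‖X z‖ ≤ m := by
    intro z hz
    have h1 := hm (1 / z) (by rw [norm_div, norm_one, hz, one_div_one_div])
    rwa [one_div_one_div] at h1
  have hs2 : ∀ z : ℂ, ‖z‖ = Real.exp (Λ - 1) → ‖X z‖ ≤ m := fun z hz =>
    (hB0 z (by rw [mem_sphere_zero_iff_norm]; exact hz)).trans hBm
  rcases hx1.eq_or_lt with h1 | h1
  · exact hs1 x h1.symm
  rcases hx2.eq_or_lt with h2 | h2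
  · exact hs2 x h2
  set U : Set ℂ := ball 0 (Real.exp (Λ - 1)) \ closedBall 0 (1 / r) with hU
  have hxU : x ∈ U := ⟨by rwa [mem_ball_zero_iff], by
    rw [mem_closedBall_zero_iff, not_le]; exact h1⟩
  have hcl : closure U ⊆ ball 0 (Real.exp Λ) \ {0} := by
    have h3 : U ⊆ closedBall 0 (Real.exp (Λ - 1)) ∩ (ball 0 (1 / r))ᶜ := by
      intro z hz
      refine ⟨ball_subset_closedBall hz.1, fun h => hz.2 (ball_subset_closedBall h)⟩
    have h4 : IsClosed (closedBall (0 : ℂ) (Real.exp (Λ - 1)) ∩ (ball 0 (1 / r))ᶜ) :=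
      isClosed_closedBall.inter isOpen_ball.isClosed_compl
    refine (closure_minimal h3 h4).trans ?_
    rintro z ⟨hz1, hz2⟩
    rw [mem_closedBall_zero_iff] at hz1
    refine ⟨by rw [mem_ball_zero_iff]; linarith, ?_⟩
    rintro rfl
    exact hz2 (mem_ball_self hr')
  refine Complex.norm_le_of_forall_mem_frontier_norm_le (U := U)
    (isBounded_ball.subset sdiff_subset) (hX.mono hcl).diffContOnCl ?_ (subset_closure hxU)
  intro z hz
  have h3 : frontier U ⊆ frontier (ball (0 : ℂ) (Real.exp (Λ - 1))) ∪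
      frontier (closedBall (0 : ℂ) (1 / r)) := by
    rw [hU, sdiff_eq]
    refine (frontier_inter_subset _ _).trans ?_
    rw [frontier_compl]
    exact union_subset_union inter_subset_left inter_subset_right
  rcases h3 hz with h4 | h4
  · rw [frontier_ball _ (Real.exp_pos _).ne', mem_sphere_zero_iff_norm] at h4
    exact hs2 z h4
  · rw [frontier_closedBall _ hr'.ne', mem_sphere_zero_iff_norm] at h4
    exact hs1 z h4

/-- the point `ζs` -/
noncomputable def zz (ζm : ℂ) (η : ℝ) : ℂ := ζm * exp (η * I)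

/-- the number `Nc` -/
noncomputable def Nn (N : ℕ) (H : ℂ → ℂ) (η : ℝ) : ℂ := N + deriv H (η * I)

/-- the value at `ζs` -/
noncomputable def ff (X : ℂ → ℂ) (ζm : ℂ) (η : ℝ) : ℂ := X (0 + 1 / zz ζm η)

/-- the base point -/
noncomputable def ss (ζm : ℂ) (η : ℝ) : ℂ := log (1 / zz ζm η)

/-- the parameter `α` -/
noncomputable def aa (ζm : ℂ) (η A : ℝ) : ℂ := A * zz ζm η

/-- the data at one radius -/
structure Dt (a Λ : ℝ) (cc : ℂ) (X : ℂ → ℂ) (N : ℕ) (r : ℝ) (ζm : ℂ) (H : ℂ → ℂ)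
    (η A : ℝ) : Prop where
  ha : 0 < a
  hN : 65536 ≤ N
  hr : 1 ≤ r
  hX : DifferentiableOn ℂ X (ball 0 (Real.exp Λ) \ {0})
  hW : WV (fun ζ => X (0 + 1 / ζ)) N r ζm H
  hη : |η| ≤ Real.pi / N * (1 + (N : ℝ) ^ (-(1 / 4 : ℝ)))
  hA : 0 < A
  hA2 : (A : ℂ) ^ 2 = -(a * ff X ζm η * Nn N H η / zz ζm η)
  hA4 : (N : ℝ) ^ 4 * r ^ 4 ≤ A
  p1 : ∀ θ : ℝ, |θ| ≤ 1 / N →
    (PP 0 id (fun ζ => X (0 + 1 / ζ)) N H ζm η θ).re ≤ -(N * θ ^ 2 / 8)
  p2 : ∀ θ : ℝ, 1 / (N : ℝ) ≤ |θ| → |θ| ≤ Real.pi →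
    (PP 0 id (fun ζ => X (0 + 1 / ζ)) N H ζm η θ).re ≤ -(θ ^ 2 / 16)
  hM : 0 < Λ - 1 + Real.log r
  hmax : ∀ x : ℂ, 1 / r ≤ ‖x‖ → ‖x‖ ≤ Real.exp (Λ - 1) → ‖X x‖ ≤ ‖X (0 + 1 / ζm)‖
  he : a * ‖cc‖ * (10 + |Λ|) ≤ A

theorem Dt.zn (D : Dt a Λ cc X N r ζm H η A) : ‖zz ζm η‖ = r := by
  unfold zz
  rw [norm_mul, norm_exp_ofReal_mul_I, mul_one, D.hW.2.1]

theorem Dt.r0 (D : Dt a Λ cc X N r ζm H η A) : 0 < r := by linarith [D.hr]

theorem Dt.z0 (D : Dt a Λ cc X N r ζm H η A) : zz ζm η ≠ 0 := by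
  rw [← norm_pos_iff, D.zn]
  exact D.r0

theorem Dt.Nr (D : Dt a Λ cc X N r ζm H η A) : (65536 : ℝ) ≤ N := by exact_mod_cast D.hN

theorem Dt.Nb (D : Dt a Λ cc X N r ζm H η A) : (N : ℝ) / 2 ≤ ‖Nn N H η‖ := by
  obtain ⟨-, -, -, -, hH, -, hH1, -⟩ := D.hW
  have h5 := deriv_le D.hN hH hH1 D.hη
  have h6 := norm_sub_le_norm_add (N : ℂ) (deriv H (η * I))
  rw [Complex.norm_natCast] at h6
  unfold Nn
  linarith

theorem Dt.N0 (D : Dt a Λ cc X N r ζm H η A) : Nn N H η ≠ 0 := by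
  rw [← norm_pos_iff]
  linarith [D.Nb, D.Nr]

theorem Dt.fm (D : Dt a Λ cc X N r ζm H η A) : ‖X (0 + 1 / ζm)‖ ≤ 3 * ‖ff X ζm η‖ := by
  obtain ⟨-, -, -, -, -, -, hH1, hHf⟩ := D.hW
  have h1 := hHf _ (eta_mem D.hN D.hη)
  simp only at h1
  have h2 : 1 / 3 ≤ ‖exp (N * (η * I) + H (η * I))‖ := by
    rw [Complex.norm_exp]
    have h3 : (N * (η * I) + H (η * I) : ℂ).re = (H (η * I)).re := by simp
    rw [h3]
    have h4 : -1 ≤ (H (η * I)).re := by
      have := (abs_le.mp ((Complex.abs_re_le_norm _).trans (hH1 _ (eta_mem D.hN D.hη)))).1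
      exact this
    have h5 : Real.exp (-1) ≤ Real.exp ((H (η * I)).re) := Real.exp_le_exp.mpr h4
    have h6 : (1 : ℝ) / 3 ≤ Real.exp (-1) := by
      rw [Real.exp_neg, one_div]
      apply inv_anti₀ (Real.exp_pos 1)
      linarith [Real.exp_one_lt_d9]
    linarith
  unfold ff zz
  rw [h1, norm_mul]
  have h3 := norm_nonneg (X (0 + 1 / ζm))
  nlinarith

theorem Dt.f0 (D : Dt a Λ cc X N r ζm H η A) : ff X ζm η ≠ 0 := by
  intro h
  have h1 := D.fm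
  rw [h, norm_zero, mul_zero] at h1
  exact D.hW.2.2.1 (norm_le_zero_iff.1 h1)

theorem Dt.ss_exp (D : Dt a Λ cc X N r ζm H η A) : exp (ss ζm η) = 1 / zz ζm η :=
  exp_log (one_div_ne_zero D.z0)

theorem Dt.ss_re (D : Dt a Λ cc X N r ζm H η A) : (ss ζm η).re = -Real.log r := by
  unfold ss
  rw [log_re, norm_div, norm_one, D.zn, one_div, Real.log_inv]

theorem ss_im : |(ss ζm η).im| ≤ Real.pi := by
  unfold ss
  rw [log_im]
  exact abs_arg_le_pi _

theorem Dt.exp_ss (D : Dt a Λ cc X N r ζm H η A) (y : ℂ) :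
    exp (ss ζm η + y) = exp y / zz ζm η := by
  rw [exp_add, D.ss_exp]
  ring

theorem Dt.Ac (D : Dt a Λ cc X N r ζm H η A) : (A : ℂ) ≠ 0 := ofReal_ne_zero.2 D.hA.ne'

theorem Dt.af (D : Dt a Λ cc X N r ζm H η A) :
    a / aa ζm η A * ff X ζm η = -(A / Nn N H η) := by
  unfold aa
  have h1 := D.hA2
  have h2 := D.z0
  have h3 := D.N0
  have h4 := D.Ac
  field_simp at h1 ⊢
  linear_combination h1

/-- the exponent of the logarithm -/
noncomputable def er2 (a : ℝ) (cc ζm : ℂ) (η A : ℝ) (y : ℂ) : ℂ :=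
  exp (-(a / aa ζm η A * (cc * (ss ζm η + y))))

theorem Dt.J (D : Dt a Λ cc X N r ζm H η A)
    (hT : ∀ σ : ℂ, σ.re < Λ → T σ = X (exp σ) + cc * σ) {y : ℂ} (hy : (ss ζm η + y).re < Λ) :
    Ji a T (aa ζm η A) (ss ζm η + y) = exp (A * exp y + A / Nn N H η *
      (X (exp y / zz ζm η) / ff X ζm η)) * er2 a cc ζm η A y * (exp y / zz ζm η) := by
  unfold Ji er2
  rw [hT _ hy, D.exp_ss, ← exp_add]
  congr 2
  have h1 : aa ζm η A * (exp y / zz ζm η) = A * exp y := by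
    unfold aa
    have := D.z0
    field_simp
  have h2 : a / aa ζm η A * X (exp y / zz ζm η) = -(A / Nn N H η *
      (X (exp y / zz ζm η) / ff X ζm η)) := by
    have h3 := D.f0
    have h4 : X (exp y / zz ζm η) = ff X ζm η * (X (exp y / zz ζm η) / ff X ζm η) := by
      field_simp
    rw [h4, ← mul_assoc, D.af, ← h4]
    ring
  rw [h1, mul_add, h2]
  ring

theorem Dt.PPe (D : Dt a Λ cc X N r ζm H η A) (θ : ℝ) :
    PP 0 id (fun ζ => X (0 + 1 / ζ)) N H ζm η θ = (exp (θ * I) - 1) +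
      (X (exp (θ * I) / zz ζm η) / ff X ζm η - 1) / Nn N H η := by
  have h0 := D.z0
  have h2 : (0 + 1 / (zz ζm η * exp (-(θ * I))) : ℂ) = exp (θ * I) / zz ζm η := by
    rw [zero_add, Complex.exp_neg]
    have := Complex.exp_ne_zero (θ * I)
    field_simp
  have h3 : (id (0 + exp (θ * I) / zz ζm η) - id (0 + 1 / zz ζm η)) * zz ζm η /
      deriv (id : ℂ → ℂ) (0 + 1 / zz ζm η) = exp (θ * I) - 1 := by
    have h1 : deriv (id : ℂ → ℂ) (0 + 1 / zz ζm η) = 1 := deriv_id _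
    rw [h1]
    simp only [id]
    field_simp
    ring
  have h4 : PP 0 id (fun ζ => X (0 + 1 / ζ)) N H ζm η θ =
      (id (0 + exp (θ * I) / zz ζm η) - id (0 + 1 / zz ζm η)) * zz ζm η /
      deriv (id : ℂ → ℂ) (0 + 1 / zz ζm η) +
      (X (0 + 1 / (zz ζm η * exp (-(θ * I)))) / ff X ζm η - 1) / Nn N H η := rfl
  rw [h4, h3, h2]

/-- the normalisation -/
noncomputable def Ww (N : ℕ) (H : ℂ → ℂ) (ζm : ℂ) (η A : ℝ) : ℂ :=
  √(A * N) * zz ζm η * exp (-(A + A / Nn N H η))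

theorem Dt.theta (D : Dt a Λ cc X N r ζm H η A) (θ : ℝ) : (ss ζm η + θ * I).re < Λ := by
  rw [add_re, D.ss_re, theta_re]
  linarith [D.hM]

theorem Dt.arc (D : Dt a Λ cc X N r ζm H η A)
    (hT : ∀ σ : ℂ, σ.re < Λ → T σ = X (exp σ) + cc * σ) :
    Ww N H ζm η A * ∫ θ in (-Real.pi)..Real.pi, Ji a T (aa ζm η A) (ss ζm η + θ * I) * I =
      I * (√(A * N) * ∫ θ in (-Real.pi)..Real.pi,
        exp (A * PP 0 id (fun ζ => X (0 + 1 / ζ)) N H ζm η θ) *
        (exp (θ * I) * er2 a cc ζm η A (θ * I))) := by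
  rw [← intervalIntegral.integral_const_mul, ← mul_assoc, ← intervalIntegral.integral_const_mul]
  refine intervalIntegral.integral_congr fun θ _ => ?_
  have h0 := D.z0
  rw [D.J hT (D.theta θ)]
  unfold Ww
  have e1 : exp (A * PP 0 id (fun ζ => X (0 + 1 / ζ)) N H ζm η θ) =
      exp (-(A + A / Nn N H η)) * exp (A * exp (θ * I) + A / Nn N H η *
      (X (exp (θ * I) / zz ζm η) / ff X ζm η)) := by
    rw [← exp_add, D.PPe]
    congr 1
    ring
  rw [e1]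
  field_simp

theorem Dt.er_bd (D : Dt a Λ cc X N r ζm H η A) {y : ℂ} (hy : ‖y‖ ≤ |Λ| + Real.log r + 4) :
    ‖a / aa ζm η A * (cc * (ss ζm η + y))‖ ≤ a * ‖cc‖ * (10 + |Λ|) / A := by
  have hr := D.r0
  have hA := D.hA
  have ha := D.ha
  unfold aa
  rw [norm_mul, norm_mul, norm_div, norm_mul, D.zn, norm_real, norm_real,
    Real.norm_of_nonneg ha.le, Real.norm_of_nonneg hA.le]
  have h1 : ‖ss ζm η‖ ≤ Real.log r + 4 := by
    refine (norm_le_abs_re_add_abs_im _).trans ?_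
    rw [D.ss_re, abs_neg, abs_of_nonneg (Real.log_nonneg D.hr)]
    have := ss_im (ζm := ζm) (η := η)
    linarith [Real.pi_lt_four]
  have h2 : ‖ss ζm η + y‖ ≤ (10 + |Λ|) * r := by
    refine (norm_add_le _ _).trans ?_
    have h3 := Real.log_le_sub_one_of_pos hr
    have h4 : 1 ≤ r := D.hr
    have h5 : |Λ| ≤ |Λ| * r := le_mul_of_one_le_right (abs_nonneg _) h4
    linarith
  calc a / (A * r) * (‖cc‖ * ‖ss ζm η + y‖) ≤ a / (A * r) * (‖cc‖ * ((10 + |Λ|) * r)) := by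
        gcongr
    _ = _ := by field_simp

theorem Dt.re_Nn (D : Dt a Λ cc X N r ζm H η A) : ‖(A / Nn N H η : ℂ)‖ ≤ A / 100 := by
  have hA := D.hA
  rw [norm_div, norm_real, Real.norm_of_nonneg hA.le]
  have h1 := D.Nb
  have h2 := D.Nr
  have h3 : 100 ≤ ‖Nn N H η‖ := by linarith
  gcongr

theorem Dt.W_norm (D : Dt a Λ cc X N r ζm H η A) :
    ‖Ww N H ζm η A‖ ≤ A * r * Real.exp (-(3 / 4 * A)) := by
  have hA := D.hA
  have hr := D.hr
  unfold Ww
  rw [norm_mul, norm_mul, D.zn, norm_real, Real.norm_of_nonneg (Real.sqrt_nonneg _), norm_exp]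
  have h1 : √(A * N) ≤ A := by
    rw [Real.sqrt_le_left hA.le, sq]
    have h2 : (N : ℝ) ≤ A := by
      refine le_trans ?_ D.hA4
      have h3 : (1 : ℝ) ≤ N := by linarith [D.Nr]
      have h4 : (N : ℝ) ≤ (N : ℝ) ^ 4 := by
        calc (N : ℝ) = (N : ℝ) ^ 1 := (pow_one _).symm
          _ ≤ (N : ℝ) ^ 4 := pow_le_pow_right₀ h3 (by norm_num)
      have h5 : (1 : ℝ) ≤ r ^ 4 := one_le_pow₀ hr
      nlinarith [pow_pos (by linarith : (0 : ℝ) < N) 4]
    gcongr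
  have h2 : (-((A : ℂ) + A / Nn N H η)).re ≤ -(3 / 4 * A) := by
    rw [neg_re, add_re, ofReal_re]
    have h3 := (abs_le.1 ((abs_re_le_norm _).trans D.re_Nn)).1
    linarith
  gcongr

theorem Dt.ray (D : Dt a Λ cc X N r ζm H η A)
    (hT : ∀ σ : ℂ, σ.re < Λ → T σ = X (exp σ) + cc * σ) {c : ℂ}
    (hc : c = Real.pi * I ∨ c = -(Real.pi * I)) :
    ‖Ww N H ζm η A * ∫ ρ in (0 : ℝ)..(Λ - 1 + Real.log r), Ji a T (aa ζm η A)
      (ss ζm η + (ρ + c))‖ ≤
      Real.exp 1 * Real.exp (Λ - 1) * Real.exp (Λ - 1) * (A ^ 2 * Real.exp (-(A / 2))) := by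
  obtain ⟨hc0, hce⟩ := ce_of hc
  have hcn := pi_norm hc
  have hr := D.r0
  have hA := D.hA
  set M := Λ - 1 + Real.log r with hMdef
  have hM : 0 < M := D.hM
  have hMe : Real.exp M = Real.exp (Λ - 1) * r := by
    rw [hMdef, Real.exp_add, Real.exp_log hr]
  have h1 : ‖∫ ρ in (0 : ℝ)..M, Ji a T (aa ζm η A) (ss ζm η + (ρ + c))‖ ≤
      (Real.exp (-(3 / 4 * A)) * Real.exp 1 * Real.exp (Λ - 1)) * |M - 0| := by
    refine intervalIntegral.norm_integral_le_of_norm_le_const fun ρ hρ => ?_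
    rw [uIoc_of_le hM.le] at hρ
    have hy : (ss ζm η + (ρ + c)).re < Λ := by
      rw [add_re, D.ss_re, ray_re hc0]; linarith [hρ.2]
    have her : ‖er2 a cc ζm η A (ρ + c)‖ ≤ Real.exp 1 := by
      refine er_one ((D.er_bd ?_).trans ((div_le_one hA).2 D.he))
      refine (norm_add_le _ _).trans ?_
      rw [norm_real, Real.norm_of_nonneg hρ.1.le, hcn]
      have := le_abs_self Λ
      have := Real.pi_lt_four
      linarith [hρ.2]
    have hen : ‖(exp (ρ + c) : ℂ)‖ = Real.exp ρ := by rw [norm_exp, ray_re hc0]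
    have hX : ‖X (exp (ρ + c) / zz ζm η) / ff X ζm η‖ ≤ 3 := by
      have h2 := D.hmax (exp (ρ + c) / zz ζm η) (by
        rw [norm_div, hen, D.zn]
        have := Real.one_le_exp hρ.1.le
        gcongr) (by
        rw [norm_div, hen, D.zn, div_le_iff₀ hr, ← hMe]
        exact Real.exp_le_exp.2 hρ.2)
      have h3 := norm_pos_iff.2 D.f0
      rw [norm_div, div_le_iff₀ h3]
      exact h2.trans D.fm
    rw [D.J hT hy, norm_mul, norm_mul, norm_exp, norm_div, hen, D.zn]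
    have h2 : ((A : ℂ) * exp (ρ + c) + A / Nn N H η *
        (X (exp (ρ + c) / zz ζm η) / ff X ζm η)).re ≤ -(3 / 4 * A) := by
      rw [hce, add_re, ← ofReal_mul, ofReal_re]
      have h3 : (A / Nn N H η * (X (exp (ρ + c) / zz ζm η) / ff X ζm η)).re ≤ A / 100 * 3 := by
        refine (re_le_norm _).trans ?_
        rw [norm_mul]
        have := D.re_Nn
        gcongr
      have h4 : 1 ≤ Real.exp ρ := Real.one_le_exp hρ.1.le
      rw [hce] at h3
      nlinarith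
    have h3 : Real.exp ρ / r ≤ Real.exp (Λ - 1) := by
      rw [div_le_iff₀ hr, ← hMe]
      exact Real.exp_le_exp.2 hρ.2
    gcongr
  have h2 := D.W_norm
  have h3 : M ≤ Real.exp M := by linarith [Real.add_one_le_exp M]
  rw [sub_zero, abs_of_pos hM] at h1
  rw [norm_mul]
  have h4 : r * r ≤ A := by
    refine le_trans ?_ D.hA4
    have h5 : (1 : ℝ) ≤ (N : ℝ) ^ 4 := one_le_pow₀ (by linarith [D.Nr])
    have h6 : r * r ≤ r ^ 4 := by
      have := D.hr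
      calc r * r = r ^ 2 := by ring
        _ ≤ r ^ 4 := pow_le_pow_right₀ this (by norm_num)
    nlinarith [pow_pos hr 4]
  have h5 : Real.exp (-(3 / 4 * A)) * Real.exp (-(3 / 4 * A)) ≤ Real.exp (-(A / 2)) := by
    rw [← Real.exp_add]
    exact Real.exp_le_exp.2 (by linarith)
  calc ‖Ww N H ζm η A‖ * ‖∫ ρ in (0 : ℝ)..M, Ji a T (aa ζm η A) (ss ζm η + (ρ + c))‖
      ≤ (A * r * Real.exp (-(3 / 4 * A))) *
        ((Real.exp (-(3 / 4 * A)) * Real.exp 1 * Real.exp (Λ - 1)) * (Real.exp (Λ - 1) * r)) := by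
        rw [← hMe]
        gcongr
        exact h1.trans (by gcongr)
    _ = Real.exp 1 * Real.exp (Λ - 1) * Real.exp (Λ - 1) * (A * (r * r) *
        (Real.exp (-(3 / 4 * A)) * Real.exp (-(3 / 4 * A)))) := by ring
    _ ≤ Real.exp 1 * Real.exp (Λ - 1) * Real.exp (Λ - 1) * (A * A * Real.exp (-(A / 2))) := by
        gcongr
    _ = _ := by ring

theorem Dt.far (D : Dt a Λ cc X N r ζm H η A) {C : ℝ}
    (hC : ∀ σ1 : ℂ, σ1.re = Λ - 1 → |σ1.im| ≤ 2 * Real.pi → ∀ α : ℂ, 1 ≤ ‖α‖ →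
      ‖seg (Ji a T α) σ1 (σ1 + 2 * Real.pi * I)‖ ≤ C * Real.exp ((α * exp σ1).re)) :
    ‖Ww N H ζm η A * seg (fun y => Ji a T (aa ζm η A) (ss ζm η + y))
      (((Λ - 1 + Real.log r : ℝ) : ℂ) + -(Real.pi * I))
      (((Λ - 1 + Real.log r : ℝ) : ℂ) + Real.pi * I)‖ ≤
      |C| * (A ^ 2 * Real.exp (-(A / 2))) := by
  have hr := D.r0
  have hA := D.hA
  set σ1 : ℂ := ss ζm η + (((Λ - 1 + Real.log r : ℝ) : ℂ) + -(Real.pi * I)) with hσ1
  have hre : σ1.re = Λ - 1 := by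
    rw [hσ1, add_re, D.ss_re, ray_re pi_re']; ring
  have him : |σ1.im| ≤ 2 * Real.pi := by
    have h1 : σ1.im = (ss ζm η).im - Real.pi := by
      rw [hσ1]; simp; ring
    rw [h1]
    have h2 := ss_im (ζm := ζm) (η := η)
    have h3 := abs_sub (ss ζm η).im Real.pi
    rw [abs_of_pos Real.pi_pos] at h3
    linarith
  have h1A : 1 ≤ A := by
    refine le_trans ?_ D.hA4
    have h5 : (1 : ℝ) ≤ (N : ℝ) ^ 4 := one_le_pow₀ (by linarith [D.Nr])
    have h6 : (1 : ℝ) ≤ r ^ 4 := one_le_pow₀ D.hr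
    nlinarith
  have hα : 1 ≤ ‖aa ζm η A‖ := by
    unfold aa
    rw [norm_mul, D.zn, norm_real, Real.norm_of_nonneg hA.le]
    nlinarith [D.hr]
  have e1 : seg (fun y => Ji a T (aa ζm η A) (ss ζm η + y))
      (((Λ - 1 + Real.log r : ℝ) : ℂ) + -(Real.pi * I))
      (((Λ - 1 + Real.log r : ℝ) : ℂ) + Real.pi * I) =
      seg (Ji a T (aa ζm η A)) σ1 (σ1 + 2 * Real.pi * I) := by
    unfold seg
    refine intervalIntegral.integral_congr fun t _ => ?_
    have e2 : (ss ζm η + ((((Λ - 1 + Real.log r : ℝ) : ℂ) + -(Real.pi * I)) +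
        t * ((((Λ - 1 + Real.log r : ℝ) : ℂ) + Real.pi * I) -
        (((Λ - 1 + Real.log r : ℝ) : ℂ) + -(Real.pi * I)))) : ℂ) =
        σ1 + t * (σ1 + 2 * Real.pi * I - σ1) := by
      rw [hσ1]
      ring
    have e3 : ((((Λ - 1 + Real.log r : ℝ) : ℂ) + Real.pi * I) -
        (((Λ - 1 + Real.log r : ℝ) : ℂ) + -(Real.pi * I)) : ℂ) =
        σ1 + 2 * Real.pi * I - σ1 := by
      ring
    simp only
    rw [e2, e3]
  have h1 := hC σ1 hre him _ hα
  have h2 : (aa ζm η A * exp σ1).re ≤ 0 := by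
    have e2 : aa ζm η A * exp σ1 = ((-(A * Real.exp (Λ - 1 + Real.log r)) : ℝ) : ℂ) := by
      rw [hσ1, D.exp_ss, exp_pi']
      unfold aa
      have := D.z0
      field_simp
      push_cast
      ring
    rw [e2, ofReal_re]
    have : 0 < A * Real.exp (Λ - 1 + Real.log r) := by positivity
    linarith
  have h3 : ‖seg (Ji a T (aa ζm η A)) σ1 (σ1 + 2 * Real.pi * I)‖ ≤ |C| := by
    refine h1.trans ?_
    calc C * Real.exp ((aa ζm η A * exp σ1).re)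
        ≤ |C| * Real.exp ((aa ζm η A * exp σ1).re) := by
          gcongr; exact le_abs_self C
      _ ≤ |C| * 1 := by gcongr; exact Real.exp_le_one_iff.2 h2
      _ = |C| := mul_one _
  rw [e1, norm_mul]
  have h4 := D.W_norm
  have h5 : r ≤ A := by
    refine le_trans ?_ D.hA4
    have h5 : (1 : ℝ) ≤ (N : ℝ) ^ 4 := one_le_pow₀ (by linarith [D.Nr])
    have h6 : r ≤ r ^ 4 := by
      calc r = r ^ 1 := (pow_one _).symm
        _ ≤ r ^ 4 := pow_le_pow_right₀ D.hr (by norm_num)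
    nlinarith [pow_pos hr 4]
  have h6 : Real.exp (-(3 / 4 * A)) ≤ Real.exp (-(A / 2)) := Real.exp_le_exp.2 (by linarith)
  calc ‖Ww N H ζm η A‖ * ‖seg (Ji a T (aa ζm η A)) σ1 (σ1 + 2 * Real.pi * I)‖
      ≤ (A * r * Real.exp (-(3 / 4 * A))) * |C| := by gcongr
    _ ≤ (A * A * Real.exp (-(A / 2))) * |C| := by gcongr
    _ = _ := by ring

end Pool.Agent.E8helper32.SL
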