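import Pool.Agent.E8helper32.SL.Ea

/-!
# Essential singularities with a logarithm are impossible
-/

set_option autoImplicit false

open Complex MeasureTheory Metric Set Filter Topology ComplexConjugate

namespace Pool.Agent.E8helper32.SL

open Pool.Agent.Y245.SC
open Pool.Agent.Y441.ES (radius_ge eta_lt eta_mem deriv_le)
open Pool.Agent.E8helper32.SA (Ji JB Ji_diff gauss_ne ray_re theta_re pi_re pi_re' exp_pi exp_pi'
  seg_arc seg_ray seg_symm)

variable {a Λ : ℝ} {T X : ℂ → ℂ} {cc : ℂ}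

/-- `A` is large -/
theorem A_ge2 {N : ℕ} {r : ℝ} {ζm : ℂ} {H : ℂ → ℂ} {η A : ℝ}
    (ha : 0 < a) (hN : 65536 ≤ N) (hr : 1 ≤ r)
    (hW : WV (fun ζ => X (0 + 1 / ζ)) N r ζm H)
    (hbig : (N : ℝ) ^ 9 * r ^ 9 ≤ ‖X (0 + 1 / ζm)‖)
    (hη : |η| ≤ Real.pi / N * (1 + (N : ℝ) ^ (-(1 / 4 : ℝ)))) (hA : 0 < A) (hNδ : 6 / a ≤ N)
    (hA2 : (A : ℂ) ^ 2 = -(a * ff X ζm η * Nn N H η / zz ζm η)) :
    (N : ℝ) ^ 4 * r ^ 4 ≤ A := by
  obtain ⟨hr0, hζr, hf0, -, hH, -, hH1, hHf⟩ := hW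
  have hN0 : (0 : ℝ) < N := by
    have : 0 < N := by omega
    exact_mod_cast this
  have hN1 : (65536 : ℝ) ≤ N := by exact_mod_cast hN
  have h1 := hHf _ (eta_mem hN hη)
  simp only at h1
  have h2 : ‖exp (N * (η * I) + H (η * I))‖ ≥ 1 / 3 := by
    rw [Complex.norm_exp]
    have h3 : (N * (η * I) + H (η * I) : ℂ).re = (H (η * I)).re := by simp
    rw [h3]
    have h4 : -1 ≤ (H (η * I)).re := by
      have := (abs_le.mp ((Complex.abs_re_le_norm _).trans (hH1 _ (eta_mem hN hη)))).1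
      exact this
    have h5 : Real.exp (-1) ≤ Real.exp ((H (η * I)).re) := Real.exp_le_exp.mpr h4
    have h6 : (1 : ℝ) / 3 ≤ Real.exp (-1) := by
      rw [Real.exp_neg, one_div]
      apply inv_anti₀ (Real.exp_pos 1)
      linarith [Real.exp_one_lt_d9]
    linarith
  have h3 : (N : ℝ) ^ 9 * r ^ 9 * (1 / 3) ≤ ‖ff X ζm η‖ := by
    unfold ff zz
    rw [h1, norm_mul]
    exact mul_le_mul hbig h2 (by norm_num) (norm_nonneg _)
  have h4 : (N : ℝ) / 2 ≤ ‖Nn N H η‖ := by
    have h5 := deriv_le hN hH hH1 hη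
    have h6 := norm_sub_le_norm_add (N : ℂ) (deriv H (η * I))
    rw [Complex.norm_natCast] at h6
    unfold Nn
    linarith
  have h5 : A ^ 2 = a * ‖ff X ζm η‖ * ‖Nn N H η‖ / r := by
    have h6 := congrArg norm hA2
    have h7 : ‖zz ζm η‖ = r := by
      unfold zz
      rw [norm_mul, norm_exp_ofReal_mul_I, mul_one, hζr]
    rw [norm_pow, norm_neg, norm_div, norm_mul, norm_mul, h7, norm_real, norm_real,
      Real.norm_of_nonneg hA.le, Real.norm_of_nonneg ha.le] at h6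
    exact h6
  have h6 : ((N : ℝ) ^ 4 * r ^ 4) ^ 2 ≤ A ^ 2 := by
    rw [h5, le_div_iff₀ hr0]
    have h7 : a * ((N : ℝ) ^ 9 * r ^ 9 * (1 / 3)) * (N / 2) ≤
        a * ‖ff X ζm η‖ * ‖Nn N H η‖ := by
      gcongr
    refine le_trans ?_ h7
    have h8 : 6 ≤ N * a := by
      rwa [div_le_iff₀ ha] at hNδ
    have h10 : (1 : ℝ) ≤ N := by linarith
    calc ((N : ℝ) ^ 4 * r ^ 4) ^ 2 * r = (N : ℝ) ^ 8 * r ^ 9 := by ring
      _ ≤ (N : ℝ) ^ 8 * r ^ 9 * (N * (N * a / 6)) := by
          apply le_mul_of_one_le_right (by positivity)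
          have : (1 : ℝ) ≤ N * a / 6 := by linarith
          nlinarith
      _ = a * ((N : ℝ) ^ 9 * r ^ 9 * (1 / 3)) * (N / 2) := by ring
  exact le_of_sq_le_sq h6 hA.le

/-- the dominating function -/
noncomputable def gd (u : ℝ) : ℝ := Real.exp (-(1 / 8) * u ^ 2) + 512 * (1 + u ^ 2)⁻¹

theorem gd_int : Integrable gd :=
  (integrable_exp_neg_mul_sq (by norm_num : (0 : ℝ) < 1 / 8)).add
    (integrable_inv_one_add_sq.const_mul 512)

theorem gd_pos (u : ℝ) : 0 ≤ gd u := by unfold gd; positivity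

theorem exp_abs_le (u : ℝ) : Real.exp (-(|u| / 16)) ≤ 512 * (1 + u ^ 2)⁻¹ := by
  have h1 := Real.quadratic_le_exp_of_nonneg (x := |u| / 16) (by positivity)
  rw [Real.exp_neg, ← div_eq_mul_inv, inv_eq_one_div, div_le_div_iff₀ (Real.exp_pos _)
    (by positivity)]
  have h2 : |u| ^ 2 = u ^ 2 := sq_abs u
  have h3 : (|u| / 16) ^ 2 = u ^ 2 / 256 := by rw [div_pow, h2]; norm_num
  rw [h3] at h1
  have h4 := abs_nonneg u
  nlinarith

variable {N : ℕ} {r : ℝ} {ζm : ℂ} {H : ℂ → ℂ} {η A : ℝ}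

theorem Dt.AN (D : Dt a Λ cc X N r ζm H η A) : (N : ℝ) ^ 4 ≤ A := by
  refine le_trans ?_ D.hA4
  exact le_mul_of_one_le_right (by positivity) (one_le_pow₀ D.hr)

theorem Dt.N1 (D : Dt a Λ cc X N r ζm H η A) : (1 : ℝ) ≤ N := by linarith [D.Nr]

theorem Dt.dom (D : Dt a Λ cc X N r ζm H η A) {θ : ℝ} (hθ : θ ∈ Icc (-Real.pi) Real.pi) :
    Real.exp ((A * PP 0 id (fun ζ => X (0 + 1 / ζ)) N H ζm η θ).re) ≤ gd (θ * √(A * N)) := by
  have hA := D.hA
  have hN1 := D.N1
  have hN0 : (0 : ℝ) < N := by linarith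
  rw [re_ofReal_mul]
  have hsq : √(A * N) ^ 2 = A * N := Real.sq_sqrt (by positivity)
  rcases le_total |θ| (1 / N) with h | h
  · have h1 := D.p1 θ h
    have h2 : A * (PP 0 id (fun ζ => X (0 + 1 / ζ)) N H ζm η θ).re ≤
        -(1 / 8) * (θ * √(A * N)) ^ 2 := by
      rw [mul_pow, hsq]
      have h3 := mul_le_mul_of_nonneg_left h1 hA.le
      linarith
    refine (Real.exp_le_exp.2 h2).trans ?_
    unfold gd
    have : 0 ≤ 512 * (1 + (θ * √(A * N)) ^ 2)⁻¹ := by positivity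
    linarith
  · have h1 := D.p2 θ h (abs_le.2 ⟨hθ.1, hθ.2⟩)
    have h2 : A * (PP 0 id (fun ζ => X (0 + 1 / ζ)) N H ζm η θ).re ≤
        -(|θ * √(A * N)| / 16) := by
      have h3 := mul_le_mul_of_nonneg_left h1 hA.le
      have h4 : |θ * √(A * N)| ≤ A * θ ^ 2 := by
        rw [abs_mul, abs_of_nonneg (Real.sqrt_nonneg _), ← sq_abs θ]
        have h5 : √(A * N) ≤ A * |θ| := by
          have h6 : √(A * N) ≤ A * (1 / N) := by
            rw [Real.sqrt_le_left (by positivity)]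
            have h7 : (N : ℝ) ^ 3 ≤ A := by
              refine le_trans ?_ D.AN
              exact pow_le_pow_right₀ hN1 (by norm_num)
            have h8 : A * N = A * N ^ 3 * (1 / N) ^ 2 := by field_simp
            rw [h8, mul_pow, sq A]
            gcongr
          exact h6.trans (by gcongr)
        calc |θ| * √(A * N) ≤ |θ| * (A * |θ|) := by gcongr
          _ = A * |θ| ^ 2 := by ring
      linarith
    refine (Real.exp_le_exp.2 h2).trans ((exp_abs_le _).trans ?_)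
    unfold gd
    have : 0 ≤ Real.exp (-(1 / 8) * (θ * √(A * N)) ^ 2) := (Real.exp_pos _).le
    linarith

theorem Dt.cont (D : Dt a Λ cc X N r ζm H η A) :
    ContinuousOn (fun θ : ℝ => (A : ℂ) * PP 0 id (fun ζ => X (0 + 1 / ζ)) N H ζm η θ)
      (Icc (-Real.pi) Real.pi) := by
  have h0 := D.z0
  have hr := D.r0
  have hmem : ∀ θ : ℝ, exp (θ * I) / zz ζm η ∈ ball (0 : ℂ) (Real.exp Λ) \ {0} := by
    intro θ
    refine ⟨?_, ?_⟩
    · rw [mem_ball_zero_iff, norm_div, norm_exp_ofReal_mul_I, D.zn,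
        ← Real.log_lt_iff_lt_exp (by positivity), one_div, Real.log_inv]
      linarith [D.hM]
    · exact div_ne_zero (exp_ne_zero _) h0
  have hc : Continuous (fun θ : ℝ => X (exp (θ * I) / zz ζm η)) := by
    rw [← continuousOn_univ]
    exact D.hX.continuousOn.comp (by fun_prop : Continuous fun θ : ℝ =>
      exp (θ * I) / zz ζm η).continuousOn (fun θ _ => hmem θ)
  have hc2 : Continuous (fun θ : ℝ => (A : ℂ) * ((exp (θ * I) - 1) +
      (X (exp (θ * I) / zz ζm η) / ff X ζm η - 1) / Nn N H η)) := by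
    refine continuous_const.mul (Continuous.add (by fun_prop) ?_)
    exact ((hc.div_const _).sub continuous_const).div_const _
  refine hc2.continuousOn.congr fun θ _ => ?_
  simp only
  rw [D.PPe]

theorem Dt.A1 (D : Dt a Λ cc X N r ζm H η A) : 1 ≤ A := by
  refine le_trans ?_ D.AN
  exact one_le_pow₀ D.N1

theorem Dt.th (D : Dt a Λ cc X N r ζm H η A) {θ : ℝ} (hθ : |θ| ≤ 4) :
    ‖(θ * I : ℂ)‖ ≤ |Λ| + Real.log r + 4 := by
  rw [norm_mul, norm_I, mul_one, norm_real, Real.norm_eq_abs]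
  have := abs_nonneg Λ
  have := Real.log_nonneg D.hr
  linarith

/-- **Essential singularities are impossible.** -/
theorem partE (ha : 0 < a) (hJU : JU a Λ T) (hTd : DifferentiableOn ℂ T (re ⁻¹' Iio Λ))
    (hess : Ess 0 (Real.exp Λ) X) (hT : ∀ σ : ℂ, σ.re < Λ → T σ = X (exp σ) + cc * σ) : False := by
  have hdid : deriv (id : ℂ → ℂ) 0 ≠ 0 := by rw [deriv_id]; exact one_ne_zero
  obtain ⟨N1, hph⟩ := Pool.Agent.Y287.ES.ph 0 (Real.exp Λ) a id (Real.exp_pos _) ha
    differentiableOn_id hdid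
  obtain ⟨N2, C1, hin⟩ := Pool.Agent.Y852.ES.inq 0 (Real.exp Λ) id (Real.exp_pos _)
    differentiableOn_id hdid
  obtain ⟨B0, hB0⟩ := max_ann hess.1
  obtain ⟨C, hC⟩ := hJU (Λ - 1) (2 * Real.pi) (by linarith)
  set N0 : ℕ := N1 + N2 + 65536 + (⌈Real.exp (1 - Λ)⌉₊ + 1) + ⌈|B0|⌉₊ + ⌈6 / a⌉₊ +
    ⌈a * ‖cc‖ * (10 + |Λ|)⌉₊ with hN0
  have hseq : ∀ k : ℕ, ∃ (N : ℕ) (r : ℝ) (ζm : ℂ) (H : ℂ → ℂ) (η A : ℝ),
      k ≤ N ∧ Dt a Λ cc X N r ζm H η A ∧
      ∀ θ : ℝ, |θ| ≤ 1 / N → ‖PP 0 id (fun ζ => X (0 + 1 / ζ)) N H ζm η θ + N * θ ^ 2 / 2‖ ≤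
        C1 * ((N : ℝ) ^ (7 / 8 : ℝ) * θ ^ 2 + (N : ℝ) ^ 2 * |θ| ^ 3) := by
    intro k
    obtain ⟨N, r, ζm, H, hN, hr, hW, hbig⟩ := wv_of_wv2 Pool.Agent.Y849.ES.laur
      Pool.Agent.Y290.ES.norm2_thm Pool.Agent.Y542.ES.wv2 Pool.Agent.Y849.ES.laur
      (norm_of_norm2 Pool.Agent.Y290.ES.norm2_thm) 0 (Real.exp Λ) X (Real.exp_pos _) hess 9
      (N0 + k)
    have hrk : ((N0 + k : ℕ) : ℝ) ≤ r := hr
    have hle : ∀ n : ℕ, n ≤ N0 → (n : ℝ) ≤ r := fun n hn =>
      le_trans (by exact_mod_cast (by omega : n ≤ N0 + k)) hrk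
    obtain ⟨η, A, hη, hA, hA2⟩ := hph _ N r ζm H (by omega) (hle _ (by omega)) hW
    obtain ⟨p1, p2, p3⟩ := hin _ N r ζm H η (by omega) (hle _ (by omega)) hW hη
    have hr1 : 1 ≤ r := by
      have := hle 1 (by omega)
      simpa using this
    have hA2' : (A : ℂ) ^ 2 = -(a * ff X ζm η * Nn N H η / zz ζm η) := by
      have h1 : deriv (id : ℂ → ℂ) (0 + 1 / (ζm * exp (η * I))) = 1 := deriv_id _
      rw [h1, mul_one] at hA2
      exact hA2
    have hN' : 65536 ≤ N := by omega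
    have hN6 : 6 / a ≤ N := by
      refine (Nat.le_ceil _).trans ?_
      exact_mod_cast (by omega : ⌈6 / a⌉₊ ≤ N)
    have hA4 := A_ge2 ha hN' hr1 hW hbig hη hA hN6 hA2'
    have hN1r : (1 : ℝ) ≤ N := by exact_mod_cast (by omega : 1 ≤ N)
    have hrr : ∀ j : ℕ, j ≠ 0 → r ≤ (N : ℝ) ^ j * r ^ j := by
      intro j hj
      have h1 : (1 : ℝ) ≤ (N : ℝ) ^ j := one_le_pow₀ hN1r
      have h2 : r ≤ r ^ j := le_self_pow₀ hr1 hj
      nlinarith
    refine ⟨N, r, ζm, H, η, A, by omega, ⟨ha, hN', hr1, hess.1, hW, hη, hA, hA2', hA4, p1, p2,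
      ?_, ?_, ?_⟩, p3⟩
    · have h1 : Real.exp (1 - Λ) < r := by
        have h2 := hle (⌈Real.exp (1 - Λ)⌉₊ + 1) (by omega)
        push_cast at h2
        linarith [Nat.le_ceil (Real.exp (1 - Λ))]
      have h2 := Real.log_lt_log (Real.exp_pos _) h1
      rw [Real.log_exp] at h2
      linarith
    · have h1 : Real.exp (1 - Λ) < r := by
        have h2 := hle (⌈Real.exp (1 - Λ)⌉₊ + 1) (by omega)
        push_cast at h2
        linarith [Nat.le_ceil (Real.exp (1 - Λ))]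
      have h2 := Real.log_lt_log (Real.exp_pos _) h1
      rw [Real.log_exp] at h2
      refine hB0 r _ (by linarith) (by linarith) ?_ ?_
      · have h3 := hle ⌈|B0|⌉₊ (by omega)
        have h4 := hrr 9 (by norm_num)
        linarith [le_abs_self B0, Nat.le_ceil |B0|]
      · intro ζ hζ
        have h3 := hW.2.2.2.1 ζ hζ
        simp only at h3
        rwa [zero_add] at h3
    · have h3 := hle ⌈a * ‖cc‖ * (10 + |Λ|)⌉₊ (by omega)
      have h4 := hrr 4 (by norm_num)
      linarith [Nat.le_ceil (a * ‖cc‖ * (10 + |Λ|))]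
  choose N r ζm H η A hNk D p3 using hseq
  have hNt : Tendsto N atTop atTop := tendsto_atTop_mono hNk tendsto_id
  have hNR : Tendsto (fun k => (N k : ℝ)) atTop atTop := tendsto_natCast_atTop_atTop.comp hNt
  have hAt : Tendsto A atTop atTop := by
    refine tendsto_atTop_mono (fun k => ?_) hNR
    refine le_trans ?_ (D k).AN
    exact le_self_pow₀ (D k).N1 (by norm_num)
  have hANt : Tendsto (fun k => A k * N k) atTop atTop := hAt.atTop_mul_atTop₀ hNR
  -- the arc
  have hlap := lapG (R := fun k => A k * N k) hANt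
    (H := fun k θ => (A k : ℂ) * PP 0 id (fun ζ => X (0 + 1 / ζ)) (N k) (H k) (ζm k) (η k) θ)
    (B := fun k θ => exp (θ * I) * er2 a cc (ζm k) (η k) (A k) (θ * I)) (g := gd)
    (m := 1 / 2) (C := Real.exp 1) (B0 := 1) gd_int gd_pos
    (Eventually.of_forall fun k => (D k).cont) (Eventually.of_forall fun k => by
      unfold er2
      exact Continuous.continuousOn (by fun_prop))
    (Eventually.of_forall fun k θ hθ => (D k).dom hθ)
    (Eventually.of_forall fun k θ hθ => by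
      have h4 : |θ| ≤ 4 := (abs_le.2 ⟨hθ.1, hθ.2⟩).trans Real.pi_lt_four.le
      rw [norm_mul, norm_exp_ofReal_mul_I, one_mul]
      exact er_one (((D k).er_bd ((D k).th h4)).trans ((div_le_one (D k).hA).2 (D k).he))) ?_ ?_
  · -- the conclusion
    have hz : Tendsto (fun k => A k ^ 2 * Real.exp (-(A k / 2))) atTop (𝓝 0) := by
      have h1 := (Real.tendsto_pow_mul_exp_neg_atTop_nhds_zero 2).comp
        (hAt.atTop_div_const (show (0 : ℝ) < 2 by norm_num))
      have h2 := h1.const_mul 4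
      rw [mul_zero] at h2
      refine h2.congr fun k => ?_
      simp only [Function.comp_apply]
      ring
    have hdec : ∀ k, I * (√(A k * N k) * ∫ θ in (-Real.pi)..Real.pi,
        exp (A k * PP 0 id (fun ζ => X (0 + 1 / ζ)) (N k) (H k) (ζm k) (η k) θ) *
        (exp (θ * I) * er2 a cc (ζm k) (η k) (A k) (θ * I))) =
        Ww (N k) (H k) (ζm k) (η k) (A k) * seg (fun y => Ji a T (aa (ζm k) (η k) (A k))
          (ss (ζm k) (η k) + y))
          (((Λ - 1 + Real.log (r k) : ℝ) : ℂ) + -(Real.pi * I))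
          (((Λ - 1 + Real.log (r k) : ℝ) : ℂ) + Real.pi * I) -
        Ww (N k) (H k) (ζm k) (η k) (A k) * (∫ ρ in (0 : ℝ)..(Λ - 1 + Real.log (r k)),
          Ji a T (aa (ζm k) (η k) (A k)) (ss (ζm k) (η k) + (ρ + Real.pi * I))) +
        Ww (N k) (H k) (ζm k) (η k) (A k) * ∫ ρ in (0 : ℝ)..(Λ - 1 + Real.log (r k)),
          Ji a T (aa (ζm k) (η k) (A k)) (ss (ζm k) (η k) + (ρ + -(Real.pi * I))) := by
      intro k
      rw [← (D k).arc hT]
      set M := Λ - 1 + Real.log (r k) with hMdef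
      have hM : 0 < M := (D k).hM
      set K : ℂ → ℂ := fun y => Ji a T (aa (ζm k) (η k) (A k)) (ss (ζm k) (η k) + y) with hK
      have hKd : DifferentiableOn ℂ K (re ⁻¹' Iio (M + 1)) := by
        refine (Ji_diff (a := a) hTd (aa (ζm k) (η k) (A k))).comp
          (fun y _ => (differentiableAt_id.const_add _).differentiableWithinAt) fun y hy => ?_
        rw [mem_preimage, mem_Iio] at hy
        rw [mem_preimage, mem_Iio]
        show (ss (ζm k) (η k) + y).re < Λ
        rw [add_re, (D k).ss_re]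
        rw [hMdef] at hy
        linarith
      obtain ⟨hadd, -⟩ := t_SEG (re ⁻¹' Iio (M + 1)) K
        (isOpen_Iio.preimage continuous_re) (convex_halfSpace_re_lt _) hKd
      have m1 : (M + -(Real.pi * I) : ℂ) ∈ (re ⁻¹' Iio (M + 1) : Set ℂ) := by
        rw [mem_preimage, ray_re pi_re', mem_Iio]; linarith
      have m2 : (-(Real.pi * I) : ℂ) ∈ (re ⁻¹' Iio (M + 1) : Set ℂ) := by
        rw [mem_preimage, pi_re', mem_Iio]; linarith
      have m3 : (Real.pi * I : ℂ) ∈ (re ⁻¹' Iio (M + 1) : Set ℂ) := by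
        rw [mem_preimage, pi_re, mem_Iio]; linarith
      have m4 : (M + Real.pi * I : ℂ) ∈ (re ⁻¹' Iio (M + 1) : Set ℂ) := by
        rw [mem_preimage, ray_re pi_re, mem_Iio]; linarith
      have a1 := hadd _ m1 _ m2 _ m3
      have a2 := hadd _ m1 _ m3 _ m4
      rw [← a2, ← a1, seg_arc, seg_ray _ _ hM, seg_symm, seg_ray _ _ hM]
      ring
    have z1 : Tendsto (fun k => |C| * (A k ^ 2 * Real.exp (-(A k / 2)))) atTop (𝓝 0) := by
      have := hz.const_mul |C|
      rwa [mul_zero] at this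
    have z2 : Tendsto (fun k => Real.exp 1 * Real.exp (Λ - 1) * Real.exp (Λ - 1) *
        (A k ^ 2 * Real.exp (-(A k / 2)))) atTop (𝓝 0) := by
      have := hz.const_mul (Real.exp 1 * Real.exp (Λ - 1) * Real.exp (Λ - 1))
      rwa [mul_zero] at this
    have w1 := squeeze_zero_norm (fun k => (D k).far hC) z1
    have w2 := squeeze_zero_norm (fun k => (D k).ray hT (Or.inl rfl)) z2
    have w3 := squeeze_zero_norm (fun k => (D k).ray hT (Or.inr rfl)) z2
    have w4 := (w1.sub w2).add w3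
    rw [sub_zero, add_zero] at w4
    have w5 := (hlap.const_mul I).congr hdec
    have w6 := tendsto_nhds_unique w5 w4
    simp only [mul_one] at w6
    rcases mul_eq_zero.1 w6 with h | h
    · exact I_ne_zero h
    · exact gauss_ne (by norm_num) h
  · -- the phase
    intro u
    have hev : ∀ k, (1 : ℝ) ≤ N k := fun k => (D k).N1
    have hsN : ∀ᶠ k in atTop, |u| < √(A k * N k) / N k := by
      filter_upwards [hNR.eventually_gt_atTop |u|] with k hk2
      have hk := hev k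
      have hNp : (0 : ℝ) < N k := by linarith
      refine hk2.trans_le ?_
      rw [le_div_iff₀ hNp]
      refine Real.le_sqrt_of_sq_le ?_
      have h4 := (D k).AN
      calc ((N k : ℝ) * N k) ^ 2 = (N k : ℝ) ^ 4 * 1 := by ring
        _ ≤ A k * N k := by
            have := (D k).hA
            gcongr
    rw [tendsto_iff_norm_sub_tendsto_zero]
    have hb : Tendsto (fun k => C1 * (u ^ 2 * (N k : ℝ) ^ (-(1 / 8) : ℝ) +
        |u| ^ 3 * (N k : ℝ)⁻¹)) atTop (𝓝 (C1 * (u ^ 2 * 0 + |u| ^ 3 * 0))) := by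
      refine (((tendsto_rpow_neg_atTop (by norm_num : (0 : ℝ) < 1 / 8)).comp hNR).const_mul
        (u ^ 2) |>.add ((tendsto_inv_atTop_zero.comp hNR).const_mul (|u| ^ 3))).const_mul C1
    rw [mul_zero, mul_zero, add_zero, mul_zero] at hb
    have hC1 : 0 ≤ C1 := by
      have h1 := p3 0 (1 / N 0) (by rw [abs_of_nonneg (by positivity)])
      have hNp : (0 : ℝ) < N 0 := by linarith [hev 0]
      have h2 : 0 < (N 0 : ℝ) ^ (7 / 8 : ℝ) * (1 / N 0) ^ 2 + (N 0 : ℝ) ^ 2 * |1 / (N 0 : ℝ)| ^ 3 := by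
        positivity
      have h3 := (norm_nonneg _).trans h1
      by_contra hcon
      push Not at hcon
      nlinarith
    refine squeeze_zero' (Eventually.of_forall fun k => norm_nonneg _) ?_ hb
    filter_upwards [hsN] with k hk2
    have hk := hev k
    have hNp : (0 : ℝ) < N k := by linarith
    have a1 := (D k).hA
    set s := √(A k * N k) with hs
    have hs0 : 0 < s := Real.sqrt_pos.2 (by positivity)
    have hAN : A k * N k = s ^ 2 := (Real.sq_sqrt (by positivity)).symm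
    have b1 : |u / s| ≤ 1 / N k := by
      rw [abs_div, abs_of_pos hs0, div_le_div_iff₀ hs0 hNp]
      rw [lt_div_iff₀ hNp] at hk2
      linarith
    have b2 := p3 k (u / s) b1
    have e1 : (A k : ℂ) * PP 0 id (fun ζ => X (0 + 1 / ζ)) (N k) (H k) (ζm k) (η k) (u / s) -
        ((-(1 / 2 * u ^ 2) : ℝ) : ℂ) =
        (A k : ℂ) * (PP 0 id (fun ζ => X (0 + 1 / ζ)) (N k) (H k) (ζm k) (η k) (u / s) +
          N k * ((u / s : ℝ) : ℂ) ^ 2 / 2) := by
      have e2 : (A k : ℂ) * (N k * ((u / s : ℝ) : ℂ) ^ 2 / 2) = ((1 / 2 * u ^ 2 : ℝ) : ℂ) := by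
        have e3 : A k * (N k * (u / s) ^ 2 / 2) = 1 / 2 * u ^ 2 := by
          rw [div_pow]
          field_simp
          linear_combination (u ^ 2) * hAN
        exact_mod_cast e3
      rw [mul_add, e2]
      push_cast
      ring
    rw [e1, norm_mul, Complex.norm_real, Real.norm_eq_abs, abs_of_pos a1]
    refine (mul_le_mul_of_nonneg_left b2 a1.le).trans ?_
    have e4 : A k * (C1 * ((N k : ℝ) ^ (7 / 8 : ℝ) * (u / s) ^ 2 +
        (N k : ℝ) ^ 2 * |u / s| ^ 3)) =
        C1 * (u ^ 2 * (N k : ℝ) ^ (-(1 / 8) : ℝ) + |u| ^ 3 * (N k / s)) := by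
      have e5 : (N k : ℝ) ^ (-(1 / 8) : ℝ) = (N k : ℝ) ^ (7 / 8 : ℝ) / N k := by
        rw [show (-(1 / 8) : ℝ) = 7 / 8 - 1 by norm_num, Real.rpow_sub hNp, Real.rpow_one]
      rw [e5, abs_div, abs_of_pos hs0, div_pow, div_pow]
      have hs1 : s ≠ 0 := hs0.ne'
      have hN1 : (N k : ℝ) ≠ 0 := hNp.ne'
      have e6 : A k = s ^ 2 / N k := by
        rw [eq_div_iff hN1]
        exact hAN
      rw [e6]
      field_simp
    rw [e4]
    have e7 : N k / s ≤ (N k : ℝ)⁻¹ := by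
      rw [div_le_iff₀ hs0, inv_mul_eq_div, le_div_iff₀ hNp]
      refine Real.le_sqrt_of_sq_le ?_
      have h4 := (D k).AN
      calc ((N k : ℝ) * N k) ^ 2 = (N k : ℝ) ^ 4 * 1 := by ring
        _ ≤ A k * N k := by gcongr
    gcongr
  · -- the factor
    intro u
    have hst : Tendsto (fun k => √(A k * N k)) atTop atTop :=
      Real.tendsto_sqrt_atTop.comp hANt
    have hinv' : Tendsto (fun k => u / √(A k * N k)) atTop (𝓝 0) := hst.const_div_atTop u
    have hinv : Tendsto (fun k => |u / √(A k * N k)|) atTop (𝓝 0) := by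
      have := hinv'.abs
      rwa [abs_zero] at this
    have h4 : Tendsto (fun k => exp ((u / √(A k * N k) : ℝ) * I)) atTop (𝓝 1) := by
      have h5 : Tendsto (fun k => exp ((u / √(A k * N k) : ℝ) * I)) atTop
          (𝓝 (exp (((0 : ℝ) : ℂ) * I))) :=
        (continuous_exp.tendsto _).comp
          (((continuous_ofReal.tendsto _).comp hinv').mul_const _)
      rwa [ofReal_zero, zero_mul, exp_zero] at h5
    have h5 : Tendsto (fun k => er2 a cc (ζm k) (η k) (A k) ((u / √(A k * N k) : ℝ) * I)) atTop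
        (𝓝 1) := by
      have h6 : Tendsto (fun k => -(a / aa (ζm k) (η k) (A k) *
          (cc * (ss (ζm k) (η k) + (u / √(A k * N k) : ℝ) * I)))) atTop (𝓝 0) := by
        refine squeeze_zero_norm' ?_ (hAt.const_div_atTop (a * ‖cc‖ * (10 + |Λ|)))
        filter_upwards [hinv.eventually (ge_mem_nhds (show (0 : ℝ) < 4 by norm_num))] with k h
        rw [norm_neg]
        exact (D k).er_bd ((D k).th h)
      have h7 := (continuous_exp.tendsto _).comp h6
      rw [exp_zero] at h7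
      exact h7
    have h6 := h4.mul h5
    rw [mul_one] at h6
    exact h6

end Pool.Agent.E8helper32.SL
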