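import Pool.Agent.E8helper32.SL.As

/-!
# Continuation in the exponential coordinate, and the theorem for the derivative
-/

set_option autoImplicit false

open Complex Metric Set Filter Topology ComplexConjugate

namespace Pool.Agent.E8helper32.SL

open Pool.Agent.Results.MP_83fd13_an.BranchSingularities
open Pool.Agent.Y245.SC (seg t_SEG Ess)
open Pool.Agent.Y245.UC (Rf VG)
open Pool.Agent.E8helper32.SA (per per_re exp_add_per log_lift log_eq eqOn_convex branch_norm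
  branch_diff branch_congr branch_ball ext_of_slow convex_cont exp_sub_lt Fz_mem JB)

variable {φ : ℂ → ℂ} {r : ℝ} {w1 : ℂ} {L L' : ℝ} {G : ℂ → ℂ} {Λ : ℝ} {ℓ : ℂ → ℂ} {Δ : ℂ}

/-- the coordinate `τ` near a point -/
noncomputable def lm (w1 τ w : ℂ) : ℂ := τ + log ((w - w1) / exp τ)

theorem lm_slit {τ w : ℂ} {κ : ℝ} (hκ : κ ≤ 1) (hw : w ∈ ball (w1 + exp τ) (κ * ‖exp τ‖)) :
    0 < ((w - w1) / exp τ).re := by
  rw [mem_ball, dist_eq_norm] at hw
  have h0 := exp_ne_zero τ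
  have hn : 0 < ‖exp τ‖ := norm_pos_iff.2 h0
  have e : (w - w1) / exp τ = 1 + (w - (w1 + exp τ)) / exp τ := by
    field_simp
    ring
  rw [e, add_re, one_re]
  have h3 : ‖(w - (w1 + exp τ)) / exp τ‖ < 1 := by
    rw [norm_div, div_lt_one hn]
    calc ‖w - (w1 + exp τ)‖ < κ * ‖exp τ‖ := hw
      _ ≤ 1 * ‖exp τ‖ := by gcongr
      _ = _ := one_mul _
  have h4 := neg_abs_le ((w - (w1 + exp τ)) / exp τ).re
  have h5 := abs_re_le_norm ((w - (w1 + exp τ)) / exp τ)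
  linarith

theorem lm_exp {τ w : ℂ} {κ : ℝ} (hκ : κ ≤ 1) (hw : w ∈ ball (w1 + exp τ) (κ * ‖exp τ‖)) :
    exp (lm w1 τ w) = w - w1 := by
  have h1 := lm_slit hκ hw
  have h2 : (w - w1) / exp τ ≠ 0 := by
    intro h2
    rw [h2, zero_re] at h1
    exact lt_irrefl _ h1
  unfold lm
  rw [exp_add, exp_log h2, mul_div_cancel₀ _ (exp_ne_zero τ)]

theorem lm_diff {τ w : ℂ} {κ : ℝ} (hκ : κ ≤ 1) (hw : w ∈ ball (w1 + exp τ) (κ * ‖exp τ‖)) :
    DifferentiableAt ℂ (lm w1 τ) w := by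
  unfold lm
  exact (((differentiableAt_fun_id.sub_const w1).div_const _).clog
    (Or.inl (lm_slit hκ hw))).const_add _

theorem lm_self (τ : ℂ) : lm w1 τ (w1 + exp τ) = τ := by
  unfold lm
  rw [add_sub_cancel_left, div_self (exp_ne_zero τ), log_one, add_zero]

theorem lm_eq {τ t : ℂ} (ht : ‖t - τ‖ < 1) : lm w1 τ (w1 + exp t) = t := by
  unfold lm
  have h1 := (abs_im_le_norm (t - τ)).trans_lt ht
  have h2 := Real.pi_gt_three
  rw [add_sub_cancel_left, ← exp_sub, log_exp (by linarith [(abs_lt.1 h1).1])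
    (by linarith [(abs_lt.1 h1).2])]
  ring

/-- **Continuation.** -/
theorem p0_of (hD : D0 φ r) (hw1 : 1 < ‖w1‖) (hL : L' < L)
    (hB : ∀ w ∈ ball w1 (Real.exp L), 1 < ‖w‖) (hG : DifferentiableOn ℂ G (re ⁻¹' Iio L))
    {τ0 : ℂ} (hτ0 : τ0.re < L') {g : ℂ → ℂ} (hg : Branch φ r (w1 + exp τ0) g)
    (hGg : G =ᶠ[𝓝 τ0] fun t => g (w1 + exp t)) : P0 φ r w1 L' G := by
  have hUo : IsOpen (re ⁻¹' Iio L : Set ℂ) := isOpen_Iio.preimage continuous_re
  have hUo' : IsOpen (re ⁻¹' Iio L' : Set ℂ) := isOpen_Iio.preimage continuous_re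
  set κ : ℝ := min 1 (Real.exp (L - L') - 1) with hκdef
  have hκ0 : 0 < κ := by
    refine lt_min one_pos ?_
    have : 1 < Real.exp (L - L') := Real.one_lt_exp_iff.2 (by linarith)
    linarith
  have hκ1 : κ ≤ 1 := min_le_left _ _
  have hκ2 : 1 + κ ≤ Real.exp (L - L') := by
    have := min_le_right 1 (Real.exp (L - L') - 1)
    rw [hκdef]; linarith
  -- the discs
  have hnorm : ∀ τ : ℂ, τ.re < L' → ∀ w ∈ ball (w1 + exp τ) (κ * ‖exp τ‖),
      ‖w - w1‖ < Real.exp L := by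
    intro τ hτ w hw
    rw [mem_ball, dist_eq_norm] at hw
    have e : w - w1 = (w - (w1 + exp τ)) + exp τ := by ring
    have h1 : ‖exp τ‖ < Real.exp L' := by rw [norm_exp]; exact Real.exp_lt_exp.2 hτ
    calc ‖w - w1‖ ≤ ‖w - (w1 + exp τ)‖ + ‖exp τ‖ := by rw [e]; exact norm_add_le _ _
      _ ≤ (1 + κ) * ‖exp τ‖ := by linarith
      _ ≤ Real.exp (L - L') * ‖exp τ‖ := by gcongr
      _ < Real.exp (L - L') * Real.exp L' := by gcongr
      _ = Real.exp L := by rw [← Real.exp_add]; congr 1; ring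
  have hlmre : ∀ τ : ℂ, τ.re < L' → ∀ w ∈ ball (w1 + exp τ) (κ * ‖exp τ‖),
      (lm w1 τ w).re < L := by
    intro τ hτ w hw
    have h1 := hnorm τ hτ w hw
    rw [← lm_exp hκ1 hw, norm_exp] at h1
    exact Real.exp_lt_exp.1 h1
  have hpos : ∀ τ : ℂ, 0 < κ * ‖exp τ‖ := fun τ =>
    mul_pos hκ0 (norm_pos_iff.2 (exp_ne_zero τ))
  have hgd : ∀ τ : ℂ, τ.re < L' →
      DifferentiableOn ℂ (fun w => G (lm w1 τ w)) (ball (w1 + exp τ) (κ * ‖exp τ‖)) := by
    intro τ hτ w hw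
    have h1 : DifferentiableAt ℂ G (lm w1 τ w) :=
      hG.differentiableAt (hUo.mem_nhds (hlmre τ hτ w hw))
    exact (DifferentiableAt.comp (g := G) (f := lm w1 τ) w h1
      (lm_diff hκ1 hw)).differentiableWithinAt
  have hs : κ / 2 ≤ 1 / 2 := by linarith
  have hmem : ∀ τ t : ℂ, t ∈ ball τ (κ / 2) → w1 + exp t ∈ ball (w1 + exp τ) (κ * ‖exp τ‖) := by
    intro τ t ht
    rw [mem_ball, dist_eq_norm, add_sub_add_left_eq_sub]
    have := exp_sub_lt hs ht
    calc ‖exp t - exp τ‖ < ‖exp τ‖ * (2 * (κ / 2)) := this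
      _ = κ * ‖exp τ‖ := by ring
  obtain ⟨G', -, -, h3⟩ := convex_cont (convex_halfSpace_re_lt L') hUo' (x0 := τ0) hτ0
    (s := κ / 2) (by positivity)
    (fun τ F => F =ᶠ[𝓝 τ] G ∧ ∃ g : ℂ → ℂ, Branch φ r (w1 + exp τ) g ∧
      F =ᶠ[𝓝 τ] fun t => g (w1 + exp t)) (by
    rintro x F F' ⟨h1, g, hg, hFg⟩ hFF'
    exact ⟨hFF'.symm.trans h1, g, hg, hFF'.symm.trans hFg⟩) (by
    rintro τ hτ F ⟨hFG, g, hg, hFg⟩
    have hτ' : τ.re < L' := hτ
    have hEG : ∀ t ∈ ball τ (κ / 2), G (lm w1 τ (w1 + exp t)) = G t := by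
      intro t ht
      rw [lm_eq]
      rw [mem_ball, dist_eq_norm] at ht
      linarith
    have hgg : g =ᶠ[𝓝 (w1 + exp τ)] fun w => G (lm w1 τ w) := by
      have hc : ContinuousAt (lm w1 τ) (w1 + exp τ) :=
        (lm_diff hκ1 (mem_ball_self (hpos τ))).continuousAt
      have hc' : Tendsto (lm w1 τ) (𝓝 (w1 + exp τ)) (𝓝 τ) := by
        have := hc.tendsto
        rwa [lm_self] at this
      filter_upwards [hc'.eventually hFg, hc'.eventually hFG,
        isOpen_ball.mem_nhds (mem_ball_self (hpos τ))] with w h4 h5 h6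
      rw [← h5, h4, lm_exp hκ1 h6, add_sub_cancel]
    refine ⟨fun t => G (lm w1 τ (w1 + exp t)), ?_, ?_, ?_⟩
    · intro t ht
      have h4 : DifferentiableAt ℂ (fun w => G (lm w1 τ w)) (w1 + exp t) :=
        (hgd τ hτ').differentiableAt (isOpen_ball.mem_nhds (hmem τ t ht))
      have h5 : DifferentiableAt ℂ (fun t => w1 + exp t) t :=
        (differentiableAt_const _).add differentiableAt_exp
      exact (DifferentiableAt.comp (g := fun w => G (lm w1 τ w)) (f := fun t => w1 + exp t) t h4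
        h5).differentiableWithinAt
    · filter_upwards [hFG, isOpen_ball.mem_nhds (mem_ball_self (show (0 : ℝ) < κ / 2 by
        positivity))] with t h4 h5
      rw [h4, hEG t h5]
    · intro y hy _
      refine ⟨?_, fun w => G (lm w1 τ w), ?_, EventuallyEq.refl _ _⟩
      · filter_upwards [isOpen_ball.mem_nhds hy] with t ht
        exact hEG t ht
      · exact branch_ball (branch_congr hD.hφ hg hgg) (fun w hw => hB w (by
          rw [mem_ball, dist_eq_norm]; exact hnorm τ hτ' w hw)) (hgd τ hτ')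
          (mem_ball_self (hpos τ)) (hmem τ y hy)) (f := G) ⟨EventuallyEq.refl _ _, g, hg, hGg⟩
  refine ⟨hD, hw1, hG.mono fun s hs => lt_trans hs hL, fun τ hτ => ?_⟩
  obtain ⟨h4, g', hg', h5⟩ := h3 τ hτ
  exact ⟨g', hg', h4.symm.trans h5⟩

end Pool.Agent.E8helper32.SL
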