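import Pool.Agent.E8helper32.SL.Gl

/-!
# Isolated singularities of the derivative
-/

set_option autoImplicit false

open Complex Metric Set Filter Topology ComplexConjugate

namespace Pool.Agent.E8helper32.SL

open Pool.Agent.Results.MP_83fd13_an.BranchSingularities
open Pool.Agent.Y245.SC (seg t_SEG Ess)
open Pool.Agent.Y245.UC (Rf VG)
open Pool.Agent.E8helper32.SA (per per_re exp_add_per log_lift log_eq eqOn_convex branch_norm
  branch_diff branch_congr branch_ball ext_of_slow convex_cont exp_sub_lt Fz_mem JB)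

variable {φ : ℂ → ℂ} {r : ℝ} {w1 : ℂ} {L L' : ℝ} {G : ℂ → ℂ} {Λ : ℝ} {ℓ : ℂ → ℂ} {Δ : ℂ}

theorem seg_self (g : ℂ → ℂ) (p : ℂ) : seg g p p = 0 := by
  unfold seg
  simp

/-- primitives on a half-plane -/
theorem prim {D : ℂ → ℂ} (hD : DifferentiableOn ℂ D (re ⁻¹' Iio L)) {τ0 : ℂ} (hτ0 : τ0.re < L)
    (b : ℂ) : ∀ τ : ℂ, τ.re < L → HasDerivAt (fun τ => b + seg D τ0 τ) (D τ) τ := by
  intro τ hτ
  obtain ⟨-, h2⟩ := t_SEG (re ⁻¹' Iio L) D (isOpen_Iio.preimage continuous_re)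
    (convex_halfSpace_re_lt _) hD
  exact (h2 τ0 hτ0 τ hτ).const_add b

theorem prim_diff {D : ℂ → ℂ} (hD : DifferentiableOn ℂ D (re ⁻¹' Iio L)) {τ0 : ℂ}
    (hτ0 : τ0.re < L) (b : ℂ) : DifferentiableOn ℂ (fun τ => b + seg D τ0 τ) (re ⁻¹' Iio L) :=
  fun τ hτ => (prim hD hτ0 b τ hτ).differentiableAt.differentiableWithinAt

theorem seg_shift (D : ℂ → ℂ) {Λ0 : ℝ} (hper : ∀ τ : ℂ, τ.re < Λ0 → D (τ + per 1) = D τ) {p q : ℂ}
    (hp : p.re < Λ0) (hq : q.re < Λ0) : seg D (p + per 1) (q + per 1) = seg D p q := by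
  unfold seg
  refine intervalIntegral.integral_congr fun t ht => ?_
  rw [uIcc_of_le zero_le_one] at ht
  have e1 : q + per 1 - (p + per 1) = q - p := by ring
  have e2 : p + per 1 + t * (q - p) = p + t * (q - p) + per 1 := by ring
  have h1 : (p + t * (q - p) : ℂ).re < Λ0 := by
    have : (p + t * (q - p) : ℂ).re = (1 - t) * p.re + t * q.re := by
      rw [add_re, re_ofReal_mul, sub_re]; ring
    rw [this]
    rcases eq_or_lt_of_le ht.1 with h0 | h0
    · rw [← h0]; linarith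
    · nlinarith [ht.2]
  rw [e1, e2, hper _ h1]

/-- the period of a primitive -/
theorem prim_per {D : ℂ → ℂ} (hD : DifferentiableOn ℂ D (re ⁻¹' Iio L))
    (hper : ∀ τ : ℂ, τ.re < L → D (τ + per 1) = D τ) {τ0 : ℂ} (hτ0 : τ0.re < L) (b : ℂ) :
    ∀ τ : ℂ, τ.re < L → (b + seg D τ0 (τ + per 1)) = (b + seg D τ0 τ) +
      seg D τ0 (τ0 + per 1) := by
  intro τ hτ
  obtain ⟨h1, -⟩ := t_SEG (re ⁻¹' Iio L) D (isOpen_Iio.preimage continuous_re)
    (convex_halfSpace_re_lt _) hD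
  have hm : ∀ x : ℂ, x.re < L → x + per 1 ∈ (re ⁻¹' Iio L : Set ℂ) := fun x hx => by
    rw [mem_preimage, add_re, per_re, add_zero]; exact hx
  have e1 := h1 τ0 hτ0 (τ0 + per 1) (hm _ hτ0) (τ + per 1) (hm _ hτ)
  rw [seg_shift D hper hτ0 hτ] at e1
  rw [← e1]
  ring

/-- two functions with the same derivative near a point -/
theorem eq_of_deriv {f g f' : ℂ → ℂ} {x : ℂ} (hf : ∀ᶠ t in 𝓝 x, HasDerivAt f (f' t) t)
    (hg : ∀ᶠ t in 𝓝 x, HasDerivAt g (f' t) t) (h : f x = g x) : f =ᶠ[𝓝 x] g := by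
  obtain ⟨ε, hε, h1⟩ := Metric.eventually_nhds_iff_ball.1 (hf.and hg)
  have h2 := isOpen_ball.eqOn_of_deriv_eq (convex_ball x ε).isPreconnected
    (fun t ht => (h1 t ht).1.differentiableAt.differentiableWithinAt)
    (fun t ht => (h1 t ht).2.differentiableAt.differentiableWithinAt)
    (fun t ht => by rw [(h1 t ht).1.deriv, (h1 t ht).2.deriv]) (mem_ball_self hε) h
  filter_upwards [isOpen_ball.mem_nhds (mem_ball_self hε)] with t ht
  exact h2 ht

/-- composition with the exponential coordinate -/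
theorem comp_exp {g f : ℂ → ℂ} {τ0 : ℂ} (hg : ∀ᶠ w in 𝓝 (w1 + exp τ0), HasDerivAt g (f w) w) :
    ∀ᶠ t in 𝓝 τ0, HasDerivAt (fun t => g (w1 + exp t)) (f (w1 + exp t) * exp t) t := by
  have h1 : ContinuousAt (fun t : ℂ => w1 + exp t) τ0 :=
    (continuous_const.add continuous_exp).continuousAt
  filter_upwards [h1.eventually hg] with t ht
  exact ht.comp t ((Complex.hasDerivAt_exp t).const_add w1)

/-- **The local theorem for the derivative.** -/
theorem der_loc (hD : D0 φ r) {lam : ℝ} (hlam : 0 < lam) (hBU : BranchesBlowUp φ r lam)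
    (hNF : NoFiniteIsolatedSingularity φ r)
    (hVG : ∀ (z : ℂ) (f : ℂ → ℂ), Branch φ r z f → ∀ b,
      VG (lam / 4) φ b (1 / conj z) (Rf f)) {ε : ℝ} (hε : 0 < ε)
    (hB : ∀ w ∈ ball w1 ε, 1 < ‖w‖) {f : ℂ → ℂ} (hf : DifferentiableOn ℂ f (ball w1 ε \ {w1}))
    {z : ℂ} (hz : z ∈ ball w1 ε \ {w1}) {g : ℂ → ℂ} (hg : Branch φ r z g)
    (hgf : deriv g =ᶠ[𝓝 z] f) :
    ∃ E : ℂ → ℂ, DifferentiableOn ℂ E (ball w1 ε) ∧ ∀ w ∈ ball w1 ε, w ≠ w1 → E w = f w := by
  classical
  have hw1 : 1 < ‖w1‖ := hB w1 (mem_ball_self hε)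
  set L : ℝ := Real.log ε with hLdef
  have hexpL : Real.exp L = ε := Real.exp_log hε
  have hzw : z - w1 ≠ 0 := sub_ne_zero.2 hz.2
  set τ0 : ℂ := log (z - w1) with hτ0def
  have hexp0 : exp τ0 = z - w1 := exp_log hzw
  have hz0 : w1 + exp τ0 = z := by rw [hexp0, add_sub_cancel]
  have hτ0 : τ0.re < L := by
    rw [hτ0def, log_re, hLdef]
    refine Real.log_lt_log (norm_pos_iff.2 hzw) ?_
    have := hz.1
    rwa [mem_ball, dist_eq_norm] at this
  set L' : ℝ := (τ0.re + L) / 2 with hL'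
  have hL'1 : τ0.re < L' := by rw [hL']; linarith
  have hL'2 : L' < L := by rw [hL']; linarith
  have hpo : IsOpen (ball w1 ε \ {w1}) := isOpen_ball.sdiff isClosed_singleton
  have hmem : ∀ τ : ℂ, τ.re < L → w1 + exp τ ∈ ball w1 ε \ {w1} := by
    intro τ hτ
    constructor
    · rw [mem_ball, dist_eq_norm, add_sub_cancel_left, norm_exp, ← hexpL]
      exact Real.exp_lt_exp.2 hτ
    · intro h
      exact exp_ne_zero τ (by simp at h)
  -- the function `G`
  set D : ℂ → ℂ := fun τ => f (w1 + exp τ) * exp τ with hDdef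
  have hDd : DifferentiableOn ℂ D (re ⁻¹' Iio L) := by
    intro τ hτ
    have h1 : DifferentiableAt ℂ f (w1 + exp τ) := hf.differentiableAt (hpo.mem_nhds (hmem τ hτ))
    have h2 : DifferentiableAt ℂ (fun τ => w1 + exp τ) τ :=
      (differentiableAt_const _).add differentiableAt_exp
    exact ((DifferentiableAt.comp (g := f) (f := fun τ => w1 + exp τ) τ h1 h2).mul
      differentiableAt_exp).differentiableWithinAt
  have hDper : ∀ τ : ℂ, τ.re < L → D (τ + per 1) = D τ := by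
    intro τ _
    simp only [D]
    rw [exp_add_per]
  set G : ℂ → ℂ := fun τ => g z + seg D τ0 τ with hGdef
  have hGd := prim hDd hτ0 (g z)
  have hGdiff : DifferentiableOn ℂ G (re ⁻¹' Iio L) := prim_diff hDd hτ0 (g z)
  have hGper := prim_per hDd hDper hτ0 (g z)
  have hUo : IsOpen (re ⁻¹' Iio L : Set ℂ) := isOpen_Iio.preimage continuous_re
  obtain ⟨ρ, hρ, hgd⟩ := branch_diff hD.hφ hg
  have hgder : ∀ᶠ w in 𝓝 (w1 + exp τ0), HasDerivAt g (f w) w := by
    rw [hz0]
    filter_upwards [hgf, isOpen_ball.mem_nhds (mem_ball_self hρ)] with w h1 h2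
    rw [← h1]
    exact (hgd.differentiableAt (isOpen_ball.mem_nhds h2)).hasDerivAt
  have hGg : G =ᶠ[𝓝 τ0] fun t => g (w1 + exp t) := by
    refine eq_of_deriv (f' := D) ?_ (comp_exp hgder) ?_
    · filter_upwards [hUo.mem_nhds hτ0] with t ht
      exact hGd t ht
    · simp only [G]
      rw [seg_self, add_zero, hz0]
  have hP0 := p0_of (G := G) hD hw1 hL'2 (by rw [hexpL]; exact hB) hGdiff hL'1 (g := g)
    (by rw [hz0]; exact hg) hGg
  obtain ⟨E, hE, hGE⟩ := loc_main (Δ := seg D τ0 (τ0 + per 1)) hP0 hlam hBU hNF hVG (by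
    intro w hw
    refine hB w (ball_subset_ball ?_ hw)
    rw [← hexpL]
    exact (Real.exp_lt_exp.2 hL'2).le) fun τ hτ => hGper τ (hτ.trans hL'2)
  -- the derivative
  have hfE : ∀ w ∈ ball w1 (Real.exp L'), w ≠ w1 → f w = deriv E w := by
    intro w hw hne
    have h0 : w - w1 ≠ 0 := sub_ne_zero.2 hne
    have h1 : exp (log (w - w1)) = w - w1 := exp_log h0
    have h2 : (log (w - w1)).re < L' := by
      rw [log_re, Real.log_lt_iff_lt_exp (norm_pos_iff.2 h0)]
      rwa [mem_ball, dist_eq_norm] at hw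
    have h3 : HasDerivAt G (D (log (w - w1))) (log (w - w1)) := hGd _ (h2.trans hL'2)
    have hUo' : IsOpen (re ⁻¹' Iio L' : Set ℂ) := isOpen_Iio.preimage continuous_re
    have h4 : G =ᶠ[𝓝 (log (w - w1))] fun t => E (w1 + exp t) := by
      filter_upwards [hUo'.mem_nhds (x := log (w - w1)) h2] with t ht
      exact hGE t ht
    have h5 : HasDerivAt E (deriv E w) (w1 + exp (log (w - w1))) := by
      rw [h1, add_sub_cancel]
      exact (hE.differentiableAt (isOpen_ball.mem_nhds hw)).hasDerivAt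
    have h6 := h5.comp (log (w - w1)) ((Complex.hasDerivAt_exp (log (w - w1))).const_add w1)
    have h7 := (h3.congr_of_eventuallyEq h4.symm).unique h6
    simp only [D] at h7
    rw [h1, add_sub_cancel] at h7
    exact mul_right_cancel₀ h0 h7
  refine ⟨fun w => if w = w1 then deriv E w1 else f w, ?_, fun w _ hne => by
    simp only
    rw [if_neg hne]⟩
  intro w hw
  by_cases hne : w = w1
  · subst hne
    have h1 : DifferentiableAt ℂ (deriv E) w :=
      (hE.deriv isOpen_ball).differentiableAt (isOpen_ball.mem_nhds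
        (mem_ball_self (Real.exp_pos _)))
    refine (h1.congr_of_eventuallyEq ?_).differentiableWithinAt
    filter_upwards [isOpen_ball.mem_nhds (mem_ball_self (x := w) (Real.exp_pos L'))] with v hv
    split_ifs with h2
    · rw [h2]
    · exact hfE v hv h2
  · have h1 : DifferentiableAt ℂ f w := hf.differentiableAt (hpo.mem_nhds ⟨hw, hne⟩)
    refine (h1.congr_of_eventuallyEq ?_).differentiableWithinAt
    filter_upwards [isOpen_ne.mem_nhds hne] with v hv
    rw [if_neg hv]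

/-- continuation along a radius -/
theorem branch_radial (hD : D0 φ r) {ρ : ℝ} (hρ : r ≤ ρ) {h : ℂ → ℂ}
    (hh : DifferentiableOn ℂ h (ball 0 ρ)) (hhφ : EqOn h φ (ball 0 r)) {z : ℂ}
    (hz : z ∈ ball (0 : ℂ) ρ) (hz1 : 1 < ‖z‖) : Branch φ r z h := by
  have hr := hD.hr
  rw [mem_ball_zero_iff] at hz
  have hzn : (‖z‖ : ℂ) ≠ 0 := ofReal_ne_zero.2 (by linarith)
  set e : ℂ := z / ‖z‖ with he
  have hen : ‖e‖ = 1 := by
    rw [he, norm_div, norm_real, norm_norm, div_self (by linarith)]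
  have hze : z = (‖z‖ : ℂ) * e := by rw [he]; field_simp
  set c' : ℂ := (((1 + ρ) / 2 : ℝ) : ℂ) * e with hc'
  have hpt : ∀ s : ℝ, 1 < s → s < ρ → (s : ℂ) * e ∈ ball c' ((ρ - 1) / 2) := by
    intro s h1 h2
    rw [mem_ball, dist_eq_norm, hc', ← sub_mul, ← ofReal_sub, norm_mul, hen, mul_one, norm_real,
      Real.norm_eq_abs, abs_lt]
    constructor <;> linarith
  have hball : ∀ w ∈ ball c' ((ρ - 1) / 2), 1 < ‖w‖ ∧ ‖w‖ < ρ := by
    intro w hw
    rw [mem_ball, dist_eq_norm] at hw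
    have hcn : ‖c'‖ = (1 + ρ) / 2 := by
      rw [hc', norm_mul, hen, mul_one, norm_real, Real.norm_of_nonneg (by linarith)]
    constructor
    · have h1 : ‖c'‖ ≤ ‖w‖ + ‖w - c'‖ := by
        have := norm_sub_le w (w - c')
        rwa [sub_sub_cancel] at this
      linarith
    · have h1 : ‖w‖ ≤ ‖c'‖ + ‖w - c'‖ := by
        have := norm_add_le c' (w - c')
        rwa [add_sub_cancel] at this
      linarith
  have hz0 : ((((1 + r) / 2 : ℝ) : ℂ) * e) ∈ ball (0 : ℂ) r := by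
    rw [mem_ball_zero_iff, norm_mul, hen, mul_one, norm_real, Real.norm_of_nonneg (by linarith)]
    linarith
  have hbase : Branch φ r ((((1 + r) / 2 : ℝ) : ℂ) * e) φ := by
    refine Branch.base _ ?_ (mem_ball_zero_iff.1 hz0)
    rw [norm_mul, hen, mul_one, norm_real, Real.norm_of_nonneg (by linarith)]
    linarith
  refine Branch.step _ z c' ((ρ - 1) / 2) φ h hbase (fun w hw => (hball w hw).1)
    (hh.mono fun w hw => mem_ball_zero_iff.2 (hball w hw).2) (hpt _ (by linarith) (by linarith))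
    (by rw [hze]; exact hpt _ hz1 hz) ?_
  filter_upwards [isOpen_ball.mem_nhds hz0] with w hw
  exact (hhφ hw).symm

/-- **The global theorem for the derivative.** -/
theorem glob (hD : D0 φ r) {lam : ℝ} (hlam : 0 < lam) (hBU : BranchesBlowUp φ r lam)
    (hNF : NoFiniteIsolatedSingularity φ r)
    (hVG : ∀ (z : ℂ) (f : ℂ → ℂ), Branch φ r z f → ∀ b,
      VG (lam / 4) φ b (1 / conj z) (Rf f)) {F : ℂ → ℂ}
    (hF : ∀ z : ℂ, ∀ᶠ w in 𝓝[≠] z, DifferentiableAt ℂ F w)
    (hFφ : EqOn F (deriv φ) (ball 0 r)) :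
    ∃ Φ : ℂ → ℂ, Differentiable ℂ Φ ∧ EqOn Φ φ (ball 0 r) := by
  classical
  have hr := hD.hr
  have hr0 : 0 < r := by linarith
  set S : Set ℂ := {z | ¬ ∃ E : ℂ → ℂ, AnalyticAt ℂ E z ∧ F =ᶠ[𝓝[≠] z] E} with hS
  set F1 : ℂ → ℂ := fun z => limUnder (𝓝[≠] z) F with hF1
  -- removable points
  have hrem : ∀ (z : ℂ) (E : ℂ → ℂ), AnalyticAt ℂ E z → F =ᶠ[𝓝[≠] z] E →
      ∀ᶠ y in 𝓝 z, y ∉ S ∧ F1 y = E y := by
    intro z E hE hFE
    obtain ⟨ε, hε, h1⟩ := Metric.eventually_nhds_iff_ball.1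
      (hE.eventually_analyticAt.and (eventually_nhdsWithin_iff.1 hFE))
    have h2 : ∀ y ∈ ball z ε, F =ᶠ[𝓝[≠] y] E := by
      intro y hy
      by_cases hyz : y = z
      · rw [hyz]; exact hFE
      · have h3 : ∀ᶠ v in 𝓝 y, F v = E v := by
          filter_upwards [isOpen_ball.mem_nhds hy, isOpen_ne.mem_nhds hyz] with v h4 h5
          exact (h1 v h4).2 h5
        exact h3.filter_mono nhdsWithin_le_nhds
    filter_upwards [isOpen_ball.mem_nhds (mem_ball_self hε)] with y hy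
    refine ⟨fun h => h ⟨E, (h1 y hy).1, h2 y hy⟩, ?_⟩
    have h3 : Tendsto F (𝓝[≠] y) (𝓝 (E y)) :=
      (((h1 y hy).1.continuousAt.tendsto).mono_left nhdsWithin_le_nhds).congr' (h2 y hy).symm
    exact h3.limUnder_eq
  have hreg : ∀ y : ℂ, AnalyticAt ℂ F y → y ∉ S ∧ F1 y = F y := by
    intro y hy
    have := (hrem y F hy (EventuallyEq.refl _ _)).self_of_nhds
    exact this
  have hF1a : ∀ z : ℂ, z ∉ S → DifferentiableAt ℂ F1 z := by
    intro z hz
    rw [hS, mem_ofPred_eq, not_not] at hz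
    obtain ⟨E, hE, hFE⟩ := hz
    refine hE.differentiableAt.congr_of_eventuallyEq ?_
    filter_upwards [hrem z E hE hFE] with y hy
    exact hy.2
  have hpun : ∀ z : ℂ, ∃ ε : ℝ, 0 < ε ∧ ∀ w ∈ ball z ε, w ≠ z → w ∉ S ∧ F1 w = F w := by
    intro z
    obtain ⟨ε, hε, h1⟩ := Metric.eventually_nhds_iff_ball.1 (eventually_nhdsWithin_iff.1 (hF z))
    refine ⟨ε, hε, fun w hw hne => hreg w ?_⟩
    have h2 : DifferentiableOn ℂ F (ball z ε \ {z}) := fun v hv =>
      (h1 v hv.1 hv.2).differentiableWithinAt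
    exact h2.analyticAt ((isOpen_ball.sdiff isClosed_singleton).mem_nhds ⟨hw, hne⟩)
  have hSc : IsClosed S := by
    rw [← isOpen_compl_iff, isOpen_iff_mem_nhds]
    intro z hz
    rw [mem_compl_iff, hS, mem_ofPred_eq, not_not] at hz
    obtain ⟨E, hE, hFE⟩ := hz
    filter_upwards [hrem z E hE hFE] with y hy
    exact hy.1
  have hφan : ∀ y ∈ ball (0 : ℂ) r, AnalyticAt ℂ F y := by
    intro y hy
    have h1 : AnalyticAt ℂ (deriv φ) y := (hD.hφ.analyticAt (isOpen_ball.mem_nhds hy)).deriv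
    refine h1.congr ?_
    filter_upwards [isOpen_ball.mem_nhds hy] with v hv
    exact (hFφ hv).symm
  have hSr : ∀ y ∈ ball (0 : ℂ) r, y ∉ S := fun y hy => (hreg y (hφan y hy)).1
  have hF1φ : ∀ y ∈ ball (0 : ℂ) r, F1 y = deriv φ y := fun y hy => by
    rw [(hreg y (hφan y hy)).2]; exact hFφ hy
  -- primitives in discs
  have hprim : ∀ ρ : ℝ, r ≤ ρ → (∀ y ∈ ball (0 : ℂ) ρ, y ∉ S) →
      (∀ w ∈ ball (0 : ℂ) ρ, HasDerivAt (fun w => φ 0 + seg F1 0 w) (F1 w) w) ∧
      EqOn (fun w => φ 0 + seg F1 0 w) φ (ball 0 r) := by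
    intro ρ hρ hy
    have h1 : DifferentiableOn ℂ F1 (ball 0 ρ) := fun w hw =>
      (hF1a w (hy w hw)).differentiableWithinAt
    obtain ⟨-, h2⟩ := t_SEG (ball 0 ρ) F1 isOpen_ball (convex_ball _ _) h1
    have h3 : ∀ w ∈ ball (0 : ℂ) ρ, HasDerivAt (fun w => φ 0 + seg F1 0 w) (F1 w) w :=
      fun w hw => (h2 0 (mem_ball_self (by linarith)) w hw).const_add _
    refine ⟨h3, ?_⟩
    refine isOpen_ball.eqOn_of_deriv_eq (convex_ball (0 : ℂ) r).isPreconnected
      (fun w hw => (h3 w (ball_subset_ball hρ hw)).differentiableAt.differentiableWithinAt)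
      hD.hφ (fun w hw => ?_) (mem_ball_self hr0) ?_
    · rw [(h3 w (ball_subset_ball hρ hw)).deriv, hF1φ w hw]
    · rw [seg_self, add_zero]
  rcases S.eq_empty_or_nonempty with hSe | hSne
  · refine ⟨fun w => φ 0 + seg F1 0 w, fun w => ?_, (hprim r le_rfl hSr).2⟩
    have h1 := (hprim (max r (‖w‖ + 1)) (le_max_left _ _) (fun y _ => by
      rw [hSe]; exact notMem_empty y)).1 w (by
        rw [mem_ball_zero_iff]
        exact lt_of_lt_of_le (by linarith) (le_max_right _ _))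
    exact h1.differentiableAt
  · exfalso
    obtain ⟨w1, hw1S, hw1d⟩ := hSc.exists_infDist_eq_dist hSne 0
    have hmin : ∀ y ∈ ball (0 : ℂ) ‖w1‖, y ∉ S := by
      intro y hy hyS
      have h1 := Metric.infDist_le_dist_of_mem (x := (0 : ℂ)) hyS
      rw [hw1d, dist_zero_left, dist_zero_left] at h1
      rw [mem_ball_zero_iff] at hy
      linarith
    have hrw : r ≤ ‖w1‖ := by
      by_contra hcon
      push Not at hcon
      exact hSr w1 (mem_ball_zero_iff.2 hcon) hw1S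
    have hw1n : 1 < ‖w1‖ := hr.trans_le hrw
    obtain ⟨hΦd, hΦφ⟩ := hprim ‖w1‖ hrw hmin
    obtain ⟨ε0, hε0, hpu⟩ := hpun w1
    set ε : ℝ := min ε0 (‖w1‖ - 1) with hεdef
    have hε : 0 < ε := lt_min hε0 (by linarith)
    have hB : ∀ w ∈ ball w1 ε, 1 < ‖w‖ := by
      intro w hw
      rw [mem_ball, dist_eq_norm] at hw
      have h1 := hw.trans_le (min_le_right _ _)
      have h2 : ‖w1‖ ≤ ‖w‖ + ‖w - w1‖ := by
        have := norm_sub_le w (w - w1)
        rwa [sub_sub_cancel] at this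
      linarith
    -- the point `z`
    set z : ℂ := ((1 - ε / (2 * ‖w1‖) : ℝ) : ℂ) * w1 with hz
    have h0n : 0 < ‖w1‖ := by linarith
    have hεw : ε ≤ ‖w1‖ - 1 := min_le_right _ _
    have hq : ε / (2 * ‖w1‖) < 1 := by
      rw [div_lt_one (by positivity)]; linarith
    have hq0 : 0 < ε / (2 * ‖w1‖) := by positivity
    have hzn : ‖z‖ = ‖w1‖ - ε / 2 := by
      rw [hz, norm_mul, norm_real, Real.norm_of_nonneg (by linarith)]
      field_simp
    have hzw : ‖z - w1‖ = ε / 2 := by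
      have e : z - w1 = ((-(ε / (2 * ‖w1‖)) : ℝ) : ℂ) * w1 := by
        rw [hz]; push_cast; ring
      rw [e, norm_mul, norm_real, norm_neg, Real.norm_of_nonneg hq0.le]
      field_simp
    have hzb : z ∈ ball (0 : ℂ) ‖w1‖ := by rw [mem_ball_zero_iff, hzn]; linarith
    have hz1 : 1 < ‖z‖ := by rw [hzn]; linarith
    have hΦdiff : DifferentiableOn ℂ (fun w => φ 0 + seg F1 0 w) (ball 0 ‖w1‖) := fun w hw =>
      (hΦd w hw).differentiableAt.differentiableWithinAt
    have hbr := branch_radial hD hrw hΦdiff hΦφ hzb hz1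
    have hzm : z ∈ ball w1 ε \ {w1} := by
      constructor
      · rw [mem_ball, dist_eq_norm, hzw]; linarith
      · intro h
        rw [mem_singleton_iff] at h
        rw [h, sub_self, norm_zero] at hzw
        linarith
    have hF1d : DifferentiableOn ℂ F1 (ball w1 ε \ {w1}) := by
      rintro w ⟨hw, hne⟩
      exact (hF1a w (hpu w (ball_subset_ball (min_le_left _ _) hw)
        hne).1).differentiableWithinAt
    obtain ⟨E, hE, hEF⟩ := der_loc hD hlam hBU hNF hVG hε hB hF1d hzm hbr (by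
      filter_upwards [isOpen_ball.mem_nhds hzb] with w hw
      exact (hΦd w hw).deriv)
    refine hw1S ⟨E, hE.analyticAt (isOpen_ball.mem_nhds (mem_ball_self hε)), ?_⟩
    rw [EventuallyEq, eventually_nhdsWithin_iff]
    filter_upwards [isOpen_ball.mem_nhds (mem_ball_self hε)] with w hw hne
    rw [hEF w hw hne]
    exact (hpu w (ball_subset_ball (min_le_left _ _) hw) hne).2.symm

end Pool.Agent.E8helper32.SL
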