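import Pool.Agent.E8helper32.SL.Jb
import Pool.Agent.Y971.SG.Bes

/-!
# The derivative of Hankel's integral in the order
-/

set_option autoImplicit false

open Complex MeasureTheory Metric Set Filter Topology ComplexConjugate

namespace Pool.Agent.E8helper32.SL

open Pool.Agent.Y245.SG (Bn)
open Pool.Agent.Y971.SG (hasDerivAt_Bn rec_Bn)
open Pool.Agent.E8helper32.SA (hF hF_cont gs gs_pos gs_cont gs_int gs_le hF_ray exp_pi exp_pi'
  pi_re pi_re' Hk)

/-- the Hankel integral with a weight -/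
noncomputable def HW (w : ℂ → ℂ) (s : ℝ) (κ : ℂ) : ℂ :=
  (∫ θ in (-Real.pi)..Real.pi, w (θ * I) * hF s κ (θ * I) * I) +
    (∫ ρ in Ioi (0 : ℝ), w (ρ + Real.pi * I) * hF s κ (ρ + Real.pi * I)) -
    ∫ ρ in Ioi (0 : ℝ), w (ρ + -(Real.pi * I)) * hF s κ (ρ + -(Real.pi * I))

theorem HW_one (s : ℝ) (κ : ℂ) : HW (fun _ => 1) s κ = Hk s κ := by
  unfold HW Hk
  simp only [one_mul]

/-- weights -/
structure Wt (w w' : ℂ → ℂ) (C : ℝ) : Prop where
  hC : 0 ≤ C
  hd : ∀ y, HasDerivAt w (w' y) y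
  hc' : Continuous w'
  hb : ∀ (c : ℂ), (c = Real.pi * I ∨ c = -(Real.pi * I)) → ∀ ρ : ℝ, 0 ≤ ρ →
    ‖w (ρ + c)‖ ≤ C * Real.exp ρ ∧ ‖w' (ρ + c)‖ ≤ C * Real.exp ρ

theorem Wt.hc {w w' : ℂ → ℂ} {C : ℝ} (h : Wt w w' C) : Continuous w :=
  continuous_iff_continuousAt.2 fun y => (h.hd y).continuousAt

theorem wt_one : Wt (fun _ => 1) (fun _ => 0) 1 where
  hC := zero_le_one
  hd := fun y => hasDerivAt_const y 1
  hc' := continuous_const
  hb := fun c _ ρ hρ => by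
    rw [norm_one, norm_zero, one_mul]
    exact ⟨Real.one_le_exp hρ, (Real.exp_pos _).le⟩

theorem wt_id : Wt (fun y => y) (fun _ => 1) (1 + Real.pi) where
  hC := by positivity
  hd := fun y => hasDerivAt_id y
  hc' := continuous_const
  hb := fun c hc ρ hρ => by
    have h0 : ‖c‖ = Real.pi := by
      rcases hc with h | h <;> rw [h] <;> simp [abs_of_pos Real.pi_pos]
    have h1 : ρ + 1 ≤ Real.exp ρ := Real.add_one_le_exp ρ
    have h2 : 1 ≤ Real.exp ρ := Real.one_le_exp hρ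
    constructor
    · refine (norm_add_le _ _).trans ?_
      rw [norm_real, Real.norm_of_nonneg hρ, h0]
      nlinarith [Real.pi_pos]
    · rw [norm_one]
      nlinarith [Real.pi_pos]

theorem gs_mul (s ρ : ℝ) : Real.exp ρ * gs s ρ = gs (s + 1) ρ := by
  unfold gs
  rw [← Real.exp_add]
  congr 1
  ring

theorem ce_of {c : ℂ} (hc : c = Real.pi * I ∨ c = -(Real.pi * I)) :
    c.re = 0 ∧ ∀ ρ : ℝ, exp (ρ + c) = ((-Real.exp ρ : ℝ) : ℂ) := by
  rcases hc with rfl | rfl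
  · exact ⟨pi_re, exp_pi⟩
  · exact ⟨pi_re', exp_pi'⟩

theorem w_ray {w w' : ℂ → ℂ} {C : ℝ} (h : Wt w w' C) {c : ℂ}
    (hc : c = Real.pi * I ∨ c = -(Real.pi * I)) (s : ℝ) (κ : ℂ) {ρ : ℝ} (hρ : 0 ≤ ρ) :
    ‖w (ρ + c) * hF s κ (ρ + c)‖ ≤ C * Real.exp ‖κ‖ * gs (s + 1) ρ ∧
    ‖w' (ρ + c) * hF s κ (ρ + c)‖ ≤ C * Real.exp ‖κ‖ * gs (s + 1) ρ := by
  obtain ⟨h1, h2⟩ := h.hb c hc ρ hρ
  have h3 := hF_ray (ce_of hc).1 (ce_of hc).2 s κ hρ
  have h4 := h.hC
  have e : C * Real.exp ‖κ‖ * gs (s + 1) ρ = (C * Real.exp ρ) * (Real.exp ‖κ‖ * gs s ρ) := by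
    rw [← gs_mul]; ring
  rw [e, norm_mul, norm_mul]
  constructor <;> gcongr

theorem w_int {w w' : ℂ → ℂ} {C : ℝ} (h : Wt w w' C) {c : ℂ}
    (hc : c = Real.pi * I ∨ c = -(Real.pi * I)) (s : ℝ) (κ : ℂ) :
    IntegrableOn (fun ρ : ℝ => w (ρ + c) * hF s κ (ρ + c)) (Ioi 0) ∧
    IntegrableOn (fun ρ : ℝ => w' (ρ + c) * hF s κ (ρ + c)) (Ioi 0) := by
  have hm : ∀ {v : ℂ → ℂ}, Continuous v → AEStronglyMeasurable
      (fun ρ : ℝ => v (ρ + c) * hF s κ (ρ + c)) (volume.restrict (Ioi 0)) := fun hv =>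
    ((hv.mul (hF_cont s κ)).comp (continuous_ofReal.add continuous_const)).aestronglyMeasurable
  constructor
  · refine Integrable.mono' ((gs_int (s + 1)).const_mul (C * Real.exp ‖κ‖)) (hm h.hc) ?_
    rw [ae_restrict_iff' measurableSet_Ioi]
    exact Eventually.of_forall fun ρ hρ => (w_ray h hc s κ (le_of_lt hρ)).1
  · refine Integrable.mono' ((gs_int (s + 1)).const_mul (C * Real.exp ‖κ‖)) (hm h.hc') ?_
    rw [ae_restrict_iff' measurableSet_Ioi]
    exact Eventually.of_forall fun ρ hρ => (w_ray h hc s κ (le_of_lt hρ)).2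

/-! ### the derivative in `κ` -/

theorem hF_dk (s : ℝ) (κ y : ℂ) : HasDerivAt (fun κ => hF s κ y) (-hF (s - 1) κ y) κ := by
  have h1 : HasDerivAt (fun κ : ℂ => exp y - κ * exp (-y) + s * y) (-(1 * exp (-y))) κ :=
    (((hasDerivAt_id κ).mul_const (exp (-y))).const_sub (exp y)).add_const _
  have h2 := h1.cexp
  have h3 : exp (exp y - κ * exp (-y) + s * y) * -(1 * exp (-y)) = -hF (s - 1) κ y := by
    unfold hF
    have : exp (exp y - κ * exp (-y) + ((s - 1 : ℝ) : ℂ) * y) =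
        exp (exp y - κ * exp (-y) + s * y) * exp (-y) := by
      rw [← exp_add]
      congr 1
      push_cast
      ring
    rw [this]
    ring
  rw [h3] at h2
  exact h2

theorem ray_dk {w w' : ℂ → ℂ} {C : ℝ} (h : Wt w w' C) {c : ℂ}
    (hc : c = Real.pi * I ∨ c = -(Real.pi * I)) (s : ℝ) (κ : ℂ) :
    HasDerivAt (fun κ => ∫ ρ in Ioi (0 : ℝ), w (ρ + c) * hF s κ (ρ + c))
      (-∫ ρ in Ioi (0 : ℝ), w (ρ + c) * hF (s - 1) κ (ρ + c)) κ := by
  have hm : ∀ s κ, AEStronglyMeasurable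
      (fun ρ : ℝ => w (ρ + c) * hF s κ (ρ + c)) (volume.restrict (Ioi 0)) := fun s κ =>
    ((h.hc.mul (hF_cont s κ)).comp (continuous_ofReal.add continuous_const)).aestronglyMeasurable
  have h1 := (hasDerivAt_integral_of_dominated_loc_of_deriv_le (μ := volume.restrict (Ioi (0 : ℝ)))
    (F := fun κ (ρ : ℝ) => w (ρ + c) * hF s κ (ρ + c))
    (F' := fun κ (ρ : ℝ) => -(w (ρ + c) * hF (s - 1) κ (ρ + c)))
    (bound := fun ρ => C * Real.exp (‖κ‖ + 1) * gs (s - 1 + 1) ρ) (s := ball κ 1) (x₀ := κ)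
    (ball_mem_nhds _ one_pos) (Eventually.of_forall fun κ => hm s κ) (w_int h hc s κ).1
    (hm (s - 1) κ).neg ?_ ((gs_int _).const_mul _) ?_).2
  · rwa [integral_neg] at h1
  · rw [ae_restrict_iff' measurableSet_Ioi]
    refine Eventually.of_forall fun ρ hρ κ' hκ' => ?_
    rw [norm_neg]
    refine (w_ray h hc (s - 1) κ' (le_of_lt hρ)).1.trans ?_
    have h2 : ‖κ'‖ ≤ ‖κ‖ + 1 := by
      rw [mem_ball, dist_eq_norm] at hκ'
      have := norm_add_le (κ' - κ) κ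
      rw [sub_add_cancel] at this
      linarith
    have := h.hC
    have := (gs_pos (s - 1 + 1) ρ).le
    gcongr
  · refine Eventually.of_forall fun ρ κ' _ => ?_
    have := (hF_dk s κ' (ρ + c)).const_mul (w (ρ + c))
    rw [mul_neg] at this
    exact this

theorem arc_bd (s : ℝ) (κ : ℂ) (θ : ℝ) : ‖hF s κ (θ * I)‖ ≤ Real.exp (1 + ‖κ‖) := by
  unfold hF
  rw [norm_exp]
  refine Real.exp_le_exp.2 ?_
  rw [add_re, sub_re]
  have h3 : ((s : ℂ) * (θ * I)).re = 0 := by rw [re_ofReal_mul]; simp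
  have h4 := re_le_norm (exp (θ * I))
  rw [norm_exp_ofReal_mul_I] at h4
  have h5 := abs_re_le_norm (κ * exp (-(θ * I)))
  have h6 : ‖κ * exp (-(θ * I))‖ = ‖κ‖ := by
    rw [norm_mul, norm_exp, neg_re]
    simp
  rw [h6] at h5
  have h7 := neg_abs_le (κ * exp (-(θ * I))).re
  linarith

theorem arc_dk {w w' : ℂ → ℂ} {C : ℝ} (h : Wt w w' C) (s : ℝ) (κ : ℂ) :
    HasDerivAt (fun κ => ∫ θ in (-Real.pi)..Real.pi, w (θ * I) * hF s κ (θ * I) * I)
      (-∫ θ in (-Real.pi)..Real.pi, w (θ * I) * hF (s - 1) κ (θ * I) * I) κ := by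
  have hcont : ∀ s κ, Continuous fun θ : ℝ => w (θ * I) * hF s κ (θ * I) * I := fun s κ =>
    ((h.hc.mul (hF_cont s κ)).comp (continuous_ofReal.mul continuous_const)).mul continuous_const
  have hwc : Continuous fun θ : ℝ => ‖w (θ * I)‖ * Real.exp (1 + (‖κ‖ + 1)) :=
    ((h.hc.comp (continuous_ofReal.mul continuous_const)).norm).mul continuous_const
  have h1 := (intervalIntegral.hasDerivAt_integral_of_dominated_loc_of_deriv_le (μ := volume)
    (a := -Real.pi) (b := Real.pi)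
    (F := fun κ (θ : ℝ) => w (θ * I) * hF s κ (θ * I) * I)
    (F' := fun κ (θ : ℝ) => -(w (θ * I) * hF (s - 1) κ (θ * I) * I))
    (bound := fun θ => ‖w (θ * I)‖ * Real.exp (1 + (‖κ‖ + 1))) (s := ball κ 1) (x₀ := κ)
    (ball_mem_nhds _ one_pos) (Eventually.of_forall fun κ => (hcont s κ).aestronglyMeasurable)
    ((hcont s κ).intervalIntegrable _ _) (hcont (s - 1) κ).aestronglyMeasurable.neg ?_
    (hwc.intervalIntegrable _ _) ?_).2
  · rwa [intervalIntegral.integral_neg] at h1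
  · refine Eventually.of_forall fun θ _ κ' hκ' => ?_
    rw [norm_neg, norm_mul, norm_mul, norm_I, mul_one]
    have h2 : ‖κ'‖ ≤ ‖κ‖ + 1 := by
      rw [mem_ball, dist_eq_norm] at hκ'
      have := norm_add_le (κ' - κ) κ
      rw [sub_add_cancel] at this
      linarith
    have h3 := (arc_bd (s - 1) κ' θ).trans (Real.exp_le_exp.2 (add_le_add_right h2 1))
    gcongr
  · refine Eventually.of_forall fun θ _ κ' _ => ?_
    have := ((hF_dk s κ' (θ * I)).const_mul (w (θ * I))).mul_const I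
    rw [mul_neg, neg_mul] at this
    exact this

/-- **The derivative in `κ`.** -/
theorem HW_dk {w w' : ℂ → ℂ} {C : ℝ} (h : Wt w w' C) (s : ℝ) (κ : ℂ) :
    HasDerivAt (fun κ => HW w s κ) (-HW w (s - 1) κ) κ := by
  have h1 := ((arc_dk h s κ).add (ray_dk h (Or.inl rfl) s κ)).sub (ray_dk h (Or.inr rfl) s κ)
  refine h1.congr_deriv ?_
  unfold HW
  ring

/-! ### the recurrence -/

theorem hF_dy (s : ℝ) (κ y : ℂ) :
    HasDerivAt (hF s κ) (hF (s + 1) κ y + κ * hF (s - 1) κ y + s * hF s κ y) y := by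
  have h1 : HasDerivAt (fun y : ℂ => exp y - κ * exp (-y) + s * y)
      (exp y - κ * (exp (-y) * -1) + s * 1) y :=
    ((hasDerivAt_exp y).sub (((hasDerivAt_id y).neg.cexp).const_mul κ)).add
      ((hasDerivAt_id y).const_mul _)
  have h2 := h1.cexp
  refine h2.congr_deriv ?_
  unfold hF
  have e1 : exp (exp y - κ * exp (-y) + ((s + 1 : ℝ) : ℂ) * y) =
      exp (exp y - κ * exp (-y) + s * y) * exp y := by
    rw [← exp_add]; congr 1; push_cast; ring
  have e2 : exp (exp y - κ * exp (-y) + ((s - 1 : ℝ) : ℂ) * y) =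
      exp (exp y - κ * exp (-y) + s * y) * exp (-y) := by
    rw [← exp_add]; congr 1; push_cast; ring
  rw [e1, e2]
  ring

theorem wF_dy {w w' : ℂ → ℂ} {C : ℝ} (h : Wt w w' C) (s : ℝ) (κ y : ℂ) :
    HasDerivAt (fun y => w y * hF s κ y)
      (w' y * hF s κ y + (w y * hF (s + 1) κ y + κ * (w y * hF (s - 1) κ y) +
        s * (w y * hF s κ y))) y := by
  refine ((h.hd y).mul (hF_dy s κ y)).congr_deriv ?_
  ring

theorem ray_par {w w' : ℂ → ℂ} {C : ℝ} (h : Wt w w' C) {c : ℂ}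
    (hc : c = Real.pi * I ∨ c = -(Real.pi * I)) (s : ℝ) (κ : ℂ) :
    (∫ ρ in Ioi (0 : ℝ), w' (ρ + c) * hF s κ (ρ + c)) +
      ((∫ ρ in Ioi (0 : ℝ), w (ρ + c) * hF (s + 1) κ (ρ + c)) +
      κ * (∫ ρ in Ioi (0 : ℝ), w (ρ + c) * hF (s - 1) κ (ρ + c)) +
      s * ∫ ρ in Ioi (0 : ℝ), w (ρ + c) * hF s κ (ρ + c)) = - (w c * hF s κ c) := by
  have h1 : ∀ ρ ∈ Ici (0 : ℝ), HasDerivAt (fun ρ : ℝ => w (ρ + c) * hF s κ (ρ + c))
      (w' (ρ + c) * hF s κ (ρ + c) + (w (ρ + c) * hF (s + 1) κ (ρ + c) +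
        κ * (w (ρ + c) * hF (s - 1) κ (ρ + c)) + s * (w (ρ + c) * hF s κ (ρ + c)))) ρ := by
    intro ρ _
    have h2 : HasDerivAt (fun ρ : ℝ => (ρ : ℂ) + c) 1 ρ := by
      have := (hasDerivAt_id (ρ : ℂ)).comp_ofReal.add_const c
      exact this
    have h3 := (wF_dy h s κ (ρ + c)).comp_of_eq ρ h2 rfl
    rw [mul_one] at h3
    exact h3
  have i1 := (w_int h hc s κ).2
  have i2 := (w_int h hc (s + 1) κ).1
  have i3 := (w_int h hc (s - 1) κ).1
  have i4 := (w_int h hc s κ).1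
  have i5 : IntegrableOn (fun ρ : ℝ => w (ρ + c) * hF (s + 1) κ (ρ + c) +
        κ * (w (ρ + c) * hF (s - 1) κ (ρ + c))) (Ioi 0) := i2.add (i3.const_mul κ)
  have i6 : IntegrableOn (fun ρ : ℝ => w (ρ + c) * hF (s + 1) κ (ρ + c) +
        κ * (w (ρ + c) * hF (s - 1) κ (ρ + c)) + s * (w (ρ + c) * hF s κ (ρ + c))) (Ioi 0) :=
    i5.add (i4.const_mul (s : ℂ))
  have h3 : Tendsto (fun ρ : ℝ => w (ρ + c) * hF s κ (ρ + c)) atTop (𝓝 0) := by
    have hl : Tendsto (fun ρ : ℝ => C * Real.exp ‖κ‖ * Real.exp (-1 * ρ)) atTop (𝓝 0) := by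
      have : Tendsto (fun ρ : ℝ => -1 * ρ) atTop atBot := by
        simpa using tendsto_neg_atTop_atBot
      have := (Real.tendsto_exp_atBot.comp this).const_mul (C * Real.exp ‖κ‖)
      rwa [mul_zero] at this
    refine squeeze_zero_norm' ?_ hl
    filter_upwards [gs_le (s + 1), eventually_ge_atTop 0] with ρ h4 h5
    refine (w_ray h hc s κ h5).1.trans ?_
    have := h.hC
    gcongr
  have h4 := integral_Ioi_of_hasDerivAt_of_tendsto' h1 (i1.add i6) h3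
  have e : (∫ ρ in Ioi (0 : ℝ), (w' (ρ + c) * hF s κ (ρ + c) + (w (ρ + c) * hF (s + 1) κ (ρ + c) +
        κ * (w (ρ + c) * hF (s - 1) κ (ρ + c)) + s * (w (ρ + c) * hF s κ (ρ + c))))) =
      (∫ ρ in Ioi (0 : ℝ), w' (ρ + c) * hF s κ (ρ + c)) +
      ((∫ ρ in Ioi (0 : ℝ), w (ρ + c) * hF (s + 1) κ (ρ + c)) +
      κ * (∫ ρ in Ioi (0 : ℝ), w (ρ + c) * hF (s - 1) κ (ρ + c)) +
      s * ∫ ρ in Ioi (0 : ℝ), w (ρ + c) * hF s κ (ρ + c)) := by
    rw [integral_add i1 i6, integral_add i5 (i4.const_mul (s : ℂ)),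
      integral_add i2 (i3.const_mul κ), integral_const_mul, integral_const_mul]
  rw [e, ofReal_zero, zero_add, zero_sub] at h4
  exact h4

theorem arc_par {w w' : ℂ → ℂ} {C : ℝ} (h : Wt w w' C) (s : ℝ) (κ : ℂ) :
    (∫ θ in (-Real.pi)..Real.pi, w' (θ * I) * hF s κ (θ * I) * I) +
      ((∫ θ in (-Real.pi)..Real.pi, w (θ * I) * hF (s + 1) κ (θ * I) * I) +
      κ * (∫ θ in (-Real.pi)..Real.pi, w (θ * I) * hF (s - 1) κ (θ * I) * I) +
      s * ∫ θ in (-Real.pi)..Real.pi, w (θ * I) * hF s κ (θ * I) * I) =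
      w (Real.pi * I) * hF s κ (Real.pi * I) - w (-(Real.pi * I)) * hF s κ (-(Real.pi * I)) := by
  have h1 : ∀ θ ∈ uIcc (-Real.pi) Real.pi, HasDerivAt (fun θ : ℝ => w (θ * I) * hF s κ (θ * I))
      (w' (θ * I) * hF s κ (θ * I) * I + (w (θ * I) * hF (s + 1) κ (θ * I) * I +
        κ * (w (θ * I) * hF (s - 1) κ (θ * I) * I) + s * (w (θ * I) * hF s κ (θ * I) * I))) θ := by
    intro θ _
    have h2 : HasDerivAt (fun θ : ℝ => (θ : ℂ) * I) I θ := by
      have := (hasDerivAt_id (θ : ℂ)).comp_ofReal.mul_const I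
      rw [one_mul] at this
      exact this
    have h3 := (wF_dy h s κ (θ * I)).comp_of_eq θ h2 rfl
    refine h3.congr_deriv ?_
    ring
  have c0 : ∀ {v : ℂ → ℂ}, Continuous v → ∀ s : ℝ,
      Continuous fun θ : ℝ => v (θ * I) * hF s κ (θ * I) * I := fun hv s =>
    ((hv.mul (hF_cont s κ)).comp (continuous_ofReal.mul continuous_const)).mul continuous_const
  have c1 := c0 h.hc' s
  have c2 := c0 h.hc (s + 1)
  have c3 : Continuous fun θ : ℝ => κ * (w (θ * I) * hF (s - 1) κ (θ * I) * I) :=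
    continuous_const.mul (c0 h.hc (s - 1))
  have c4 : Continuous fun θ : ℝ => (s : ℂ) * (w (θ * I) * hF s κ (θ * I) * I) :=
    continuous_const.mul (c0 h.hc s)
  have c5 : Continuous fun θ : ℝ => w (θ * I) * hF (s + 1) κ (θ * I) * I +
      κ * (w (θ * I) * hF (s - 1) κ (θ * I) * I) := c2.add c3
  have c6 : Continuous fun θ : ℝ => w (θ * I) * hF (s + 1) κ (θ * I) * I +
      κ * (w (θ * I) * hF (s - 1) κ (θ * I) * I) + s * (w (θ * I) * hF s κ (θ * I) * I) :=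
    c5.add c4
  have h4 := intervalIntegral.integral_eq_sub_of_hasDerivAt h1
    ((c1.add c6).intervalIntegrable _ _)
  rw [intervalIntegral.integral_add (c1.intervalIntegrable _ _) (c6.intervalIntegrable _ _),
    intervalIntegral.integral_add (c5.intervalIntegrable _ _) (c4.intervalIntegrable _ _),
    intervalIntegral.integral_add (c2.intervalIntegrable _ _) (c3.intervalIntegrable _ _),
    intervalIntegral.integral_const_mul, intervalIntegral.integral_const_mul] at h4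
  rw [h4]
  have e : (((-Real.pi : ℝ) : ℂ) * I) = -(Real.pi * I) := by push_cast; ring
  rw [e]

/-- **The recurrence.** -/
theorem HW_rec {w w' : ℂ → ℂ} {C : ℝ} (h : Wt w w' C) (s : ℝ) (κ : ℂ) :
    HW w' s κ + (HW w (s + 1) κ + κ * HW w (s - 1) κ + s * HW w s κ) = 0 := by
  have h1 := arc_par h s κ
  have h2 := ray_par h (Or.inl rfl) s κ
  have h3 := ray_par h (Or.inr rfl) s κ
  unfold HW
  linear_combination h1 + h2 - h3

end Pool.Agent.E8helper32.SL
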