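import Pool.Agent.E8helper32.SL.Opi

/-!
# The exponential integrals along open paths
-/

set_option autoImplicit false

open Complex MeasureTheory Metric Set Filter Topology ComplexConjugate

namespace Pool.Agent.E8helper32.SL

open Pool.Agent.Results.MP_83fd13_an.BranchSingularities
open Pool.Agent.Y245.SC (seg kap t_SEG t_PAR t_KAP)
open Pool.Agent.Y245.UC (Rf kerU VG VGH)
open Pool.Agent.E8helper32.SA (Ji JB wbound kers)

variable {φ : ℂ → ℂ} {r : ℝ} {w1 : ℂ} {L : ℝ} {G : ℂ → ℂ} {q : ℕ}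
  {Λ : ℝ} {ℓ : ℂ → ℂ}

theorem jbound (hG : P0 φ r w1 L G) (hC : Co φ r w1 L Λ ℓ) {a : ℝ} (ha : 0 < a)
    (hVG : ∀ (z : ℂ) (f : ℂ → ℂ), Branch φ r z f → ∀ b, VG a φ b (1 / conj z) (Rf f)) :
    JB a Λ (Ts G ℓ) := by
  intro σ1 hσ1
  have hUo : IsOpen (re ⁻¹' Iio Λ : Set ℂ) := isOpen_Iio.preimage continuous_re
  have hTd := Ts_diff hC hG.hG
  have hline : ∀ t : ℝ, σ1 + t * (2 * Real.pi * I) ∈ (re ⁻¹' Iio Λ : Set ℂ) := by
    intro t
    rw [mem_preimage]
    have : (σ1 + t * (2 * Real.pi * I)).re = σ1.re := by simp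
    rw [this]
    exact hσ1
  have hs : Continuous fun t : ℝ => σ1 + t * (2 * Real.pi * I) :=
    continuous_const.add (continuous_ofReal.mul continuous_const)
  have hT : Continuous fun t : ℝ => Ts G ℓ (σ1 + t * (2 * Real.pi * I)) :=
    hTd.continuousOn.comp_continuous hs hline
  have hE : Continuous fun t : ℝ => exp (σ1 + t * (2 * Real.pi * I)) := hs.cexp
  have hsub : σ1 + 2 * Real.pi * I - σ1 = 2 * Real.pi * I := by ring
  obtain ⟨C, hCb⟩ := wbound ha (x := fun t => exp (σ1 + t * (2 * Real.pi * I)) - exp σ1)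
    (X := fun t => Ts G ℓ (σ1 + t * (2 * Real.pi * I)))
    (W := fun t => exp (σ1 + t * (2 * Real.pi * I)) * (2 * Real.pi * I))
    (hE.sub continuous_const) hT (hE.mul continuous_const)
    (Δ := Ts G ℓ (σ1 + 2 * Real.pi * I) - Ts G ℓ σ1) (by
      intro b
      rw [opi hG hC ha hVG hσ1 b]
      unfold seg kers
      refine intervalIntegral.integral_congr fun t _ => ?_
      simp only [hsub]
      ring)
  refine ⟨C, fun α hα => ?_⟩
  have h1 := hCb α hα
  have h2 : seg (Ji a (Ts G ℓ) α) σ1 (σ1 + 2 * Real.pi * I) = exp (α * exp σ1) *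
      ∫ s in (0 : ℝ)..1, exp (α * (exp (σ1 + s * (2 * Real.pi * I)) - exp σ1) -
        a / α * Ts G ℓ (σ1 + s * (2 * Real.pi * I))) *
        (exp (σ1 + s * (2 * Real.pi * I)) * (2 * Real.pi * I)) := by
    rw [← intervalIntegral.integral_const_mul]
    unfold seg Ji
    refine intervalIntegral.integral_congr fun t _ => ?_
    simp only [hsub]
    have h3 : exp (α * exp (σ1 + t * (2 * Real.pi * I)) -
        a / α * Ts G ℓ (σ1 + t * (2 * Real.pi * I))) = exp (α * exp σ1) *
        exp (α * (exp (σ1 + t * (2 * Real.pi * I)) - exp σ1) -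
        a / α * Ts G ℓ (σ1 + t * (2 * Real.pi * I))) := by
      rw [← exp_add]
      congr 1
      ring
    rw [h3]
    ring
  rw [h2, norm_mul, norm_exp, mul_comm]
  exact mul_le_mul_of_nonneg_right h1 (Real.exp_pos _).le

end Pool.Agent.E8helper32.SL
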