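import Pool.Agent.E8helper32.SL.Cb
import Pool.Agent.E8helper32.SL.Jb

/-!
# The uniform bound of the exponential integrals
-/

set_option autoImplicit false

open Complex MeasureTheory Metric Set Filter Topology ComplexConjugate

namespace Pool.Agent.E8helper32.SL

open Pool.Agent.Results.MP_83fd13_an.BranchSingularities
open Pool.Agent.Y245.SC
open Pool.Agent.Y245.UC (Rf kerU VG VGH)
open Pool.Agent.Y953.SC (summable_prod_exp hasSum_regroup e1 norm_e1 sum1 coeff_zero fib_neg fib_pos)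
open Pool.Agent.E8helper32.SA (Ji JB kers hs_congr hasSum_int family)

/-- **The bound.** -/
theorem wboundB {a : ℝ} (ha : 0 < a) {x X W : ℝ → ℂ} (hx : Continuous x) (hX : Continuous X)
    (hW : Continuous W) {Δ : ℂ}
    (h : ∀ b : ℂ, ∫ s in (0 : ℝ)..1, (X s - b) ^ 2 * kap a ((X s - b) * x s) * W s = Δ)
    {B : ℝ} (hB : 1 ≤ B) (hXB : ∀ ω ∈ Icc (0 : ℝ) 1, ‖X ω‖ ≤ B)
    (hxB : ∀ ω ∈ Icc (0 : ℝ) 1, ‖x ω‖ ≤ B) (hWB : ∀ ω ∈ Icc (0 : ℝ) 1, ‖W ω‖ ≤ B)
    (α : ℂ) (hα : 1 ≤ ‖α‖) :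
    ‖∫ s in (0 : ℝ)..1, exp (α * x s - a / α * X s) * W s‖ ≤
      Real.exp (a * B) * Real.exp B * B := by
  have hk : S_KAP := Pool.Agent.Y769.SC.kap
  have hB0 : 0 ≤ B := by linarith
  have ha' : (a : ℂ) ≠ 0 := by exact_mod_cast ha.ne'
  have ce1 : ∀ m, Continuous (fun ω => e1 a (x ω) m) := by
    intro m
    match m with
    | 0 => exact continuous_const
    | 1 => exact continuous_const
    | k + 2 => exact (continuous_const.mul (hx.pow k)).div_const _
  have f1 := family (e := fun m ω => e1 a (x ω) m) (s := X) (W := W) (C := 1)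
    (K := (a + 1) * B) (B := B) (D := B) zero_le_one (by positivity) hB0 ce1 hX hW
    (fun m ω hω => norm_e1 ha hB (hxB ω hω) m) hXB hWB (fun t ω _ => sum1 hk ha (x ω) (X ω) t)
    (Δ := Δ) (fun t => by
      rw [← h (-t)]
      simp only [sub_zero])
  have hα0 : α ≠ 0 := norm_pos_iff.1 (by linarith)
  obtain ⟨β, hβ⟩ : ∃ β : ℂ, β = -(a / α) := ⟨_, rfl⟩
  have hαβ : α * β = -(a : ℂ) := by rw [hβ]; field_simp
  have hβ0 : β ≠ 0 := fun h0 => ha' (by rw [h0, mul_zero] at hαβ; exact neg_eq_zero.1 hαβ.symm)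
  have hβn : ‖β‖ * ‖α‖ = a := by
    rw [← norm_mul, mul_comm β, hαβ, norm_neg, norm_real, Real.norm_of_nonneg ha.le]
  set T : ℕ × ℕ → ℂ := fun p => ∫ ω in (0 : ℝ)..1, ((β * X ω) ^ p.1 / (p.1.factorial : ℂ)) *
    ((α * x ω) ^ p.2 / (p.2.factorial : ℂ)) * W ω with hT
  have hsumT : HasSum T (∫ ω in (0 : ℝ)..1, exp (α * x ω - a / α * X ω) * W ω) := by
    refine hasSum_int
      (u := fun p => 1 * 1 ^ (p.1 + p.2) * ((‖β‖ * B) ^ p.1 / (p.1.factorial : ℝ)) *
        ((‖α‖ * B) ^ p.2 / (p.2.factorial : ℝ)) * B)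
      ((summable_prod_exp 1 1 (‖β‖ * B) (‖α‖ * B) zero_le_one (by positivity)
        (by positivity)).mul_right B) ?_ ?_ ?_
    · intro p
      exact ((((continuous_const.mul hX).pow _).div_const _).mul
        (((continuous_const.mul hx).pow _).div_const _)).mul hW
    · intro p ω hω
      rw [norm_mul, norm_mul, norm_div, norm_div, norm_pow, norm_pow, norm_mul, norm_mul,
        Complex.norm_natCast, Complex.norm_natCast, one_pow, one_mul, one_mul]
      have g1 := hXB ω hω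
      have g2 := hxB ω hω
      have g3 := hWB ω hω
      gcongr
    · intro ω hω
      have g1 : HasSum (fun m : ℕ => (1 : ℂ) * ((β * X ω + α * x ω) ^ m / (m.factorial : ℂ)))
          (exp (α * x ω - a / α * X ω)) := by
        have e0 : α * x ω - a / α * X ω = β * X ω + α * x ω := by rw [hβ]; ring
        rw [e0, Complex.exp_eq_exp_ℂ]
        refine hs_congr (NormedSpace.expSeries_div_hasSum_exp (β * X ω + α * x ω)) fun m => ?_
        rw [one_mul]
      have g2 := hasSum_regroup (e := fun _ => (1 : ℂ)) (C := 1) (K := 1) zero_le_one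
        (fun m => by simp) g1
      refine hs_congr (g2.mul_right (W ω)) fun p => ?_
      rw [one_mul]
  -- the part with negative powers
  set T' : ℕ × ℕ → ℂ := fun p => if p.2 < p.1 then T p else 0 with hT'
  have hTb : ∀ p : ℕ × ℕ, ‖T' p‖ ≤ ((a * B) ^ p.1 / (p.1.factorial : ℝ)) *
      (B ^ p.2 / (p.2.factorial : ℝ)) * B := by
    intro p
    rw [hT']
    simp only
    split_ifs with hp
    swap
    · rw [norm_zero]; positivity
    have g0 : ‖T p‖ ≤ (((‖β‖ * B) ^ p.1 / (p.1.factorial : ℝ)) *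
        ((‖α‖ * B) ^ p.2 / (p.2.factorial : ℝ)) * B) * |(1 : ℝ) - 0| := by
      rw [hT]
      refine intervalIntegral.norm_integral_le_of_norm_le_const fun ω hω => ?_
      rw [uIoc_of_le zero_le_one] at hω
      have hω' : ω ∈ Icc (0 : ℝ) 1 := ⟨hω.1.le, hω.2⟩
      rw [norm_mul, norm_mul, norm_div, norm_div, norm_pow, norm_pow, norm_mul, norm_mul,
        Complex.norm_natCast, Complex.norm_natCast]
      have g1 := hXB ω hω'
      have g2 := hxB ω hω'
      have g3 := hWB ω hω'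
      gcongr
    rw [sub_zero, abs_one, mul_one] at g0
    refine g0.trans ?_
    have g4 : (‖β‖ * B) ^ p.1 * (‖α‖ * B) ^ p.2 ≤ (a * B) ^ p.1 * B ^ p.2 := by
      have g5 : ‖β‖ ^ p.1 * ‖α‖ ^ p.2 ≤ a ^ p.1 := by
        calc ‖β‖ ^ p.1 * ‖α‖ ^ p.2 ≤ ‖β‖ ^ p.1 * ‖α‖ ^ p.1 :=
              mul_le_mul_of_nonneg_left (pow_le_pow_right₀ hα hp.le) (by positivity)
          _ = a ^ p.1 := by rw [← mul_pow, hβn]
      calc (‖β‖ * B) ^ p.1 * (‖α‖ * B) ^ p.2
          = (‖β‖ ^ p.1 * ‖α‖ ^ p.2) * (B ^ p.1 * B ^ p.2) := by rw [mul_pow, mul_pow]; ring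
        _ ≤ a ^ p.1 * (B ^ p.1 * B ^ p.2) := mul_le_mul_of_nonneg_right g5 (by positivity)
        _ = (a * B) ^ p.1 * B ^ p.2 := by rw [mul_pow]; ring
    rw [div_mul_div_comm, div_mul_div_comm]
    gcongr
  have hsb : Summable fun p : ℕ × ℕ => ((a * B) ^ p.1 / (p.1.factorial : ℝ)) *
      (B ^ p.2 / (p.2.factorial : ℝ)) * B := by
    have := (summable_prod_exp 1 1 (a * B) B zero_le_one (by positivity) hB0).mul_right B
    refine this.congr fun p => ?_
    rw [one_pow, one_mul, one_mul]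
  have hsT' : Summable T' := Summable.of_norm_bounded hsb hTb
  have hfib := hsumT.tsum_fiberwise fun p : ℕ × ℕ => (p.1 : ℤ) - p.2
  have hfib' := hsT'.hasSum.tsum_fiberwise fun p : ℕ × ℕ => (p.1 : ℤ) - p.2
  have hz : ∀ n : ℤ, ∑' b : (fun p : ℕ × ℕ => (p.1 : ℤ) - p.2) ⁻¹' {n}, T' b =
      ∑' b : (fun p : ℕ × ℕ => (p.1 : ℤ) - p.2) ⁻¹' {n}, T b := by
    intro n
    rcases le_or_gt n 0 with hn | hn
    · obtain ⟨m, rfl⟩ : ∃ m : ℕ, n = -(m : ℤ) := ⟨n.natAbs, by omega⟩
      rw [fib_neg, tsum_range T (fun l l' hl => by simpa using congrArg Prod.fst hl),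
        tsum_range T' (fun l l' hl => by simpa using congrArg Prod.fst hl)]
      have g1 := (f1 (m + 2) (by omega)).mul_left (α ^ m / (-(a : ℂ)) ^ (m + 1))
      rw [mul_zero] at g1
      have g2 : HasSum (fun l : ℕ => T (l, l + m)) 0 := by
        refine hs_congr g1 fun l => ?_
        rw [hT]
        simp only
        rw [← intervalIntegral.integral_const_mul]
        congr 1
        ext ω
        have e : e1 a (x ω) (l + (m + 2)) =
          (-(a : ℂ)) ^ (l + m + 1) * x ω ^ (l + m) / ((l + m).factorial : ℂ) := rfl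
        rw [e, ← hαβ, mul_pow, mul_pow]
        have q1 : ((l + m).factorial : ℂ) ≠ 0 := by exact_mod_cast (l + m).factorial_ne_zero
        have q2 : (l.factorial : ℂ) ≠ 0 := by exact_mod_cast l.factorial_ne_zero
        generalize ((l + m).factorial : ℂ) = F1 at *
        generalize (l.factorial : ℂ) = F2 at *
        field_simp
        try ring
      rw [g2.tsum_eq]
      have g3 : ∀ l : ℕ, T' (l, l + m) = 0 := by
        intro l
        rw [hT']
        simp only
        rw [if_neg (by omega)]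
      simp only [g3, tsum_zero]
    · refine tsum_congr fun b => ?_
      have hb : ((b : ℕ × ℕ).1 : ℤ) - (b : ℕ × ℕ).2 = n := b.2
      rw [hT']
      simp only
      rw [if_pos (by omega)]
  have h9 := hfib'.unique (hs_congr hfib fun n => hz n)
  rw [← h9]
  calc ‖∑' p, T' p‖ ≤ ∑' p : ℕ × ℕ, ((a * B) ^ p.1 / (p.1.factorial : ℝ)) *
      (B ^ p.2 / (p.2.factorial : ℝ)) * B := tsum_of_norm_bounded hsb.hasSum hTb
    _ = Real.exp (a * B) * Real.exp B * B := by
      rw [tsum_mul_right]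
      congr 1
      have s1 : Summable fun n : ℕ => (a * B) ^ n / (n.factorial : ℝ) :=
        Real.summable_pow_div_factorial _
      have s2 : Summable fun n : ℕ => B ^ n / (n.factorial : ℝ) :=
        Real.summable_pow_div_factorial _
      have s3 := s1.mul_of_nonneg s2 (fun n => by positivity) (fun n => by positivity)
      rw [← s1.tsum_mul_tsum s2 s3, Real.exp_eq_exp_ℝ, NormedSpace.exp_eq_tsum_div]


variable {φ : ℂ → ℂ} {r : ℝ} {w1 : ℂ} {L : ℝ} {G : ℂ → ℂ} {q : ℕ} {Λ : ℝ} {ℓ : ℂ → ℂ}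

/-- the uniform bound of the exponential integrals -/
def JU (a Λ : ℝ) (T : ℂ → ℂ) : Prop := ∀ x0 Y : ℝ, x0 < Λ → ∃ C : ℝ, ∀ σ1 : ℂ, σ1.re = x0 →
  |σ1.im| ≤ Y → ∀ α : ℂ, 1 ≤ ‖α‖ →
  ‖seg (Ji a T α) σ1 (σ1 + 2 * Real.pi * I)‖ ≤ C * Real.exp ((α * exp σ1).re)

theorem JU.jb {a : ℝ} {T : ℂ → ℂ} (h : JU a Λ T) : JB a Λ T := by
  intro σ1 hσ1
  obtain ⟨C, hC⟩ := h σ1.re |σ1.im| hσ1
  exact ⟨C, fun α hα => hC σ1 rfl le_rfl α hα⟩

theorem jboundU (hG : P0 φ r w1 L G) (hC : Co φ r w1 L Λ ℓ) {a : ℝ} (ha : 0 < a)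
    (hVG : ∀ (z : ℂ) (f : ℂ → ℂ), Branch φ r z f → ∀ b, VG a φ b (1 / conj z) (Rf f)) :
    JU a Λ (Ts G ℓ) := by
  intro x0 Y hx0
  have hUo : IsOpen (re ⁻¹' Iio Λ : Set ℂ) := isOpen_Iio.preimage continuous_re
  have hTd := Ts_diff hC hG.hG
  -- a bound on the compact set
  obtain ⟨B1, hB1⟩ : ∃ B1 : ℝ, ∀ s ∈ (fun y : ℝ => (x0 : ℂ) + y * I) '' Icc (-(Y + 7)) (Y + 7),
      ‖Ts G ℓ s‖ ≤ B1 := by
    refine (isCompact_Icc.image (by fun_prop)).exists_bound_of_continuousOn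
      (hTd.continuousOn.mono ?_)
    rintro _ ⟨y, -, rfl⟩
    rw [mem_preimage]
    simpa using hx0
  obtain ⟨B, hB, hB1', hB2⟩ : ∃ B : ℝ, 1 ≤ B ∧ B1 ≤ B ∧ 7 * Real.exp x0 ≤ B :=
    ⟨max 1 (max B1 (7 * Real.exp x0)), le_max_left _ _,
      (le_max_left _ _).trans (le_max_right _ _), (le_max_right _ _).trans (le_max_right _ _)⟩
  refine ⟨Real.exp (a * B) * Real.exp B * B, fun σ1 hre him α hα => ?_⟩
  have hσ1 : σ1.re < Λ := by rw [hre]; exact hx0
  have hlr : ∀ t : ℝ, (σ1 + t * (2 * Real.pi * I)).re = x0 := by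
    intro t
    rw [← hre]; simp
  have hline : ∀ t : ℝ, σ1 + t * (2 * Real.pi * I) ∈ (re ⁻¹' Iio Λ : Set ℂ) := by
    intro t
    rw [mem_preimage, hlr]
    exact hx0
  have hs : Continuous fun t : ℝ => σ1 + t * (2 * Real.pi * I) :=
    continuous_const.add (continuous_ofReal.mul continuous_const)
  have hT : Continuous fun t : ℝ => Ts G ℓ (σ1 + t * (2 * Real.pi * I)) :=
    hTd.continuousOn.comp_continuous hs hline
  have hE : Continuous fun t : ℝ => exp (σ1 + t * (2 * Real.pi * I)) := hs.cexp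
  have hsub : σ1 + 2 * Real.pi * I - σ1 = 2 * Real.pi * I := by ring
  have hen : ∀ t : ℝ, ‖exp (σ1 + t * (2 * Real.pi * I))‖ = Real.exp x0 := fun t => by
    rw [norm_exp, hlr]
  have hex := Real.exp_pos x0
  have h2pi : ‖(2 * Real.pi * I : ℂ)‖ ≤ 7 := by
    rw [norm_mul, norm_mul, norm_I, norm_real, Real.norm_of_nonneg Real.pi_pos.le]
    norm_num
    linarith [Real.pi_lt_d2]
  have h1 := wboundB ha (x := fun t => exp (σ1 + t * (2 * Real.pi * I)) - exp σ1)
    (X := fun t => Ts G ℓ (σ1 + t * (2 * Real.pi * I)))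
    (W := fun t => exp (σ1 + t * (2 * Real.pi * I)) * (2 * Real.pi * I))
    (hE.sub continuous_const) hT (hE.mul continuous_const)
    (Δ := Ts G ℓ (σ1 + 2 * Real.pi * I) - Ts G ℓ σ1) (by
      intro b
      rw [opi hG hC ha hVG hσ1 b]
      unfold seg kers
      refine intervalIntegral.integral_congr fun t _ => ?_
      simp only [hsub]
      ring) hB (by
      intro t ht
      refine (hB1 _ ⟨σ1.im + t * (2 * Real.pi), ?_, ?_⟩).trans hB1'
      · have h3 := abs_le.1 him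
        have h4 := Real.pi_pos
        have h5 := Real.pi_lt_d2
        constructor
        · nlinarith [ht.1]
        · nlinarith [ht.1, ht.2]
      · apply Complex.ext
        · simp [hre]
        · simp) (by
      intro t _
      refine (norm_sub_le _ _).trans ?_
      rw [hen, norm_exp, hre]
      linarith) (by
      intro t _
      rw [norm_mul, hen]
      calc Real.exp x0 * ‖(2 * Real.pi * I : ℂ)‖ ≤ Real.exp x0 * 7 := by gcongr
        _ ≤ B := by linarith) α hα
  have h2 : seg (Ji a (Ts G ℓ) α) σ1 (σ1 + 2 * Real.pi * I) = exp (α * exp σ1) *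
      ∫ s in (0 : ℝ)..1, exp (α * (exp (σ1 + s * (2 * Real.pi * I)) - exp σ1) -
        a / α * Ts G ℓ (σ1 + s * (2 * Real.pi * I))) *
        (exp (σ1 + s * (2 * Real.pi * I)) * (2 * Real.pi * I)) := by
    rw [← intervalIntegral.integral_const_mul]
    unfold seg Ji
    refine intervalIntegral.integral_congr fun t _ => ?_
    simp only [hsub]
    have h3 : exp (α * exp (σ1 + t * (2 * Real.pi * I)) -
        a / α * Ts G ℓ (σ1 + t * (2 * Real.pi * I))) = exp (α * exp σ1) *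
        exp (α * (exp (σ1 + t * (2 * Real.pi * I)) - exp σ1) -
        a / α * Ts G ℓ (σ1 + t * (2 * Real.pi * I))) := by
      rw [← exp_add]
      congr 1
      ring
    rw [h3]
    ring
  rw [h2, norm_mul, norm_exp, mul_comm]
  exact mul_le_mul_of_nonneg_right h1 (Real.exp_pos _).le

end Pool.Agent.E8helper32.SL
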