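import Pool.Agent.E8helper32.SL.Dg

/-!
# Laplace's method, general form
-/

set_option autoImplicit false

open Complex MeasureTheory Metric Set Filter Topology ComplexConjugate

namespace Pool.Agent.E8helper32.SL

/-- **Laplace's method.** -/
theorem lapG {ι : Type} {l : Filter ι} [l.IsCountablyGenerated] {R : ι → ℝ}
    (hR : Tendsto R l atTop) {H B : ι → ℝ → ℂ} {g : ℝ → ℝ} {m C : ℝ} {B0 : ℂ}
    (hg : Integrable g) (hg0 : ∀ u, 0 ≤ g u)
    (hcont : ∀ᶠ k in l, ContinuousOn (H k) (Icc (-Real.pi) Real.pi))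
    (hBcont : ∀ᶠ k in l, ContinuousOn (B k) (Icc (-Real.pi) Real.pi))
    (hdom : ∀ᶠ k in l, ∀ θ ∈ Icc (-Real.pi) Real.pi, Real.exp ((H k θ).re) ≤ g (θ * √(R k)))
    (hBb : ∀ᶠ k in l, ∀ θ ∈ Icc (-Real.pi) Real.pi, ‖B k θ‖ ≤ C)
    (hlim : ∀ u : ℝ, Tendsto (fun k => H k (u / √(R k))) l (𝓝 ((-(m * u ^ 2) : ℝ) : ℂ)))
    (hBlim : ∀ u : ℝ, Tendsto (fun k => B k (u / √(R k))) l (𝓝 B0)) :
    Tendsto (fun k => (√(R k) : ℂ) * ∫ θ in (-Real.pi)..Real.pi, exp (H k θ) * B k θ) l
      (𝓝 (∫ u : ℝ, exp ((-(m * u ^ 2) : ℝ) : ℂ) * B0)) := by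
  have hπ := Real.pi_pos
  have hR0 : ∀ᶠ k in l, 0 < R k := hR.eventually_gt_atTop 0
  have hRs : Tendsto (fun k => √(R k)) l atTop := Real.tendsto_sqrt_atTop.comp hR
  have hev : ∀ᶠ k in l, (∫ u : ℝ, (Ioc (-Real.pi * √(R k)) (Real.pi * √(R k))).indicator
      (fun u => exp (H k (u / √(R k))) * B k (u / √(R k))) u) =
      (√(R k) : ℂ) * ∫ θ in (-Real.pi)..Real.pi, exp (H k θ) * B k θ := by
    filter_upwards [hR0] with k hr
    have hs : 0 < √(R k) := Real.sqrt_pos.2 hr
    rw [integral_indicator measurableSet_Ioc, ← intervalIntegral.integral_of_le (by nlinarith)]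
    have h1 := intervalIntegral.integral_comp_div (a := -Real.pi * √(R k)) (b := Real.pi * √(R k))
      (fun θ : ℝ => exp (H k θ) * B k θ) hs.ne'
    rw [h1, mul_div_cancel_right₀ _ hs.ne', mul_div_cancel_right₀ _ hs.ne', real_smul]
  refine Tendsto.congr' hev ?_
  refine tendsto_integral_filter_of_dominated_convergence (fun u => C * g u) ?_ ?_
    (hg.const_mul _) ?_
  · filter_upwards [hcont, hBcont, hR0] with k h1 h3 hr
    have hs : 0 < √(R k) := Real.sqrt_pos.2 hr
    refine (aestronglyMeasurable_indicator_iff measurableSet_Ioc).2 ?_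
    refine ContinuousOn.aestronglyMeasurable ?_ measurableSet_Ioc
    have hm : MapsTo (fun u : ℝ => u / √(R k)) (Ioc (-Real.pi * √(R k)) (Real.pi * √(R k)))
        (Icc (-Real.pi) Real.pi) := by
      intro u hu
      constructor
      · rw [le_div_iff₀ hs]; exact hu.1.le
      · rw [div_le_iff₀ hs]; exact hu.2
    have h2 : ContinuousOn (fun u : ℝ => H k (u / √(R k)))
        (Ioc (-Real.pi * √(R k)) (Real.pi * √(R k))) :=
      h1.comp (continuous_id.div_const _).continuousOn hm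
    have h4 : ContinuousOn (fun u : ℝ => B k (u / √(R k)))
        (Ioc (-Real.pi * √(R k)) (Real.pi * √(R k))) :=
      h3.comp (continuous_id.div_const _).continuousOn hm
    exact h2.cexp.mul h4
  · filter_upwards [hdom, hBb, hR0] with k h1 h3 hr
    have hs : 0 < √(R k) := Real.sqrt_pos.2 hr
    have hC0 : 0 ≤ C := (norm_nonneg _).trans (h3 0 ⟨by linarith, by linarith⟩)
    refine Eventually.of_forall fun u => ?_
    by_cases hu : u ∈ Ioc (-Real.pi * √(R k)) (Real.pi * √(R k))
    · have hm : u / √(R k) ∈ Icc (-Real.pi) Real.pi := by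
        constructor
        · rw [le_div_iff₀ hs]; exact hu.1.le
        · rw [div_le_iff₀ hs]; exact hu.2
      rw [indicator_of_mem hu, norm_mul, norm_exp, mul_comm]
      have h4 := h1 _ hm
      rw [div_mul_cancel₀ _ hs.ne'] at h4
      have h5 := h3 _ hm
      gcongr
    · rw [indicator_of_notMem hu, norm_zero]
      exact mul_nonneg hC0 (hg0 u)
  · refine Eventually.of_forall fun u => ?_
    have h1 : Tendsto (fun k => exp (H k (u / √(R k))) * B k (u / √(R k))) l
        (𝓝 (exp ((-(m * u ^ 2) : ℝ) : ℂ) * B0)) :=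
      ((continuous_exp.tendsto _).comp (hlim u)).mul (hBlim u)
    refine h1.congr' ?_
    filter_upwards [hRs.eventually_gt_atTop |u|] with k hr
    rw [indicator_of_mem]
    have h2 := Real.pi_gt_three
    have h3 := abs_nonneg u
    have h4 := neg_abs_le u
    have h5 := le_abs_self u
    constructor <;> nlinarith

end Pool.Agent.E8helper32.SL
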