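import Pool.Agent.E8helper32.SL.Base

/-!
# The identities for all branches
-/

set_option autoImplicit false

open Complex MeasureTheory Metric Set Filter Topology ComplexConjugate

namespace Pool.Agent.E8helper32.SL

open Pool.Agent.Results.MP_83fd13_an.BranchSingularities
open Pool.Agent.Y245.UC (Rf VG)

variable {φ : ℂ → ℂ} {r : ℝ}

/-- the identities for all branches -/
theorem all_VG0 (hD : D0 φ r) {lam : ℝ} (hlam : 0 < lam)
    (hS : Solvable (φ '' ball 0 1) lam) (z : ℂ) (f : ℂ → ℂ) (h : Branch φ r z f) (b : ℂ) :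
    VG (lam / 4) φ b (1 / conj z) (Rf f) := by
  obtain ⟨cc, u, G, hu, hG, h1, h2, hu0⟩ := hS
  have hr := hD.hr
  have hφ := hD.hφ
  have hinj := hD.hinj
  have hSol : Pool.Agent.TH298.Sch.Sol (φ '' ball 0 1) lam cc u G := ⟨hu, hG, h1, h2⟩
  have hcont : ContinuousOn φ (closedBall 0 1) :=
    (hφ.continuousOn).mono (closedBall_subset_ball hr)
  have hb' : Bornology.IsBounded (φ '' ball 0 1) :=
    ((isCompact_closedBall (0 : ℂ) 1).image_of_continuousOn hcont).isBounded.subset
      (image_mono ball_subset_closedBall)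
  have hm' : MeasurableSet (φ '' ball 0 1) :=
    (isOpen_ball.measurableSet).image_of_continuousOn_injOn
      (hcont.mono ball_subset_closedBall) (hinj.mono (ball_subset_ball hr.le))
  have hc : cc ≠ 0 := hSol.c_ne hb' hm' hlam hu0
  exact (Pool.Agent.Y245.UC.branch_inv Pool.Agent.Y987.UC.ustart Pool.Agent.Y845.UC.ustep
    Pool.Agent.Y641.UC.uconn Pool.Agent.Y500.UC.urel Pool.Agent.Y500.UC.urefl φ r lam cc u G hr hφ
    hinj hlam hc hSol z f (branch_iff φ r z f h)).2.1 b

/-- `φ` is not the restriction of an entire function -/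
theorem not_entire (hD : D0 φ r) {lam : ℝ} (hlam : 0 < lam)
    (hS : Solvable (φ '' ball 0 1) lam)
    (hnd : ¬ ∃ (p : ℂ) (r0 : ℝ), 0 < r0 ∧ φ '' ball 0 1 = ball p r0) {Φ : ℂ → ℂ}
    (hΦ : Differentiable ℂ Φ) (hΦφ : EqOn Φ φ (ball 0 r)) : False := by
  have himg : Φ '' ball 0 1 = φ '' ball 0 1 :=
    (hΦφ.mono (ball_subset_ball hD.hr.le)).image_eq
  obtain ⟨-, -, h4⟩ := result Φ r hD.hr hΦ.differentiableOn
    (hD.hinj.congr hΦφ.symm) lam hlam (by rw [himg]; exact hS)
  rw [himg] at h4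
  exact (h4 hnd).2.2 fun z => (hΦ.analyticAt z).meromorphicAt

end Pool.Agent.E8helper32.SL
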